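import Pool.Agent.Lib.MP_23bd8d_gt.Defs

/-! Topological groups read inside a structure `(M, E)`, where `E x y` interprets `x ∈ y`. -/

namespace Pool.Agent.Lib.MP_5ffd28_gt.Cohen

open Pool.Agent.Shared.Forcing Pool.Agent.Lib.MP_23bd8d_gt

universe u

variable {M : Type u} (E : M → M → Prop)

/-- `T` is the topology induced on `S` by the open intervals of the line `(R, L)`. -/
def SubTop (R L S T : M) : Prop :=
  ∀ V, E V T ↔ Sub E V S ∧ ∀ x, E x V → ∃ a b, E a R ∧ E b R ∧ Maps E L a x ∧ Maps E L x b ∧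
    ∀ y, E y S → Maps E L a y → Maps E L y b → E y V

/-- `f` is a continuous map from `(X, T)` to `(Y, S)`: preimages of open sets are open. -/
def Cts (f X T Y S : M) : Prop :=
  IsFn E f X Y ∧ ∀ V W, E V S → (∀ x, E x W ↔ ∃ y, E y V ∧ Maps E f x y) → E W T

/-- `f` sends members of `T` to members of `S`. -/
def OpenMap (f T S : M) : Prop :=
  ∀ V W, E V T → (∀ y, E y W ↔ ∃ x, E x V ∧ Maps E f x y) → E W S

/-- `(X, T)` is a Tychonoff space: `T₁`, and a point is separated from a closed set not
containing it by a continuous map to the real line `(R, S)`. -/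
def Tychonoff (X T R S : M) : Prop :=
  (∀ x y, E x X → E y X → x ≠ y → ∃ V, E V T ∧ E x V ∧ ¬ E y V) ∧
  ∀ V x, E V T → E x V → ∃ f a b, Cts E f X T R S ∧ a ≠ b ∧ Maps E f x a ∧
    ∀ y, E y X → ¬ E y V → Maps E f y b

/-- `x + y = z` for the operation `A`: `((x, y), z) ∈ A`. -/
def Op (A x y z : M) : Prop := ∃ p, IsKPair E p x y ∧ Maps E A p z

/-- `(G, A, T)` is an abelian topological group: an abelian group with a topology for which
subtraction is jointly continuous. -/
def TopAb (G A T : M) : Prop :=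
  (∀ x y, E x G → E y G → ∃ z, E z G ∧ ∀ z', Op E A x y z' ↔ z' = z) ∧
  (∀ x y z u v w, E x G → E y G → E z G → Op E A x y u → Op E A u z w → Op E A y z v →
    Op E A x v w) ∧
  (∀ x y z, E x G → E y G → Op E A x y z → Op E A y x z) ∧
  (∃ e, E e G ∧ ∀ x, E x G → Op E A x e x ∧ ∃ y, E y G ∧ Op E A x y e) ∧
  IsTop E G T ∧
  ∀ x y z W, E y G → E z G → Op E A z y x → E W T → E z W →
    ∃ U V, E U T ∧ E V T ∧ E x U ∧ E y V ∧
      ∀ x' y' z', E x' U → E y' V → E z' G → Op E A z' y' x' → E z' W

/-- `f` is additive for the operations `A` and `B`. -/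
def Additive (f A B : M) : Prop :=
  ∀ x y z x' y' z', Op E A x y z → Maps E f x x' → Maps E f y y' → Maps E f z z' → Op E B x' y' z'

/-- `(G, A, S)` with `i : X → G` is the free abelian topological group on `(X, T)`: `i` is
continuous, its image generates `G`, and every continuous map from `X` to an abelian topological
group extends to a continuous homomorphism on `G`. -/
def Free (X T G A S i : M) : Prop :=
  TopAb E G A S ∧ Cts E i X T G S ∧
  (∀ K, Sub E K G → (∃ y, E y K) → (∀ x y z, E x K → E y K → E z G → Op E A z y x → E z K) →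
    (∀ x y, Maps E i x y → E y K) → Sub E G K) ∧
  ∀ H B U f, TopAb E H B U → Cts E f X T H U →
    ∃ F, Cts E F G S H U ∧ Additive E F A B ∧ ∀ x y z, Maps E i x y → Maps E f x z → Maps E F y z

end Pool.Agent.Lib.MP_5ffd28_gt.Cohen
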