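import Pool.Agent.Lib.MP_5ffd28_gt.Cohen.Kill
import Pool.Agent.Lib.MP_23bd8d_gt.Real

/-! The category algebra of the Cohen space as a regular open algebra. -/

namespace Pool.Agent.Lib.MP_5ffd28_gt.Cohen

open Set Filter Topology MeasureTheory Pool.Agent.Shared.Forcing Pool.Agent.Lib.MP_23bd8d_gt
open Cardinal

/-- conditions -/
structure Cond : Type 1 where
  s : Set Ω
  o : IsOpen s
  ne : s.Nonempty

instance : Preorder Cond := Preorder.lift Cond.s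

abbrev BB : Type 1 := RO Cond

noncomputable abbrev ll : Cardinal.{1} := Cardinal.univ.{0, 1}

instance : Fact ll.IsInaccessible := ⟨Cardinal.IsInaccessible.univ⟩

theorem ul_lt (ι : Type) : #(ULift.{1} ι) < ll := by
  rw [mk_uLift]; exact lift_lt_univ _

theorem BB_lt : #BB < ll := by
  have h1 : #Cond < ll := (mk_le_of_injective (f := fun p : Cond => ULift.up.{1} p.s) (by
    rintro ⟨_, _, _⟩ ⟨_, _, _⟩ h
    cases h; rfl)).trans_lt (ul_lt _)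
  exact (mk_le_of_injective (f := fun b : BB => b.s) fun a b h => RO.ext' fun p => by
    rw [RO.mem_def, RO.mem_def, show a.s = b.s from h]).trans_lt (set_lt_l h1)

theorem tame : Tame BB ll := tame_of_small BB_lt

/-- the truth value of a property of generic points -/
def tv (P : Ω → Prop) : BB := RO.hull {p | ∀ᵇ ω, ω ∈ p.s → P ω}

/-- `P` holds at the generic point described by `U` -/
def Ae (U : Ultra BB) (P : Ω → Prop) : Prop := tv P ∈ U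

instance (P : Ω → Prop) : Dec fun U => Ae U P := Dec.const _

variable {U : Ultra BB} {P Q : Ω → Prop}

theorem tv_mono (h : ∀ᵇ ω, P ω → Q ω) : tv P ≤ tv Q :=
  RO.hull_le.2 fun p (hp : ∀ᵇ ω, ω ∈ p.s → P ω) => RO.mem_hull_of_mem
    ((hp.and h).mono fun _ h hω => h.2 (h.1 hω))

theorem Ae.mono' (h : Ae U P) (h' : ∀ᵇ ω, P ω → Q ω) : Ae U Q := Ultra.mono h (tv_mono h')

theorem Ae.mono (h : Ae U P) (h' : ∀ ω, P ω → Q ω) : Ae U Q := h.mono' (Eventually.of_forall h')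

theorem Ae.and (h : Ae U P) (h' : Ae U Q) : Ae U fun ω => P ω ∧ Q ω := by
  refine Ultra.mono (Ultra.inf_mem.2 ⟨h, h'⟩) fun p hp q hq => ?_
  rw [RO.mem_inf] at hp
  obtain ⟨r, h1, t, h2 : ∀ᵇ ω, ω ∈ t.s → P ω, h3⟩ := hp.1 q hq
  obtain ⟨r', h4, t', h5 : ∀ᵇ ω, ω ∈ t'.s → Q ω, h6⟩ := hp.2 r (h1.trans hq)
  exact ⟨r', h4.trans h1, r', (h2.and h5).mono fun ω h hω =>
    And.intro (h.1 (h3 (h4 hω))) (h.2 (h6 hω)), le_rfl⟩

theorem Ae.of_ae (h : ∀ᵇ ω, P ω) : Ae U P :=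
  Ultra.mono U.top_mem fun _ _ => RO.mem_hull_of_mem (h.mono fun _ h _ => h)

theorem Ae.of_all (h : ∀ ω, P ω) : Ae U P := Ae.of_ae (Eventually.of_forall h)

theorem Ae.exists (h : Ae U P) : ∃ ω, P ω := by
  obtain ⟨p, hp⟩ := RO.ne_bot_iff.1 (Ultra.ne_bot h)
  obtain ⟨-, -, t, h, -⟩ := hp p le_rfl
  obtain ⟨ω, h1, h2⟩ := exists_mem_of_ae t.o t.ne h
  exact ⟨ω, h2 h1⟩

theorem Ae.elim (h : Ae U P) (h' : ∀ ω, ¬ P ω) : False := let ⟨ω, hω⟩ := h.exists; h' ω hω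

theorem exists_ae (hP : Measurable P) (h : ¬ ∀ᵇ ω, ¬ P ω) : ∃ U, Ae U P := by
  obtain ⟨O, h1, h2, h3⟩ := exists_open_ae hP.setOf h
  exact Ultra.exists_mem (RO.ne_bot_iff.2 ⟨⟨O, h1, h2⟩, RO.mem_hull_of_mem h3⟩)

theorem tv_exists_le {ι : Type} [Countable ι] {P : ι → Ω → Prop} (hP : ∀ i, Measurable (P i)) :
    (tv fun ω => ∃ i, P i ω) ≤ ⨆ i, tv (P i) := by
  refine RO.hull_le.2 fun p (hp : ∀ᵇ ω, ω ∈ p.s → ∃ i, P i ω) => RO.mem_iSup.2 fun q hq => ?_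
  choose O hO e using fun i => exists_open (hP i).setOf
  replace e := fun i => eventuallyEq_set.1 (e i)
  obtain ⟨ω, h1, h2, h3⟩ := exists_mem_of_ae q.o q.ne (hp.and (eventually_countable_forall.2 e))
  obtain ⟨i, hi⟩ := h2 (hq h1)
  exact ⟨⟨q.s ∩ O i, q.o.inter (hO i), ω, h1, (h3 i).1 hi⟩, inter_subset_left, i,
    RO.mem_hull_of_mem ((e i).mono fun ω h hω => h.2 hω.2)⟩

/-- a countable disjunction may be assumed to have a true member -/
@[elab_as_elim]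
theorem wlog_ex {Φ : Ultra BB → Prop} {ι : Type} [Countable ι] {P : ι → Ω → Prop}
    (hP : ∀ i, Measurable (P i)) (U : Ultra BB) (h : Ae U fun ω => ∃ i, P i ω) [Dec Φ]
    (H : ∀ U i, Ae U (P i) → Φ U) : Φ U :=
  wlog_sup _ U (Ultra.mono h (tv_exists_le hP)) H

theorem Ae.or (hP : Measurable P) (hQ : Measurable Q) (h : Ae U fun ω => P ω ∨ Q ω) :
    Ae U P ∨ Ae U Q := by
  refine wlog_ex (P := fun b : Bool => if b then P else Q)
    (fun b => by cases b <;> assumption) U (h.mono fun ω h => by simpa using h.symm) ?_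
  intro U b h
  cases b
  exacts [Or.inr h, Or.inl h]

theorem Ae.of_not (hP : Measurable P) (h : ¬ Ae U P) : Ae U fun ω => ¬ P ω :=
  (Ae.or hP hP.not (Ae.of_all fun _ => em _)).resolve_left h

theorem ae_of_forall (hP : Measurable P) (hQ : Measurable Q) (h : ∀ U, Ae U P → Ae U Q) :
    ∀ᵇ ω, P ω → Q ω := by
  by_contra hn
  obtain ⟨U, hU⟩ := exists_ae (hP.imp hQ).not (by simpa using hn)
  exact ((h U (hU.mono fun ω h => (Classical.not_imp.1 h).1)).and hU).elim fun ω h => h.2 fun _ => h.1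

theorem exists_tv (b : BB) : ∃ P, Measurable P ∧ ∀ U, Ae U P ↔ b ∈ U := by
  have hO : IsOpen (⋃ p ∈ b, p.s) := isOpen_biUnion fun p _ => p.o
  obtain ⟨A, h1, h2⟩ := exists_meas_of_open hO
  rw [eventuallyEq_set] at h2
  suffices tv (· ∈ A) = b from ⟨(· ∈ A), h1.mem, fun U => by rw [Ae, this]⟩
  refine le_antisymm (RO.hull_le.2 fun p (hp : ∀ᵇ ω, ω ∈ p.s → ω ∈ A) => RO.of_dense fun q hq => ?_)
    fun p hp => RO.mem_hull_of_mem (h2.mono fun ω h hω => h.2 (mem_biUnion hp hω))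
  obtain ⟨ω, h3, h4, h5⟩ := exists_mem_of_ae q.o q.ne (hp.and h2)
  obtain ⟨r, h6, h7⟩ := mem_iUnion₂.1 (h5.1 (h4 (hq h3)))
  exact ⟨⟨q.s ∩ r.s, q.o.inter r.o, ω, h3, h7⟩, inter_subset_left, RO.mono h6 inter_subset_right⟩

theorem exists_dec (Φ : Ultra BB → Prop) [Dec Φ] : ∃ P, Measurable P ∧ ∀ U, Ae U P ↔ Φ U :=
  (exists_tv (bv Φ)).imp fun _ h => ⟨h.1, fun U => (h.2 U).trans bv_mem⟩

theorem Ae.forall {Φ : Ultra BB → Prop} [Dec Φ] {ι : Type} [Countable ι] {P : ι → Ω → Prop}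
    (hP : ∀ i, Measurable (P i)) (H : ∀ i U, Φ U → Ae U (P i)) (h : Φ U) :
    Ae U fun ω => ∀ i, P i ω := by
  obtain ⟨C, h1, h2⟩ := exists_dec Φ
  exact ((h2 U).2 h).mono' ((eventually_countable_forall.2 fun i =>
    ae_of_forall h1 (hP i) fun U hU => H i U ((h2 U).1 hU)).mono fun ω h hω i => h i hω)

theorem exists_countable_sup {ι : Type} (c : ι → BB) :
    ∃ s : Set ι, s.Countable ∧ ⨆ i, c i ≤ ⨆ i : s, c i := by
  obtain ⟨s, h1, h2⟩ := ccc (fun i => ⋃ p ∈ c i, p.s) fun i => isOpen_biUnion fun p _ => p.o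
  refine ⟨s, h1, iSup_le fun i p hp => RO.mem_iSup.2 fun q hq => ?_⟩
  obtain ⟨ω, hω⟩ := q.ne
  obtain ⟨η, h3, h4⟩ := mem_closure_iff.1 (h2 i (mem_biUnion hp (hq hω))) q.s q.o hω
  obtain ⟨j, hj, h5⟩ := mem_iUnion₂.1 h4
  obtain ⟨r, h6, h7⟩ := mem_iUnion₂.1 h5
  exact ⟨⟨q.s ∩ r.s, q.o.inter r.o, η, h3, h7⟩, inter_subset_left, ⟨j, hj⟩,
    RO.mono h6 inter_subset_right⟩

/-- a supremum is attained on the pieces of a countable measurable partition -/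
theorem glue {ι : Type} [Nonempty ι] (c : ι → BB) : ∃ (i : ℕ → ι) (κ : Ω → ℕ), Measurable κ ∧
    ⨆ j, c j ≤ ⨆ n, c (i n) ⊓ tv fun ω => κ ω = n := by
  classical
  obtain ⟨s, h1, h2⟩ := exists_countable_sup c
  obtain ⟨i, hi⟩ := (h1.insert (Classical.arbitrary ι)).exists_eq_range (insert_nonempty _ _)
  choose P p1 p2 using fun n => exists_tv (c (i n))
  have hp : ∀ ω, ∃ n, P n ω ∨ ¬ ∃ m, P m ω := fun ω => by
    by_cases h : ∃ m, P m ω
    exacts [h.imp fun _ => Or.inl, ⟨0, Or.inr h⟩]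
  have hκ : Measurable fun ω => Nat.find (hp ω) :=
    measurable_find hp fun n => ((p1 n).or (Measurable.exists p1).not).setOf
  refine ⟨i, _, hκ, h2.trans (iSup_le fun j => Ultra.le_of_forall fun U hU => ?_)⟩
  obtain ⟨m, hm⟩ : j.1 ∈ range i := hi ▸ Or.inr j.2
  refine wlog_ex (P := fun n ω => P n ω ∧ Nat.find (hp ω) = n)
    (fun n => (p1 n).and (hκ.eq_const n)) U (((p2 m U).2 (hm ▸ hU)).mono fun ω h =>
      ⟨_, (Nat.find_spec (hp ω)).resolve_right (not_not.2 ⟨m, h⟩), rfl⟩) ?_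
  exact fun U n h => iSup_mem_of_mem n (Ultra.inf_mem.2
    ⟨(p2 n U).1 (h.mono fun _ h => h.1), h.mono fun _ h => h.2⟩)

theorem exists_ker {P : Ω → ℝ → Prop} (hP : Measurable fun u : Ω × ℝ => P u.1 u.2) :
    ∃ K : Ω → Prop, Measurable K ∧ (∀ ω, K ω → ∀ z, P ω z) ∧ ∀ᵇ ω, (∀ z, P ω z) → K ω :=
  let ⟨a, ha, hd⟩ := exists_dep_prod hP
  ⟨_, (isKer_ker a _).1.mem, (isKer_ker a _).2.2, ae_ker ha hP hd⟩

end Pool.Agent.Lib.MP_5ffd28_gt.Cohen
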