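import Mathlib

/-! Baire category on the Cohen space `Λ → ℕ → Bool`. -/

namespace Pool.Agent.Lib.MP_5ffd28_gt.Cohen

open Set Filter Topology MeasureTheory

/-- the Cohen space -/
abbrev Om (Λ : Type) : Type := Λ → ℕ → Bool

variable {Λ : Type}

theorem exists_open {A : Set (Om Λ)} (hA : MeasurableSet A) : ∃ O, IsOpen O ∧ A =ᵇ O := by
  have h1 : (MeasurableSpace.pi : MeasurableSpace (Om Λ)) ≤ borel _ := pi_le_borel_pi
  exact @MeasurableSet.residualEq_isOpen _ _ _ (borel _) (@BorelSpace.mk _ _ (borel _) rfl) (h1 _ hA)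

theorem exists_mem_of_ae {X : Type*} [TopologicalSpace X] [BaireSpace X] {O : Set X}
    (hO : IsOpen O) (hne : O.Nonempty) {P : X → Prop} (h : ∀ᵇ x, P x) : ∃ x ∈ O, P x :=
  let ⟨x, h1, h2⟩ := (dense_of_mem_residual h).inter_open_nonempty O hO hne
  ⟨x, h1, h2⟩

/-- a measurable set that is not meagre is comeagre in a nonempty open set -/
theorem exists_open_ae {A : Set (Om Λ)} (hA : MeasurableSet A) (h : ¬ ∀ᵇ ω, ω ∉ A) :
    ∃ O, IsOpen O ∧ O.Nonempty ∧ ∀ᵇ ω, ω ∈ O → ω ∈ A := by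
  obtain ⟨O, hO, e⟩ := exists_open hA
  rw [eventuallyEq_set] at e
  refine ⟨O, hO, ?_, e.mono fun ω h => h.2⟩
  by_contra hn
  exact h (e.mono fun ω h hω => hn ⟨ω, h.1 hω⟩)

theorem exists_dep_set {A : Set (Om Λ)} (hA : MeasurableSet A) :
    ∃ a : Set Λ, a.Countable ∧ DependsOn (· ∈ A) a := by
  rw [MeasurableSpace.pi, MeasurableSpace.measurableSet_iSup] at hA
  induction hA with
  | basic u hu =>
    obtain ⟨δ, s, -, rfl⟩ := hu
    exact ⟨{δ}, countable_singleton δ, fun x y h => by simp [h δ rfl]⟩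
  | empty => exact ⟨∅, countable_empty, fun x y _ => rfl⟩
  | compl t _ ih =>
    obtain ⟨a, ha, h⟩ := ih
    exact ⟨a, ha, fun x y hxy => congrArg Not (h hxy)⟩
  | iUnion f _ ih =>
    choose a ha h using ih
    refine ⟨⋃ i, a i, countable_iUnion ha, fun x y hxy => ?_⟩
    simp only [mem_iUnion]
    exact congrArg _ (funext fun i => h i fun δ hδ => hxy δ (mem_iUnion.2 ⟨i, hδ⟩))

theorem exists_dep {f : Om Λ → ℝ} (hf : Measurable f) :
    ∃ a : Set Λ, a.Countable ∧ DependsOn f a := by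
  choose a ha h using fun q : ℚ => exists_dep_set (hf (measurableSet_Iio (a := (q : ℝ))))
  refine ⟨⋃ q, a q, countable_iUnion ha, fun x y hxy => ?_⟩
  have key : ∀ q : ℚ, f x < q ↔ f y < q := fun q =>
    (h q fun δ hδ => hxy δ (mem_iUnion.2 ⟨q, hδ⟩)).to_iff
  rcases lt_trichotomy (f x) (f y) with h | h | h
  · obtain ⟨q, h1, h2⟩ := exists_rat_btwn h
    exact absurd ((key q).1 h1) h2.not_gt
  · exact h
  · obtain ⟨q, h1, h2⟩ := exists_rat_btwn h
    exact absurd ((key q).2 h1) h2.not_gt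

/-- the cylinder of `ω` on the finite set `D` -/
def cyl (D : Finset (Λ × ℕ)) (ω : Om Λ) : Set (Om Λ) := {ω' | ∀ x ∈ D, ω' x.1 x.2 = ω x.1 x.2}

theorem self_mem_cyl (D : Finset (Λ × ℕ)) (ω : Om Λ) : ω ∈ cyl D ω := fun _ _ => rfl

theorem isOpen_cyl (D : Finset (Λ × ℕ)) (ω : Om Λ) : IsOpen (cyl D ω) := by
  have : cyl D ω = ⋂ x ∈ D, (fun ω' : Om Λ => ω' x.1 x.2) ⁻¹' {ω x.1 x.2} := by
    ext; simp [cyl]
  rw [this]
  exact isOpen_biInter_finset fun x _ => (isOpen_discrete _).preimage (by fun_prop)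

theorem measurableSet_cyl (D : Finset (Λ × ℕ)) (ω : Om Λ) : MeasurableSet (cyl D ω) := by
  have : cyl D ω = ⋂ x ∈ D, (fun ω' : Om Λ => ω' x.1 x.2) ⁻¹' {ω x.1 x.2} := by
    ext; simp [cyl]
  rw [this]
  exact Finset.measurableSet_biInter D fun x _ =>
    (measurableSet_singleton _).preimage (by fun_prop)

theorem exists_cyl {O : Set (Om Λ)} (hO : IsOpen O) {ω : Om Λ} (h : ω ∈ O) :
    ∃ D, cyl D ω ⊆ O := by
  have hc : Continuous (fun η : Λ × ℕ → Bool => (Function.curry η : Om Λ)) := by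
    unfold Function.curry; fun_prop
  obtain ⟨D, u, h1, h2⟩ := isOpen_pi_iff.1 (hO.preimage hc) (Function.uncurry ω) h
  exact ⟨D, fun ω' hω => h2 (a := Function.uncurry ω') fun x hx => by
    have := (h1 x hx).2
    rwa [Function.uncurry, ← hω x hx] at this⟩

/-- countable chain condition -/
theorem ccc {ι : Type*} (O : ι → Set (Om Λ)) (hO : ∀ i, IsOpen (O i)) :
    ∃ s : Set ι, s.Countable ∧ ∀ i, O i ⊆ closure (⋃ j ∈ s, O j) := by
  classical
  let μ : Measure (Λ × ℕ → Bool) :=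
    Measure.infinitePi fun _ => (PMF.uniformOfFintype Bool).toMeasure
  let K : Set (Set (Om Λ)) := {C | ∃ D ω i, C = cyl D ω ∧ C ⊆ O i}
  obtain ⟨m, hm⟩ := zorn_subset {t : Set (Set (Om Λ)) | t ⊆ K ∧ t.PairwiseDisjoint id} (by
    intro c hc hch
    refine ⟨⋃₀ c, ⟨sUnion_subset fun t ht => (hc ht).1, ?_⟩, fun s hs => subset_sUnion_of_mem hs⟩
    exact (pairwiseDisjoint_sUnion hch.directedOn).2 fun t ht => (hc ht).2)
  have hK : ∀ C : m, ∃ D ω i, C.1 = cyl D ω ∧ C.1 ⊆ O i := fun C => hm.prop.1 C.2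
  choose D w i h1 h2 using hK
  have hc : Countable m := by
    have key := Measure.countable_meas_pos_of_disjoint_iUnion (μ := μ)
      (As := fun C : m => Function.curry ⁻¹' C.1) (fun C => ?_) (fun C C' hne => ?_)
    · rw [← countable_univ_iff]
      refine key.mono fun C _ => ?_
      have e : Function.curry ⁻¹' C.1 = Set.pi (D C : Set (Λ × ℕ)) fun x => {w C x.1 x.2} := by
        rw [h1 C]; ext; simp [cyl, Function.curry]
      show 0 < μ _
      rw [e, Measure.infinitePi_pi _ (fun _ _ => measurableSet_singleton _), pos_iff_ne_zero,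
        Finset.prod_ne_zero_iff]
      intro x _
      simp
    · rw [h1 C]
      refine (measurableSet_cyl _ _).preimage ?_
      unfold Function.curry; fun_prop
    · exact (hm.prop.2 C.2 C'.2 fun e => hne (Subtype.ext e)).preimage _
  refine ⟨range i, countable_range i, fun j ω hω => ?_⟩
  by_contra hn
  obtain ⟨D', hD'⟩ := exists_cyl ((hO j).inter isClosed_closure.isOpen_compl) ⟨hω, hn⟩
  have hd : ∀ C ∈ m, Disjoint (cyl D' ω) C := fun C hC => disjoint_left.2 fun x hx hxC =>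
    (hD' hx).2 (subset_closure (mem_biUnion (mem_range_self ⟨C, hC⟩) (h2 ⟨C, hC⟩ hxC)))
  have : cyl D' ω ∈ m := by
    refine hm.le_of_ge (y := insert (cyl D' ω) m) ⟨insert_subset ⟨D', ω, j, rfl, fun x hx =>
      (hD' hx).1⟩ hm.prop.1, hm.prop.2.insert fun C hC _ => hd C hC⟩ (subset_insert _ _)
      (mem_insert _ _)
  exact disjoint_left.1 (hd _ this) (self_mem_cyl _ _) (self_mem_cyl _ _)

theorem ae_closure {X : Type*} [TopologicalSpace X] {O : Set X} (hO : IsOpen O) :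
    ∀ᵇ x, x ∈ closure O → x ∈ O :=
  (eventuallyEq_set.1 (closure_residualEq hO.isLocallyClosed)).mono fun _ h => h.1

theorem exists_meas_of_open {O : Set (Om Λ)} (hO : IsOpen O) :
    ∃ A, MeasurableSet A ∧ A =ᵇ O := by
  obtain ⟨s, hs, h⟩ := ccc (fun i : {x : Finset (Λ × ℕ) × Om Λ // cyl x.1 x.2 ⊆ O} =>
    cyl i.1.1 i.1.2) fun i => isOpen_cyl _ _
  refine ⟨_, MeasurableSet.biUnion hs fun i _ => measurableSet_cyl i.1.1 i.1.2, ?_⟩
  rw [eventuallyEq_set]
  filter_upwards [ae_closure (isOpen_biUnion (s := s) fun i _ => isOpen_cyl i.1.1 i.1.2)] with ω hω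
  refine ⟨fun h => ?_, fun h' => hω ?_⟩
  · obtain ⟨i, -, hi⟩ := mem_iUnion₂.1 h
    exact i.2 hi
  · obtain ⟨D, hD⟩ := exists_cyl hO h'
    exact h ⟨(D, ω), hD⟩ (self_mem_cyl _ _)

/-- countably many measurable sets are relatively open in a residual set -/
theorem exists_decide {ι : Type} [Countable ι] (Z : ι → Set (Om Λ)) (hZ : ∀ i, MeasurableSet (Z i)) :
    ∃ R ∈ residual (Om Λ), ∀ {Θ : Type} [TopologicalSpace Θ] (W : Θ → Om Λ), Continuous W →
      (∀ θ, W θ ∈ R) → ∀ i, IsOpen (W ⁻¹' Z i) := by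
  choose O hO e using fun i => exists_open (hZ i)
  refine ⟨{ω | ∀ i, ω ∈ Z i ↔ ω ∈ O i},
    eventually_countable_forall.2 fun i => eventuallyEq_set.1 (e i), fun W hW h i => ?_⟩
  convert (hO i).preimage hW using 1
  ext θ
  exact h θ i

/-- a Kuratowski-Ulam principle for one coordinate -/
theorem ae_of_sections [DecidableEq Λ] (δ : Λ) {Z : Set (Om Λ)} (hZ : MeasurableSet Z)
    (h : ∀ ω, ∀ᵇ A, Function.update ω δ A ∈ Z) : ∀ᵇ ω, ω ∈ Z := by
  by_contra hn
  obtain ⟨O, hO, hne, hae⟩ := exists_open_ae hZ.compl (by simpa using hn)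
  obtain ⟨S, hS1, hS2, hS3, hS4⟩ := mem_residual_iff.1 hae
  have cu : ∀ A, Continuous fun ω : Om Λ => Function.update ω δ A := fun A => by fun_prop
  have cu' : ∀ ω : Om Λ, Continuous fun A => Function.update ω δ A := fun ω => by fun_prop
  have k1 : ∀ᵇ ω : Om Λ, ∀ t ∈ S, ∀ V ∈ TopologicalSpace.countableBasis (ℕ → Bool),
      ∃ A ∈ V, Function.update ω δ A ∈ t := by
    rw [eventually_countable_ball hS3]
    intro t ht
    rw [eventually_countable_ball (TopologicalSpace.countable_countableBasis _)]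
    intro V hV
    apply residual_of_dense_open
    · have : {ω : Om Λ | ∃ A ∈ V, Function.update ω δ A ∈ t} =
          ⋃ A ∈ V, (fun ω : Om Λ => Function.update ω δ A) ⁻¹' t := by ext; simp
      exact this ▸ isOpen_biUnion fun A _ => (hS1 t ht).preimage (cu A)
    · rw [dense_iff_inter_open]
      rintro V' hV' ⟨ω₀, h₀⟩
      obtain ⟨A, hA⟩ := TopologicalSpace.nonempty_of_mem_countableBasis hV
      obtain ⟨ω, ⟨h1, h2⟩, h3⟩ := (hS2 t ht).inter_open_nonempty
        ((fun ω : Om Λ => ω δ) ⁻¹' V ∩ (fun ω => Function.update ω δ (ω₀ δ)) ⁻¹' V')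
        (((TopologicalSpace.isOpen_of_mem_countableBasis hV).preimage (by fun_prop)).inter
          (hV'.preimage (cu _))) ⟨Function.update ω₀ δ A, by simpa using hA, by simpa using h₀⟩
      exact ⟨_, h2, ω δ, h1, by simpa using h3⟩
  obtain ⟨ω, hω, k2⟩ := exists_mem_of_ae hO hne k1
  have k3 : ∀ᵇ A, ∀ t ∈ S, Function.update ω δ A ∈ t := by
    rw [eventually_countable_ball hS3]
    intro t ht
    refine residual_of_dense_open ((hS1 t ht).preimage (cu' ω)) ?_
    rw [(TopologicalSpace.isBasis_countableBasis _).dense_iff]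
    intro V hV _
    obtain ⟨A, h1, h2⟩ := k2 t ht V hV
    exact ⟨A, h1, h2⟩
  obtain ⟨A, h1, h2, h3⟩ := exists_mem_of_ae (hO.preimage (cu' ω)) ⟨ω δ, by simpa using hω⟩
    (k3.and (h ω))
  exact hS4 (mem_sInter.2 h2) h1 h3

end Pool.Agent.Lib.MP_5ffd28_gt.Cohen
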