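import Pool.Agent.Lib.MP_5ffd28_gt.Cohen.Baire

-- part Pool.Agent.Lib.MP_5ffd28_gt.Cohen.Fusion
section

/-! A compact family of generic points with almost disjoint coordinates. -/

namespace Pool.Agent.Lib.MP_5ffd28_gt.Cohen

open Set Filter Topology

/-- threads -/
abbrev Th : Type := ∀ k : ℕ, Fin (2 * k + 1)

variable {Λ : Type} (r : ℕ → Λ → Prop)

/-- finite approximations -/
abbrev St (Λ : Type) : Type := Finset (Λ × ℕ) × (Th → Om Λ)

def Inv (m : ℕ) (s : St Λ) : Prop :=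
  (∀ θ x, x ∉ s.1 → s.2 θ x.1 x.2 = false) ∧
    ∀ θ θ' δ, (∀ k < m, r k δ → θ k = θ' k) → s.2 θ δ = s.2 θ' δ

def Ext (m : ℕ) (s t : St Λ) : Prop :=
  s.1 ⊆ t.1 ∧ (∀ θ, ∀ x ∈ s.1, t.2 θ x.1 x.2 = s.2 θ x.1 x.2) ∧
    ∀ x ∉ s.1, ∀ θ θ', t.2 θ x.1 x.2 → t.2 θ' x.1 x.2 → ∀ k < m, r k x.1 → θ k = θ' k

variable {r}

theorem Ext.trans {m : ℕ} {s t u : St Λ} (h : Ext r m s t) (h' : Ext r m t u) : Ext r m s u := by
  refine ⟨h.1.trans h'.1, fun θ x hx => (h'.2.1 θ x (h.1 hx)).trans (h.2.1 θ x hx),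
    fun x hx θ θ' h1 h2 => ?_⟩
  by_cases ht : x ∈ t.1
  · exact h.2.2 x hx θ θ' (h'.2.1 θ x ht ▸ h1) (h'.2.1 θ' x ht ▸ h2)
  · exact h'.2.2 x ht θ θ' h1 h2

theorem Ext.mono {m n : ℕ} {s t : St Λ} (h : Ext r m s t) (hn : n ≤ m) : Ext r n s t :=
  ⟨h.1, h.2.1, fun x hx θ θ' h1 h2 k hk => h.2.2 x hx θ θ' h1 h2 k (hk.trans_le hn)⟩

theorem Ext.cyl {m : ℕ} {s t : St Λ} (h : Ext r m s t) (θ : Th) :
    cyl t.1 (t.2 θ) ⊆ cyl s.1 (s.2 θ) := fun _ hω x hx => (hω x (h.1 hx)).trans (h.2.1 θ x hx)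

theorem Inv.ext {m n : ℕ} {s : St Λ} (h : Inv r m s) {D : Finset (Λ × ℕ)} (hD : s.1 ⊆ D) :
    Ext r n s (D, s.2) :=
  ⟨hD, fun _ _ _ => rfl, fun x hx θ _ h1 => by simp [h.1 θ x hx] at h1⟩

theorem ext_one {m : ℕ} {s : St Λ} (h : Inv r m s) {O : Set (Om Λ)} (hO : IsOpen O) (hd : Dense O)
    (θ₀ : Th) : ∃ t, Inv r m t ∧ Ext r m s t ∧
      ∀ θ, (∀ k < m, θ k = θ₀ k) → cyl t.1 (t.2 θ) ⊆ O := by
  classical
  obtain ⟨q, h1, h2⟩ := hd.inter_open_nonempty _ (isOpen_cyl s.1 (s.2 θ₀)) ⟨_, self_mem_cyl _ _⟩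
  obtain ⟨D, hD⟩ := exists_cyl hO h2
  refine ⟨(s.1 ∪ D, fun θ δ n => if (δ, n) ∈ s.1 then s.2 θ δ n else
    if (δ, n) ∈ D ∧ ∀ k < m, r k δ → θ k = θ₀ k then q δ n else false),
    ⟨fun θ x hx => ?_, fun θ θ' δ e => funext fun n => ?_⟩,
    ⟨Finset.subset_union_left, fun θ x hx => if_pos hx, fun x hx θ θ' a b k hk hr => ?_⟩,
    fun θ e ω hω => hD fun x hx => ?_⟩
  · rw [Finset.notMem_union] at hx
    simp [hx.1, hx.2]
  · have : (∀ k < m, r k δ → θ k = θ₀ k) ↔ ∀ k < m, r k δ → θ' k = θ₀ k :=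
      forall₃_congr fun k hk hr => by rw [e k hk hr]
    simp only [h.2 θ θ' δ e, this]
  · simp only [Prod.mk.eta, if_neg hx, Bool.if_false_right, Bool.and_eq_true, decide_eq_true_eq] at a b
    exact (a.1.2 k hk hr).trans (b.1.2 k hk hr).symm
  · rw [hω x (Finset.mem_union_right _ hx)]
    by_cases hs : x ∈ s.1
    · simp only [Prod.mk.eta, if_pos hs]
      rw [h1 x hs, h.2 θ θ₀ _ fun k hk _ => e k hk]
    · simp only [Prod.mk.eta, if_neg hs]
      exact if_pos ⟨hx, fun k hk _ => e k hk⟩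

theorem ext_all {m : ℕ} {s : St Λ} (h : Inv r m s) {O : Set (Om Λ)} (hO : IsOpen O)
    (hd : Dense O) : ∃ t, Inv r m t ∧ Ext r m s t ∧ ∀ θ, cyl t.1 (t.2 θ) ⊆ O := by
  classical
  have key : ∀ S : Finset Th, ∃ t, Inv r m t ∧ Ext r m s t ∧
      ∀ θ₀ ∈ S, ∀ θ, (∀ k < m, θ k = θ₀ k) → cyl t.1 (t.2 θ) ⊆ O := by
    intro S
    induction S using Finset.induction_on with
    | empty => exact ⟨s, h, h.ext subset_rfl, by simp⟩
    | insert θ₁ S _ ih =>
      obtain ⟨t, h1, h2, h3⟩ := ih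
      obtain ⟨u, a1, a2, a3⟩ := ext_one h1 hO hd θ₁
      exact ⟨u, a1, h2.trans a2, Finset.forall_mem_insert _ _ _ |>.2
        ⟨a3, fun θ₀ h0 θ e => (a2.cyl θ).trans (h3 θ₀ h0 θ e)⟩⟩
  obtain ⟨t, h1, h2, h3⟩ := key (Finset.univ.image fun (u : ∀ k : Fin m, Fin (2 * k + 1)) k =>
    if hk : k < m then u ⟨k, hk⟩ else 0)
  exact ⟨t, h1, h2, fun θ => h3 _ (Finset.mem_image_of_mem _ (Finset.mem_univ fun k : Fin m => θ k)) θ
    fun k hk => by simp [hk]⟩

theorem fusion (r : ℕ → Λ → Prop) (e : ℕ → Λ × ℕ) {R : Set (Om Λ)} (hR : R ∈ residual (Om Λ))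
    {O : Set (Om Λ)} (hO : IsOpen O) (hne : O.Nonempty) :
    ∃ (W : Th → Om Λ) (D : ℕ → Finset (Λ × ℕ)), (∀ θ, W θ ∈ O ∧ W θ ∈ R) ∧ Continuous W ∧
      (∀ θ θ' δ, (∀ k, r k δ → θ k = θ' k) → W θ δ = W θ' δ) ∧
      (∀ m, ∀ x ∈ D m, ∀ θ θ', (∀ k < m, r k x.1 → θ k = θ' k) → W θ x.1 x.2 = W θ' x.1 x.2) ∧
      (∀ m, ∀ x ∉ D m, ∀ θ θ', W θ x.1 x.2 → W θ' x.1 x.2 → r m x.1 → θ m = θ' m) ∧
      Monotone D ∧ ∀ m, e m ∈ D (m + 1) := by
  classical
  obtain ⟨S, S1, S2, S3, S4⟩ := mem_residual_iff.1 hR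
  obtain ⟨V, hV⟩ := (S3.insert univ).exists_eq_range (insert_nonempty _ _)
  have V1 : ∀ m, IsOpen (V m) ∧ Dense (V m) := fun m => by
    rcases (hV ▸ mem_range_self m : V m ∈ insert univ S) with h | h
    exacts [h ▸ ⟨isOpen_univ, dense_univ⟩, ⟨S1 _ h, S2 _ h⟩]
  have step : ∀ m (s : {s // Inv r m s}), ∃ t : {s // Inv r (m + 1) s}, Ext r (m + 1) s.1 t.1 ∧
      e m ∈ t.1.1 ∧ ∀ θ, cyl t.1.1 (t.1.2 θ) ⊆ V m := by
    rintro m ⟨s, h⟩
    obtain ⟨t, h1, h2, h3⟩ := ext_all (r := r) (m := m + 1) (s := (insert (e m) s.1, s.2))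
      ⟨fun θ x hx => h.1 θ x fun h' => hx (Finset.mem_insert_of_mem h'),
        fun θ θ' δ h' => h.2 θ θ' δ fun k hk => h' k (hk.trans m.lt_succ_self)⟩ (V1 m).1 (V1 m).2
    exact ⟨⟨t, h1⟩, (h.ext (Finset.subset_insert _ _)).trans h2,
      h2.1 (Finset.mem_insert_self _ _), h3⟩
  choose f f1 f2 f3 using step
  obtain ⟨ω₀, h₀⟩ := hne
  obtain ⟨D₀, hD₀⟩ := exists_cyl hO h₀
  let s : ∀ m, {s // Inv r m s} := fun m => Nat.rec ⟨(D₀, fun _ δ n =>
    if (δ, n) ∈ D₀ then ω₀ δ n else false), fun _ x hx => if_neg hx, fun _ _ _ _ => rfl⟩ f m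
  have ext : ∀ m M, m ≤ M → Ext r (m + 1) (s m).1 (s M).1 := by
    intro m M h
    induction M, h using Nat.le_induction with
    | base => exact (s m).2.ext subset_rfl
    | succ M h ih => exact ih.trans ((f1 M (s M)).mono (by omega))
  have up : ∀ m M θ (x : Λ × ℕ), m ≤ M → (s m).1.2 θ x.1 x.2 → (s M).1.2 θ x.1 x.2 := by
    intro m M θ x h hx
    rwa [(ext m M h).2.1 θ x (by_contra fun h' => by simp [(s m).2.1 θ x h'] at hx)]
  let W : Th → Om Λ := fun θ δ n => decide (∃ m, (s m).1.2 θ δ n)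
  have hW : ∀ m θ, W θ ∈ cyl (s m).1.1 ((s m).1.2 θ) := by
    intro m θ x hx
    rw [Bool.eq_iff_iff, decide_eq_true_eq]
    refine ⟨fun ⟨M, h⟩ => ?_, fun h => ⟨m, h⟩⟩
    rcases le_total m M with h' | h'
    · rwa [← (ext m M h').2.1 θ x hx]
    · exact up M m θ x h' h
  have dep : ∀ m, ∀ x ∈ (s m).1.1, ∀ θ θ', (∀ k < m, r k x.1 → θ k = θ' k) →
      W θ x.1 x.2 = W θ' x.1 x.2 := fun m x hx θ θ' h => by
    rw [hW m θ x hx, hW m θ' x hx, (s m).2.2 θ θ' _ h]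
  refine ⟨W, fun m => (s m).1.1, fun θ => ⟨hD₀ fun x hx => (hW 0 θ x hx).trans (if_pos hx),
    S4 fun t ht => ?_⟩, ?_, fun θ θ' δ h => ?_, dep, fun m x hx θ θ' h1 h2 => ?_,
    fun m M h => (ext m M h).1, fun m => f2 m (s m)⟩
  · obtain ⟨m, rfl⟩ : t ∈ range V := hV ▸ Or.inr ht
    exact f3 m (s m) θ (hW (m + 1) θ)
  · refine continuous_pi fun δ => continuous_pi fun n => ?_
    by_cases h : ∃ m, (δ, n) ∈ (s m).1.1
    · obtain ⟨m, hm⟩ := h
      refine IsLocallyConstant.continuous ((IsLocallyConstant.iff_exists_open _).2 fun θ =>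
        ⟨_, PiNat.isOpen_cylinder _ θ m, PiNat.self_mem_cylinder _ _, fun θ' h =>
          dep m _ hm θ' θ fun k hk _ => h k hk⟩)
    · convert continuous_const (y := false) using 2 with θ
      exact decide_eq_false fun ⟨m, hm⟩ => by
        simp [(s m).2.1 θ (δ, n) fun h' => h ⟨m, h'⟩] at hm
  · funext n
    simp only [W, fun m => (s m).2.2 θ θ' δ fun k _ => h k]
  · obtain ⟨M, h1⟩ := of_decide_eq_true h1
    obtain ⟨M', h2⟩ := of_decide_eq_true h2
    exact (ext m (max m (max M M')) (le_max_left _ _)).2.2 x hx θ θ'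
      (up _ _ θ x (by omega) h1) (up _ _ θ' x (by omega) h2) m m.lt_succ_self

end Pool.Agent.Lib.MP_5ffd28_gt.Cohen
end

-- part Pool.Agent.Lib.MP_5ffd28_gt.Cohen.Maj
section

/-! Iterated majority votes on threads. -/

namespace Pool.Agent.Lib.MP_5ffd28_gt.Cohen

open Set Function

open Classical in
/-- majority vote -/
def maj (k : ℕ) (P : Fin (2 * k + 1) → Prop) : Prop := k < (Finset.univ.filter P).card

theorem maj_iff {k : ℕ} {P : Fin (2 * k + 1) → Prop} {c : Prop} (s : Finset (Fin (2 * k + 1)))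
    (hs : s.card ≤ k) (h : ∀ i ∉ s, P i ↔ c) : maj k P ↔ c := by
  classical
  unfold maj
  by_cases hc : c
  · refine iff_of_true ?_ hc
    have h1 : sᶜ ⊆ Finset.univ.filter P := fun i hi => by
      simpa using (h i (Finset.mem_compl.1 hi)).2 hc
    have h2 := Finset.card_le_card h1
    rw [Finset.card_compl, Fintype.card_fin] at h2
    convert (by omega : k < (Finset.univ.filter P).card)
  · refine iff_of_false (not_lt.2 (le_trans (Finset.card_le_card fun i hi => ?_) hs)) hc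
    by_contra hn
    exact hc ((h i hn).1 (by simpa using hi))

theorem maj_const {k : ℕ} {P : Fin (2 * k + 1) → Prop} {c : Prop} (h : ∀ i, P i ↔ c) :
    maj k P ↔ c := maj_iff ∅ (Nat.zero_le _) fun i _ => h i

/-- nested majority over a list of coordinates -/
def majL (F : Th → Prop) : List ℕ → Th → Prop
  | [] => F
  | k :: l => fun θ => maj k fun i => majL F l (update θ k i)

theorem majL_congr {F : Th → Prop} {m : ℕ} (h : ∀ θ θ', (∀ k < m, θ k = θ' k) → (F θ ↔ F θ'))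
    (l : List ℕ) : ∀ θ θ', (∀ k < m, θ k = θ' k) → (majL F l θ ↔ majL F l θ') := by
  induction l with
  | nil => exact h
  | cons j l ih =>
    intro θ θ' e
    refine iff_of_eq (congrArg (maj j) (funext fun i => propext (ih _ _ fun k hk => ?_)))
    by_cases hj : k = j
    · subst hj; simp
    · simp [update_of_ne hj, e k hk]

open Classical in
/-- the entries outside `Γ` -/
noncomputable def flt (Γ : Set ℕ) (l : List ℕ) : List ℕ := l.filter fun k => decide (k ∉ Γ)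

theorem flt_mem {Γ : Set ℕ} {k : ℕ} (h : k ∈ Γ) (l : List ℕ) : flt Γ (k :: l) = flt Γ l :=
  List.filter_cons_of_neg (by simpa using h)

theorem flt_not {Γ : Set ℕ} {k : ℕ} (h : k ∉ Γ) (l : List ℕ) : flt Γ (k :: l) = k :: flt Γ l :=
  List.filter_cons_of_pos (by simpa using h)

theorem flt_congr {Γ Γ' : Set ℕ} {l : List ℕ} (h : ∀ k ∈ l, k ∈ Γ ↔ k ∈ Γ') : flt Γ l = flt Γ' l :=
  List.filter_congr fun k hk => by simp [h k hk]

theorem exists_maj {κ : Type} [LinearOrder κ] {key : ℕ → κ} (hk : Injective key) {F : Th → Prop}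
    {m : ℕ} (h : ∀ θ θ', (∀ k < m, θ k = θ' k) → (F θ ↔ F θ')) :
    ∃ M : Set ℕ → Th → Prop, M univ = F ∧
      (∀ Γ Γ' θ c, Γ ⊆ Γ' → (∀ j k, key j < key k → k ∈ Γ' → j ∈ Γ') →
        (∀ θ', (∀ k ∈ Γ, θ' k = θ k) → (M Γ' θ' ↔ c)) → (M Γ θ ↔ c)) ∧
      ∀ k θ, M {j | key j < key k} θ ↔ maj k fun i => M {j | key j ≤ key k} (update θ k i) := by
  classical
  obtain ⟨l, l1, l2⟩ : ∃ l : List ℕ, l.Pairwise (key · < key ·) ∧ ∀ k, k ∈ l ↔ k ∈ Finset.range m := by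
    induction Finset.range m using Finset.induction_on_min_value key with
    | empty => exact ⟨[], List.Pairwise.nil, by simp⟩
    | insert a s ha hs ih =>
      obtain ⟨l, l1, l2⟩ := ih
      exact ⟨a :: l, List.pairwise_cons.2 ⟨fun b hb => (hs b ((l2 b).1 hb)).lt_of_ne fun e =>
        ha (hk e ▸ (l2 b).1 hb), l1⟩, by simp [l2]⟩
  refine ⟨fun Γ => majL F (flt Γ l), by simp [majL, flt], fun Γ Γ' θ c h1 h2 => ?_,
    fun k θ => ?_⟩
  · clear l2
    induction l generalizing θ with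
    | nil => exact fun h => h θ fun _ _ => rfl
    | cons j l ih =>
      rw [List.pairwise_cons] at l1
      intro h3
      by_cases a : j ∈ Γ'
      · simp only [flt_mem a] at h3
        by_cases b : j ∈ Γ
        · simp only [flt_mem b]
          exact ih l1.2 θ h3
        · simp only [flt_not b]
          exact maj_const fun i => ih l1.2 _ fun θ' e => h3 θ' fun k hk =>
            (e k hk).trans (update_of_ne (ne_of_mem_of_not_mem hk b) _ _)
      · have e : flt Γ (j :: l) = flt Γ' (j :: l) := flt_congr fun k hk => by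
          have : k ∉ Γ' := (List.mem_cons.1 hk).elim (fun e => e ▸ a)
            fun hk h => a (h2 _ _ (l1.1 k hk) h)
          exact iff_of_false (fun h => this (h1 h)) this
        simp only [e]
        exact h3 θ fun _ _ => rfl
  · by_cases hm : k ∈ l
    · have e : flt {j | key j < key k} l = k :: flt {j | key j ≤ key k} l := by
        clear l2
        induction l with
        | nil => simp at hm
        | cons j l ih =>
          rw [List.pairwise_cons] at l1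
          rcases List.mem_cons.1 hm with rfl | hm
          · rw [flt_not (by simp), flt_mem (by simp)]
            exact congrArg _ (flt_congr fun i hi =>
              iff_of_false (l1.1 i hi).not_gt (l1.1 i hi).not_ge)
          · rw [flt_mem (l1.1 k hm), flt_mem (l1.1 k hm).le, ih l1.2 hm]
      simp only [e, majL]
    · have e : flt {j | key j < key k} l = flt {j | key j ≤ key k} l :=
        flt_congr fun i hi => ⟨le_of_lt, fun h => lt_of_le_of_ne h fun e => hm (hk e ▸ hi)⟩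
      simp only [e]
      exact (maj_const fun i => majL_congr h _ (update θ k i) θ fun j hj => update_of_ne
        (ne_of_mem_of_not_mem ((l2 j).2 (Finset.mem_range.2 hj)) hm) _ _).symm

theorem exists_lt_of_open {S : Set Th} (hS : IsOpen S) {θ : Th} (h : θ ∈ S) :
    ∃ m, ∀ θ' : Th, (∀ k < m, θ' k = θ k) → θ' ∈ S := by
  obtain ⟨_, ⟨v, n, rfl⟩, b1, b2⟩ := (PiNat.isTopologicalBasis_cylinders
    (fun k => Fin (2 * k + 1))).exists_subset_of_mem_open h hS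
  exact ⟨n, fun θ' e => b2 fun k hk => (e k hk).trans (b1 k hk)⟩

theorem exists_lt_of_clopen {S : Set Th} (hS : IsOpen S) (hS' : IsOpen Sᶜ) :
    ∃ m, ∀ θ θ' : Th, (∀ k < m, θ k = θ' k) → (θ ∈ S ↔ θ' ∈ S) := by
  have h : ∀ θ : Th, ∃ m, ∀ θ' : Th, (∀ k < m, θ' k = θ k) → (θ' ∈ S ↔ θ ∈ S) := fun θ => by
    by_cases h : θ ∈ S
    · exact (exists_lt_of_open hS h).imp fun m hm θ' e => iff_of_true (hm θ' e) h
    · exact (exists_lt_of_open hS' h).imp fun m hm θ' e => iff_of_false (hm θ' e) h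
  choose m hm using h
  obtain ⟨t, ht⟩ := isCompact_univ.elim_finite_subcover (fun θ => PiNat.cylinder θ (m θ))
    (fun θ => PiNat.isOpen_cylinder _ _ _) fun θ _ => mem_iUnion.2 ⟨θ, PiNat.self_mem_cylinder _ _⟩
  refine ⟨t.sup m, fun θ θ' e => ?_⟩
  obtain ⟨η, h1, h2⟩ := mem_iUnion₂.1 (ht (mem_univ θ))
  exact (hm η θ h2).trans (hm η θ' fun k hk =>
    (e k (hk.trans_le (Finset.le_sup h1))).symm.trans (h2 k hk)).symm

end Pool.Agent.Lib.MP_5ffd28_gt.Cohen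
end
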