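import Pool.Agent.Lib.MP_5ffd28_gt.Cohen.Sys
import Pool.Agent.Lib.MP_5ffd28_gt.Cohen.Maj

-- part Pool.Agent.Lib.MP_5ffd28_gt.Cohen.Clos
section

/-! Closures of sets of rationals are preserved by later stages. -/

namespace Pool.Agent.Lib.MP_5ffd28_gt.Cohen

open Set Filter Topology MeasureTheory

theorem ae_of_cyl {S : Set (ℕ → Bool)}
    (h : ∀ A N, ∃ A' ∈ PiNat.cylinder A N, ∃ N', PiNat.cylinder A' N' ⊆ S) : ∀ᵇ A, A ∈ S := by
  refine mem_of_superset (residual_of_dense_open isOpen_interior ?_) interior_subset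
  rw [(PiNat.isTopologicalBasis_cylinders fun _ : ℕ => Bool).dense_iff]
  rintro _ ⟨A, N, rfl⟩ -
  obtain ⟨A', h1, N', h2⟩ := h A N
  exact ⟨A', h1, interior_maximal h2 (PiNat.isOpen_cylinder _ _ _) (PiNat.self_mem_cylinder _ _)⟩

theorem ev_box {G : Nd → ℝ → ℝ} {β : Bx} {z : ℝ} {f : Filter ℚ}
    (h : ∀ t ∈ β, Tendsto (fun d : ℚ => G t.1 d) f (𝓝 (G t.1 z))) (hz : z ∈ Box G β) :
    ∀ᶠ d : ℚ in f, (d : ℝ) ∈ Box G β :=
  (eventually_all_finset β).2 fun t ht => h t ht (Ioo_mem_nhds (hz t ht).1 (hz t ht).2)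

theorem tendsto_g {a : Set Nd} {δ : Nd} (h : δ ∈ a) (ω : Ω) (z : ℝ) :
    Tendsto (fun d : ℚ => g δ ω d) (F a ω z) (𝓝 (g δ ω z)) :=
  (tendsto_nb (G := (g · ω)) h z).comp tendsto_comap

/-- the generating functions with the sum at `δ` truncated to `s` -/
noncomputable def trunc (δ : Nd) (s : Finset ℕ) (ω : Ω) : Nd → ℝ → ℝ :=
  Function.update (g · ω) δ fun z => psum (ω δ) (T δ ω · z) s

theorem tendsto_trunc {a : Set Nd} {δ ε : Nd} (hδ : below δ ⊆ a) (h : ε ∈ insert δ a)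
    (s : Finset ℕ) (ω : Ω) (z : ℝ) :
    Tendsto (fun d : ℚ => trunc δ s ω ε d) (F a ω z) (𝓝 (trunc δ s ω ε z)) := by
  by_cases e : ε = δ
  · simp only [trunc, e, Function.update_self, psum]
    refine tendsto_finsetSum _ fun n _ => ?_
    split_ifs
    exacts [((T_spec δ ω z).1 n).mono_left (fl_mono _ hδ z), tendsto_const_nhds]
  · simp only [trunc, Function.update_of_ne e]
    exact tendsto_g (h.resolve_left e) ω z

theorem mem_trunc {δ : Nd} (h : δ ≠ .base) {s : Finset ℕ} {ω : Ω} {z : ℝ} (β : Bx)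
    (hs : ∀ n, ω δ n → T δ ω n z ≠ 0 → n ∈ s) :
    z ∈ Box (trunc δ s ω) β ↔ z ∈ Box (g · ω) β := by
  refine forall₂_congr fun t _ => ?_
  by_cases e : t.1 = δ
  · simp only [trunc, e, Function.update_self, g_eq h, gsum_eq hs]
  · simp only [trunc, Function.update_of_ne e]

theorem meas_trunc (δ : Nd) (s : Finset ℕ) (β : Bx) (d : ℚ) :
    Measurable fun ω => (d : ℝ) ∈ Box (trunc δ s ω) β := by
  refine meas_box (G := fun ε ω => trunc δ s ω ε) (fun t _ => ?_) measurable_const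
  by_cases e : t.1 = δ
  · simp only [trunc, e, Function.update_self]
    exact meas_psum (by fun_prop) (meas_T δ) s
  · simp only [trunc, Function.update_of_ne e]
    exact meas_g _

theorem trunc_congr {a : Set Nd} (ha : ∀ ε ∈ a, below ε ⊆ a) {δ : Nd} (hδ : below δ ⊆ a)
    {s : Finset ℕ} {ω ω' : Ω} (h : ∀ ε ∈ a, ω ε = ω' ε) (hs : ∀ n ∈ s, ω δ n = ω' δ n) :
    ∀ ε ∈ insert δ a, trunc δ s ω ε = trunc δ s ω' ε := by
  intro ε hε
  by_cases e : ε = δ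
  · simp only [trunc, e, Function.update_self, psum, dep_T δ fun ε hε => h ε (hδ hε)]
    funext z
    exact Finset.sum_congr rfl fun n hn => by rw [hs n hn]
  · simp only [trunc, Function.update_of_ne e]
    exact dep_g ε fun ε' h' => h ε' (insert_subset (hε.resolve_left e) (ha _ (hε.resolve_left e)) h')

theorem meas_T' (δ : Nd) (n : ℕ) (z : ℝ) : Measurable fun ω => T δ ω n z :=
  (meas_T δ n).comp (f := fun ω : Ω => (ω, z)) (by fun_prop)

theorem cp_one {a : Set Nd} (ha : Cl a) {δ : Nd} (hδ : δ ∉ a) (hb : below δ ⊆ a)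
    {E : Ω → ℚ → Prop} (hE : ∀ d, Measurable fun ω => E ω d) (hd : DependsOn E a) :
    ∀ᵇ ω, ∀ z, (∃ᶠ d in F a ω z, E ω d) → ∃ᶠ d in F (insert δ a) ω z, E ω d := by
  have hne : δ ≠ .base := fun e => hδ (e ▸ ha.base)
  have := countable_over (ha.cnt.insert δ)
  have key : ∀ᵇ ω : Ω, ∀ (β : {β // Over (insert δ a) β}) (N₀ : ℕ), ∃ N, N₀ ≤ N ∧
      ((¬ ∃ d, E ω d ∧ (d : ℝ) ∈ Box (trunc δ (Finset.range N) ω) β) ∨
      ∃ d, E ω d ∧ (d : ℝ) ∈ Box (trunc δ (Finset.range N) ω) β ∧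
        ∀ n, ω δ n → T δ ω n d ≠ 0 → n ∈ Finset.range N) := by
    refine eventually_countable_forall.2 fun β => eventually_countable_forall.2 fun N₀ =>
      ae_of_sections δ (Measurable.setOf ?_) fun ω => ae_of_cyl fun A N₁ => ?_
    · refine Measurable.exists fun N => measurable_const.and ((Measurable.exists fun d =>
        (hE d).and (meas_trunc _ _ _ _)).not.or (Measurable.exists fun d => (hE d).and
          ((meas_trunc _ _ _ _).and (Measurable.forall fun n => Measurable.imp ?_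
            (((meas_T' δ n d).eq_const 0).not.imp measurable_const)))))
      exact Measurable.eq_const (by fun_prop) true
    · have hu : ∀ A, ∀ ε ∈ a, Function.update ω δ A ε = ω ε := fun A ε hε =>
        Function.update_of_ne (ne_of_mem_of_not_mem hε hδ) _ _
      have hB : ∀ A' : ℕ → Bool, (∀ n < max N₀ N₁, A' n = A n) →
          Box (trunc δ (Finset.range (max N₀ N₁)) (Function.update ω δ A')) β =
          Box (trunc δ (Finset.range (max N₀ N₁)) (Function.update ω δ A)) β := fun A' h =>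
        box_congr β.2 (trunc_congr ha.sub hb (fun ε hε => (hu _ ε hε).trans (hu _ ε hε).symm)
          fun n hn => by simpa using h n (Finset.mem_range.1 hn))
      by_cases h : ∃ d, E ω d ∧
        (d : ℝ) ∈ Box (trunc δ (Finset.range (max N₀ N₁)) (Function.update ω δ A)) β
      · obtain ⟨d, h1, h2⟩ := h
        obtain ⟨s, hs⟩ := (T_spec δ ω d).2.2
        obtain ⟨M, hM⟩ := s.exists_nat_subset_range
        refine ⟨fun n => if n < max N₀ N₁ then A n else false,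
          fun n hn => if_pos (hn.trans_le (le_max_right _ _)), max M (max N₀ N₁), fun A' hA' =>
          ⟨_, le_max_left N₀ N₁, Or.inr ⟨d, by rwa [hd (hu A')], ?_, fun n h3 h4 => ?_⟩⟩⟩
        · rwa [hB A' fun n hn => (hA' n (hn.trans_le (le_max_right _ _))).trans (if_pos hn)]
        · rw [dep_T δ fun ε hε => hu A' ε (hb hε)] at h4
          rw [Function.update_self, hA' n ((Finset.mem_range.1 (hM (hs n h4))).trans_le
            (le_max_left _ _))] at h3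
          by_contra hn
          simp [Finset.mem_range.not.1 hn] at h3
      · exact ⟨A, PiNat.self_mem_cylinder _ _, max N₀ N₁, fun A' hA' =>
          ⟨_, le_max_left N₀ N₁, Or.inl (by rwa [hd (hu A'), hB A' hA'])⟩⟩
  filter_upwards [key] with ω hω z hz
  refine fr_fl.2 fun β hβ => ?_
  obtain ⟨s, hs⟩ := (T_spec δ ω z).2.2
  obtain ⟨N₀, hN⟩ := s.exists_nat_subset_range
  obtain ⟨N, h1, h2 | ⟨d, h2, h3, h4⟩⟩ := hω ⟨β, hβ.1⟩ N₀
  · exact absurd (hz.and_eventually (ev_box (fun t ht => tendsto_trunc hb (hβ.1 t ht) _ ω z)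
      ((mem_trunc hne β fun n _ h => Finset.range_mono h1 (hN (hs n h))).2 hβ.2))).exists h2
  · exact ⟨d, (mem_trunc hne β h4).1 h3, h2⟩

/-- preservation of closures -/
theorem cp {a b : Set Nd} (ha : Cl a) (hb : Cl b) (_hab : a ⊆ b)
    {E : Ω → ℚ → Prop} (hE : ∀ d, Measurable fun ω => E ω d) (hd : DependsOn E a) :
    ∀ᵇ ω, ∀ z, (∃ᶠ d in F a ω z, E ω d) → ∃ᶠ d in F b ω z, E ω d := by
  classical
  let c : Nd → Set Nd := fun γ => a ∪ {δ ∈ b | δ < γ}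
  have hc : ∀ γ, Cl (c γ) := fun γ => ⟨ha.cnt.union (hb.cnt.mono (sep_subset _ _)),
    Or.inl ha.base, fun δ hδ ε hε => hδ.elim (fun h => Or.inl (ha.sub _ h hε))
      fun h => Or.inr ⟨hb.sub _ h.1 hε, (lt_of_below hε).trans h.2⟩⟩
  filter_upwards [(eventually_countable_ball (hb.cnt.mono (sdiff_subset (t := a)))).2 fun δ hδ =>
    cp_one (hc δ) (δ := δ) (fun h => h.elim hδ.2 fun h => lt_irrefl _ h.2)
      (fun ε hε => Or.inr ⟨hb.sub _ hδ.1 hε, lt_of_below hε⟩) hE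
      (hd.mono subset_union_left)] with ω hω z hz
  have step : ∀ c' : Set Nd, (∀ δ ∈ c', δ ∉ a → δ ∈ b ∧ ∃ᶠ d in F (c δ) ω z, E ω d) →
      ∃ᶠ d in F c' ω z, E ω d := by
    intro c' h
    refine fr_fl.2 fun β hβ => ?_
    rcases (β.filter fun t => t.1 ∉ a).eq_empty_or_nonempty with e | hne
    · exact fr_fl.1 hz β ⟨fun t ht => by_contra fun h' => Finset.notMem_empty t
        (e ▸ Finset.mem_filter.2 ⟨ht, h'⟩), hβ.2⟩
    · obtain ⟨t, h1, h2⟩ := Finset.exists_max_image _ (·.1) hne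
      rw [Finset.mem_filter] at h1
      obtain ⟨h3, h4⟩ := h _ (hβ.1 t h1.1) h1.2
      refine fr_fl.1 (hω _ ⟨h3, h1.2⟩ z h4) β ⟨fun u hu => ?_, hβ.2⟩
      by_cases h5 : u.1 ∈ a
      · exact Or.inr (Or.inl h5)
      · exact (h2 u (Finset.mem_filter.2 ⟨hu, h5⟩)).eq_or_lt.imp id
          fun h6 => Or.inr ⟨(h _ (hβ.1 u hu) h5).1, h6⟩
  have all : ∀ γ, ∃ᶠ d in F (c γ) ω z, E ω d := by
    intro γ
    induction γ using WellFoundedLT.induction with
    | ind γ ih => exact step _ fun δ hδ h => ⟨(hδ.resolve_left h).1, ih δ (hδ.resolve_left h).2⟩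
  exact step b fun δ hδ _ => ⟨hδ, all δ⟩

theorem ev_base {ω : Ω} {z : ℝ} {P : ℚ → Prop} (h : ∀ᶠ d in F {.base} ω z, P d) :
    ∀ᶠ y in 𝓝 z, ∀ d : ℚ, (d : ℝ) = y → P d := by
  obtain ⟨β, h1, h2⟩ := ev_fl.1 h
  have : ∀ᶠ y in 𝓝 z, y ∈ Box (g · ω) β := (eventually_all_finset β).2 fun t ht => by
    have h3 := h1.2 t ht
    simp only [show t.1 = .base from h1.1 t ht, g_base] at h3 ⊢
    exact Ioo_mem_nhds h3.1 h3.2
  exact this.mono fun y hy d e => h2 d (e ▸ hy)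

/-- the rationals are dense -/
theorem ae_neBot {a : Set Nd} (ha : Cl a) : ∀ᵇ ω, ∀ z, ∃ᶠ _ in F a ω z, True := by
  filter_upwards [cp cl_base ha (singleton_subset_iff.2 ha.base) (E := fun _ _ => True)
    (fun _ => measurable_const) fun _ _ _ => rfl] with ω h z
  refine h z fun h' => ?_
  obtain ⟨d, hd⟩ := Rat.denseRange_cast.mem_nhds (ev_base h')
  exact hd d rfl trivial

/-- limits along later stages are limits along the support of the data -/
theorem factor {a b : Set Nd} (ha : Cl a) (hb : b.Countable) {H : Ω → ℚ → ℝ}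
    (hH : ∀ d, Measurable fun ω => H ω d) (hd : DependsOn H a) :
    ∀ᵇ ω, ∀ z c, Tendsto (H ω) (F b ω z) (𝓝 c) → Tendsto (H ω) (F a ω z) (𝓝 c) := by
  obtain ⟨b', h1, h2⟩ := exists_cl (ha.cnt.union hb)
  filter_upwards [eventually_countable_forall.2 fun u : ℚ × ℚ => cp ha h2
    (subset_union_left.trans h1) (E := fun ω d => ¬ (u.1 < H ω d ∧ H ω d < u.2))
    (fun d => ((measurable_const.lt (hH d)).and ((hH d).lt measurable_const)).not)
    fun _ _ h => by simp only [hd h]] with ω hω z c hc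
  rw [(nhds_basis_Ioo _).tendsto_right_iff]
  rintro ⟨u, v⟩ ⟨h3, h4⟩
  obtain ⟨p, a1, a2⟩ := exists_rat_btwn h3
  obtain ⟨q, b1, b2⟩ := exists_rat_btwn h4
  by_contra hn
  refine hω (p, q) z ((not_eventually.1 hn).mono fun d h h' => h ⟨a1.trans h'.1, h'.2.trans b2⟩) ?_
  exact (hc.mono_left (fl_mono _ (subset_union_right.trans h1) z)).eventually
    (Ioo_mem_nhds a2 b1) |>.mono fun d h h' => h' h

end Pool.Agent.Lib.MP_5ffd28_gt.Cohen
end

-- part Pool.Agent.Lib.MP_5ffd28_gt.Cohen.Conn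
section

/-! The generic topologies are connected. -/

namespace Pool.Agent.Lib.MP_5ffd28_gt.Cohen

open Set Filter Topology MeasureTheory Function

theorem base_le (δ : Nd) : .base ≤ δ := by
  by_cases h : δ = .base
  exacts [h.ge, (lt_of_below (base_mem_below h)).le]

/-- a compact family of generic points with votes -/
structure Fam (a : Set Nd) where
  σ : ℕ → Nd
  W : Th → Ω
  D : ℕ → Finset (Nd × ℕ)
  M : ℚ → Set ℕ → Th → Prop
  mem : ∀ k, σ k ∈ a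
  inf : ∀ δ ∈ a, ∀ m, ∃ k, m ≤ k ∧ σ k = δ
  dep0 : ∀ θ θ' δ, (∀ k, σ k ≤ δ → θ k = θ' k) → W θ δ = W θ' δ
  dep1 : ∀ m, ∀ x ∈ D m, ∀ θ θ', (∀ k < m, σ k ≤ x.1 → θ k = θ' k) → W θ x.1 x.2 = W θ' x.1 x.2
  own : ∀ m, ∀ x ∉ D m, ∀ θ θ', W θ x.1 x.2 → W θ' x.1 x.2 → σ m ≤ x.1 → θ m = θ' m
  mono : Monotone D
  exh : ∀ δ ∈ a, ∀ n, ∃ m, (δ, n) ∈ D m
  m1 : ∀ d Γ Γ' θ c, Γ ⊆ Γ' → (∀ j k, toLex (σ j, j) < toLex (σ k, k) → k ∈ Γ' → j ∈ Γ') →
    (∀ θ', (∀ k ∈ Γ, θ' k = θ k) → (M d Γ' θ' ↔ c)) → (M d Γ θ ↔ c)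
  m2 : ∀ d k θ, M d {j | toLex (σ j, j) < toLex (σ k, k)} θ ↔
    maj k fun i => M d {j | toLex (σ j, j) ≤ toLex (σ k, k)} (update θ k i)
  op : ∀ γ ∈ a, ∀ s β β' (L : ℕ), Over a β → Over a β' → IsOpen {θ | ∀ d : ℚ,
    (d : ℝ) ∈ Box (g · (W θ)) β' → (d : ℝ) ∈ Box (trunc γ s (W θ)) β ∧
      ∃ u : Finset ℕ, u.card ≤ L ∧ ∀ n, T γ (W θ) n d ≠ 0 → n ∈ u}

namespace Fam

variable {a : Set Nd} (f : Fam a)

def key (k : ℕ) : Nd ×ₗ ℕ := toLex (f.σ k, k)

/-- the stages determined by the coordinates in `Γ` -/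
def det (Γ : Set ℕ) : Set Nd := insert .base {δ ∈ a | ∀ k, f.σ k ≤ δ → k ∈ Γ}

def Res (z : ℝ) (Γ : Set ℕ) (θ : Th) : Prop :=
  ∃ β c m, Over (f.det Γ) β ∧ z ∈ Box (g · (f.W θ)) β ∧
    ∀ θ' : Th, (∀ k ∈ Γ, k < m → θ' k = θ k) →
      ∀ d : ℚ, (d : ℝ) ∈ Box (g · (f.W θ')) β → (f.M d Γ θ' ↔ c)

variable {f}

theorem key_lt {j k : ℕ} : f.key j < f.key k ↔ f.σ j < f.σ k ∨ f.σ j = f.σ k ∧ j < k :=
  Prod.Lex.toLex_lt_toLex

theorem key_ne {j k : ℕ} (h : f.key j < f.key k) : j ≠ k := fun e => lt_irrefl _ (e ▸ h)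

theorem key_lt_of {j k : ℕ} (h : f.key j ≤ f.key k) (e : j ≠ k) : f.key j < f.key k :=
  lt_of_le_of_ne h fun e' => e (congrArg (fun x => (ofLex x).2) e')

theorem box_eq {Γ : Set ℕ} {θ θ' : Th} (h : ∀ k ∈ Γ, θ k = θ' k) {β : Bx}
    (hβ : Over (f.det Γ) β) : Box (g · (f.W θ)) β = Box (g · (f.W θ')) β := by
  refine box_congr hβ ?_
  rintro ε (rfl | hε)
  · funext z; rw [g_base, g_base]
  · exact dep_g ε fun ε' h' => f.dep0 _ _ _ fun k hk => h k
      (hε.2 k (hk.trans (h'.elim le_of_eq fun h' => (lt_of_below h').le)))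

theorem Res.congr {z : ℝ} {Γ : Set ℕ} {θ θ' : Th} (h : f.Res z Γ θ) (e : ∀ k ∈ Γ, θ k = θ' k) :
    f.Res z Γ θ' :=
  let ⟨β, c, m, h1, h2, h3⟩ := h
  ⟨β, c, m, h1, box_eq e h1 ▸ h2, fun η h => h3 η fun k hk hm => (h k hk hm).trans (e k hk).symm⟩

theorem res_succ {z : ℝ} {k : ℕ} {θ : Th}
    (h : ∀ i, f.Res z {j | f.key j ≤ f.key k} (update θ k i)) :
    f.Res z {j | f.key j < f.key k} θ := by
  choose β c m h1 h2 h3 using h
  have hu : ∀ (η : Th) i, ∀ j ∈ {j | f.key j < f.key k}, update η k i j = η j := fun η i j hj =>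
    update_of_ne (key_ne hj) _ _
  have h4 : ∀ i, Over (f.det {j | f.key j < f.key k}) (β i) := fun i t ht =>
    (h1 i t ht).imp id fun h => ⟨h.1, fun j hj => key_lt_of (h.2 j hj) fun e => by
      subst e
      obtain ⟨j', a1, a2⟩ := f.inf _ (f.mem j) (j + 1)
      exact (key_lt.2 (Or.inr ⟨a2.symm, a1⟩)).not_ge (h.2 j' (a2 ▸ hj))⟩
  refine ⟨Finset.univ.biUnion β, maj k c, Finset.univ.sup m, fun t ht => ?_, fun t ht => ?_,
    fun θ' e d hd => (f.m2 d k θ').trans (iff_of_eq (congrArg (maj k) (funext fun i => propext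
      (h3 i _ (fun j hj hm => ?_) d ?_))))⟩
  · obtain ⟨i, -, hi⟩ := Finset.mem_biUnion.1 ht
    exact h4 i t hi
  · obtain ⟨i, -, hi⟩ := Finset.mem_biUnion.1 ht
    exact (box_eq (hu θ i) (h4 i) ▸ h2 i) t hi
  · by_cases hjk : j = k
    · subst hjk; simp
    · rw [update_of_ne hjk, update_of_ne hjk]
      exact e j (key_lt_of hj hjk)
        (hm.trans_le (Finset.le_sup (Finset.mem_univ i)))
  · rw [box_eq (hu θ' i) (h4 i)]
    exact fun t ht => hd t (Finset.mem_biUnion.2 ⟨i, Finset.mem_univ _, ht⟩)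

theorem res_lim (ha : Cl a) {z : ℝ} {Γ : Set ℕ} (hΓ : ∀ j k, f.key j < f.key k → k ∈ Γ → j ∈ Γ)
    (hne : Γ.Nonempty) {θ : Th} (h : f.Res z Γ θ) :
    ∃ k ∈ Γ, f.Res z {j | f.key j < f.key k} θ ∨ f.Res z {j | f.key j ≤ f.key k} θ := by
  classical
  obtain ⟨β, c, m, h1, h2, h3⟩ := h
  by_cases hA : ∃ k ∈ Γ, ∀ t ∈ β, t.1 ≠ .base → t.1 < f.σ k
  · obtain ⟨k, hk, hA⟩ := hA
    obtain ⟨k', a1, a2⟩ := Finset.exists_max_image
      (insert k ((Finset.range m).filter (· ∈ Γ))) f.key (Finset.insert_nonempty _ _)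
    have a3 : k' ∈ Γ := (Finset.mem_insert.1 a1).elim (· ▸ hk) fun h => (Finset.mem_filter.1 h).2
    have a4 : Over (f.det {j | f.key j ≤ f.key k'}) β := fun t ht => by
      by_cases e : t.1 = .base
      · exact Or.inl e
      · exact Or.inr ⟨((h1 t ht).resolve_left e).1, fun j hj => (key_lt.2 (Or.inl
          (hj.trans_lt (hA t ht e)))).le.trans (a2 k (Finset.mem_insert_self _ _))⟩
    refine ⟨k', a3, Or.inr ⟨β, c, m, a4, h2, fun θ' e d hd => f.m1 d _ Γ θ' c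
      (fun j hj => (eq_or_lt_of_le hj).elim (fun e => ?_) fun h => hΓ _ _ h a3) hΓ
      fun η e' => h3 η (fun j hj hm => ?_) d (box_eq e' a4 ▸ hd)⟩⟩
    · exact (show j = k' from congrArg (fun x => (ofLex x).2) e) ▸ a3
    · have := a2 j (Finset.mem_insert_of_mem (Finset.mem_filter.2 ⟨Finset.mem_range.2 hm, hj⟩))
      exact (e' j this).trans (e j this hm)
  push Not at hA
  obtain ⟨k₀, hk₀⟩ := hne
  obtain ⟨t₀, t1, t2, -⟩ := hA k₀ hk₀
  obtain ⟨⟨γ, pq⟩, g1, g2⟩ := Finset.exists_max_image β (·.1) ⟨t₀, t1⟩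
  have g3 : γ ≠ .base := fun e => t2 (le_antisymm (e ▸ g2 t₀ t1) (base_le _))
  obtain ⟨g4, g5⟩ : γ ∈ a ∧ ∀ k, f.σ k ≤ γ → k ∈ Γ := (h1 _ g1).resolve_left g3
  have g6 : ∀ k ∈ Γ, f.σ k ≤ γ := fun k hk => let ⟨t, b1, _, b3⟩ := hA k hk; b3.trans (g2 t b1)
  let a' := {δ ∈ a | δ < γ}
  have a1 : below γ ⊆ a' := fun ε hε => ⟨ha.sub _ g4 hε, lt_of_below hε⟩
  have a2 : ∀ ε ∈ a', below ε ⊆ a' := fun ε hε ε' h =>
    ⟨ha.sub _ hε.1 h, (lt_of_below h).trans hε.2⟩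
  have a3 : Over a β := fun t ht => (h1 t ht).elim (· ▸ ha.base) (·.1)
  have a4 : Over (insert γ a') β := fun t ht => (g2 t ht).eq_or_lt.imp id fun h => ⟨a3 t ht, h⟩
  obtain ⟨-, ⟨L, hL⟩, s₀, hs₀⟩ := T_spec γ (f.W θ) z
  choose m₀ hm₀ using f.exh γ g4
  obtain ⟨k, k1, k2⟩ := f.inf γ g4 (max (max m L) (s₀.sup m₀))
  let s := ((f.D k).filter (·.1 = γ)).image (·.2)
  have hs : ∀ n, n ∈ s ↔ (γ, n) ∈ f.D k := fun n => by simp [s]
  obtain ⟨β', ⟨b1, b2⟩, b3⟩ := ev_fl.1 ((ev_box (fun t ht => tendsto_trunc a1 (a4 t ht) s _ z)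
    ((mem_trunc g3 β fun n _ h => (hs n).2 (f.mono (((Finset.le_sup (hs₀ n h)).trans
      (le_max_right _ _)).trans k1) (hm₀ n))).2 h2)).and (hL.filter_mono (fl_mono _ a1 z)))
  obtain ⟨m₂, hm₂⟩ := exists_lt_of_open (f.op γ g4 s β β' L a3 (b1.mono (sep_subset _ _))) b3
  have c1 : ∀ j, f.σ j < γ → f.key j < f.key k := fun j h => key_lt.2 (Or.inl (k2 ▸ h))
  have c2 : ∀ j < k, f.σ j ≤ γ → f.key j < f.key k := fun j h h' =>
    h'.eq_or_lt.elim (fun e => key_lt.2 (Or.inr ⟨e.trans k2.symm, h⟩)) (c1 j)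
  have c3 : Over (f.det {j | f.key j < f.key k}) β' := fun t ht =>
    Or.inr ⟨(b1 t ht).1, fun j hj => c1 j (hj.trans_lt (b1 t ht).2)⟩
  refine ⟨k, g5 k k2.le, Or.inl ⟨β', c, max k m₂, c3, b2, fun θ' e d hd => ?_⟩⟩
  let θ₁ : Th := fun j => if f.key j < f.key k then θ' j else θ j
  have d1 : ∀ j ∈ {j | f.key j < f.key k}, θ₁ j = θ' j := fun j hj => if_pos hj
  obtain ⟨d2, u, u1, u2⟩ := hm₂ θ₁ (fun j hj => by
    by_cases h : f.key j < f.key k
    exacts [(d1 j h).trans (e j h (hj.trans_le (le_max_right _ _))), if_neg h]) d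
      (box_eq d1 c3 ▸ hd)
  let Bad : Fin (2 * k + 1) → ℕ → Prop := fun i n => n ∈ u ∧ (γ, n) ∉ f.D k ∧
    ∃ η : Th, η k = i ∧ f.W η γ n
  refine (f.m2 d k θ').trans (maj_iff (Finset.univ.filter fun i => ∃ n, Bad i n) ?_ fun i hi =>
    f.m1 d _ Γ _ c (fun j hj => g5 j ?_) hΓ fun η e' => ?_)
  · refine le_trans ?_ (u1.trans ((le_max_right _ _).trans ((le_max_left _ _).trans k1)))
    refine Finset.card_le_card_of_forall_subsingleton Bad (fun i hi => ?_) fun n _ i hi j hj => ?_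
    · obtain ⟨n, hn⟩ := (Finset.mem_filter.1 hi).2
      exact ⟨n, hn.1, hn⟩
    · obtain ⟨-, -, x1, η, rfl, x2⟩ := hi
      obtain ⟨-, -, -, η', rfl, x3⟩ := hj
      exact f.own k _ x1 η η' x2 x3 k2.le
  · exact k2 ▸ Prod.Lex.monotone_fst _ _ hj
  · have e1 : ∀ j, f.key j < f.key k → η j = θ₁ j := fun j hj => (e' j hj.le).trans
      ((update_of_ne (key_ne hj) _ _).trans (d1 j hj).symm)
    have e2 : ∀ ε ∈ a', f.W η ε = f.W θ₁ ε := fun ε hε =>
      f.dep0 _ _ _ fun j hj => e1 j (c1 j (hj.trans_lt hε.2))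
    refine h3 η (fun j hj hm => ?_) d ((mem_trunc (s := s) g3 β fun n x1 x2 => ?_).1 ?_)
    · have hjk : j < k := hm.trans_le ((le_max_left _ _).trans ((le_max_left _ _).trans k1))
      have := c2 j hjk (g6 j hj)
      exact ((e1 j this).trans (d1 j this)).trans (e j this (hjk.trans_le (le_max_left _ _)))
    · rw [dep_T γ fun ε hε => e2 ε (a1 hε)] at x2
      by_contra hn
      exact hi (Finset.mem_filter.2 ⟨Finset.mem_univ _, n, u2 n x2, (hs n).not.1 hn, η,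
        (e' k (le_refl (f.key k))).trans (update_self _ _ _), x1⟩)
    · rwa [box_congr a4 (trunc_congr a2 a1 e2 fun n hn =>
        f.dep1 k _ ((hs n).1 hn) _ _ fun j h h' => e1 j (c2 j h h'))]

theorem res_empty (ha : Cl a) {z : ℝ} (h : ∀ θ, f.Res z univ θ) (θ₀ : Th) : f.Res z ∅ θ₀ := by
  classical
  by_contra hn
  have wf : WellFounded fun j k => f.key j < f.key k := InvImage.wf f.key wellFounded_lt
  let pick : ∀ k, Th → Fin (2 * k + 1) := fun k η =>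
    if h : ∃ i, ¬ f.Res z {j | f.key j ≤ f.key k} (update η k i) then h.choose else 0
  let θ : Th := wf.fix fun k ih => pick k fun j => if h : f.key j < f.key k then ih j h else 0
  have h1 : ∀ k, f.Res z {j | f.key j ≤ f.key k} θ → f.Res z {j | f.key j < f.key k} θ := by
    intro k hk
    let η : Th := fun j => if f.key j < f.key k then θ j else 0
    have e : θ k = pick k η := by simp only [θ, η]; rw [wf.fix_eq]; rfl
    have e1 : ∀ j ∈ {j | f.key j < f.key k}, η j = θ j := fun j hj => if_pos hj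
    by_contra h2
    have h3 : ∃ i, ¬ f.Res z {j | f.key j ≤ f.key k} (update η k i) := by
      by_contra h4
      push Not at h4
      exact h2 ((res_succ h4).congr e1)
    refine h3.choose_spec (hk.congr fun j hj => ?_)
    by_cases hjk : j = k
    · subst hjk
      rw [update_self, e]
      exact dif_pos h3
    · rw [update_of_ne hjk]
      exact (e1 j (key_lt_of hj hjk)).symm
  have h2 : ∀ k, ¬ f.Res z {j | f.key j < f.key k} θ := by
    intro k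
    induction k using wf.induction with
    | _ k ih =>
      intro hk
      rcases eq_empty_or_nonempty {j | f.key j < f.key k} with e | hne
      · exact hn ((e ▸ hk).congr fun _ h => h.elim)
      · obtain ⟨j, hj, h⟩ := res_lim ha (fun _ _ => lt_trans) hne hk
        exact ih j hj (h.elim id (h1 j))
  obtain ⟨j, -, h⟩ := res_lim ha (fun _ _ _ _ => trivial) univ_nonempty (h θ)
  exact h2 j (h.elim id (h1 j))

end Fam

theorem conn {a : Set Nd} (ha : Cl a) {E : Ω → ℚ → Prop} (hE : ∀ d, Measurable fun ω => E ω d) :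
    ∃ x : Ω → ℝ, Measurable x ∧ ∀ᵇ ω, ∀ d₀ d₁, E ω d₀ → ¬ E ω d₁ →
      (∃ᶠ d in F a ω (x ω), E ω d) ∧ ∃ᶠ d in F a ω (x ω), ¬ E ω d := by
  classical
  let P : Ω → ℝ → Prop := fun ω z => (∃ᶠ d in F a ω z, E ω d) ∧ ∃ᶠ d in F a ω z, ¬ E ω d
  have hP : Measurable fun u : Ω × ℝ => P u.1 u.2 :=
    (meas_F ha.cnt measurable_fst measurable_snd _ fun d => ((hE d).comp measurable_fst).not).not.and
    (meas_F ha.cnt measurable_fst measurable_snd _ fun d =>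
      ((hE d).comp measurable_fst).not.not).not
  obtain ⟨x, hx, hu⟩ := unif' hP
  refine ⟨x, hx, eventually_countable_forall.2 fun d₀ => eventually_countable_forall.2 fun d₁ => ?_⟩
  by_contra hn
  obtain ⟨O, hO, hne, hZ⟩ := exists_open_ae (A := {ω | E ω d₀ ∧ ¬ E ω d₁ ∧ ¬ P ω (x ω)})
    ((hE d₀).and ((hE d₁).not.and (hP.comp (measurable_id.prodMk hx)).not)).setOf
    fun h => hn (h.mono fun ω h h1 h2 => by_contra fun h3 => h ⟨h1, h2, h3⟩)
  have := countable_over ha.cnt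
  have := ha.cnt.to_subtype
  obtain ⟨R₁, r1, s1⟩ := exists_decide (fun (u : {β // Over a β} × Prop) => {ω | ∀ d : ℚ,
      (d : ℝ) ∈ Box (g · ω) u.1 → (E ω d ↔ u.2)}) fun u => (Measurable.forall fun d =>
    (meas_Box measurable_id measurable_const _).imp ((hE d).iff measurable_const)).setOf
  obtain ⟨R₂, r2, s2⟩ := exists_decide (fun (u : ℚ × Prop) => {ω | E ω u.1 ↔ u.2})
    fun u => ((hE _).iff measurable_const).setOf
  obtain ⟨R₃, r3, s3⟩ := exists_decide (fun (u : a × Finset ℕ × {β // Over a β} ×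
      {β // Over a β} × ℕ) => {ω | ∀ d : ℚ, (d : ℝ) ∈ Box (g · ω) u.2.2.2.1 →
      (d : ℝ) ∈ Box (trunc u.1 u.2.1 ω) u.2.2.1 ∧ ∃ v : Finset ℕ, v.card ≤ u.2.2.2.2 ∧
        ∀ n, T u.1 ω n d ≠ 0 → n ∈ v}) fun u => (Measurable.forall fun d =>
    (meas_Box measurable_id measurable_const _).imp ((meas_trunc _ _ _ _).and
      (meas_small (fun n => meas_T' _ n _) _))).setOf
  obtain ⟨c, hc⟩ := ha.cnt.exists_eq_range ⟨_, ha.base⟩
  let σ : ℕ → Nd := fun k => c k.unpair.1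
  obtain ⟨W, D, w1, w2, w3, w4, w5, w6, w7⟩ := fusion (fun k δ => σ k ≤ δ)
    (fun m => (c m.unpair.1, m.unpair.2)) (((hZ.and hu).and r1).and (inter_mem r2 r3)) hO hne
  have hW : ∀ θ, E (W θ) d₀ ∧ ¬ E (W θ) d₁ ∧ ∀ z, ¬ P (W θ) z := fun θ =>
    have h := (w1 θ).2.1.1.1 (w1 θ).1
    ⟨h.1, h.2.1, fun z hz => h.2.2 ((w1 θ).2.1.1.2 z hz)⟩
  have hM := fun d : ℚ => (exists_lt_of_clopen (S := {θ | E (W θ) d})
    (by simpa using s2 W w2 (fun θ => (w1 θ).2.2.1) (d, True))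
    (by simpa [compl_ofPred] using s2 W w2 (fun θ => (w1 θ).2.2.1) (d, False))).elim fun m hm =>
    exists_maj (key := fun k => toLex (σ k, k))
      (fun _ _ e => congrArg (fun x => (ofLex x).2) e) hm
  choose M m0 m1 m2 using hM
  let f : Fam a := ⟨σ, W, D, M, fun k => hc ▸ mem_range_self _, fun δ hδ m => by
      obtain ⟨i, rfl⟩ : δ ∈ range c := hc ▸ hδ
      exact ⟨Nat.pair i m, Nat.right_le_pair _ _, by simp [σ]⟩, w3, w4, w5, w6, fun δ hδ n => by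
      obtain ⟨i, rfl⟩ : δ ∈ range c := hc ▸ hδ
      exact ⟨_, by simpa using w7 (Nat.pair i n)⟩, m1, m2, fun γ hγ s β β' L h h' =>
        s3 W w2 (fun θ => (w1 θ).2.2.2) (⟨γ, hγ⟩, s, ⟨β, h⟩, ⟨β', h'⟩, L)⟩
  have key : ∀ z : ℝ, ∃ c : Prop, ∀ᶠ y in 𝓝 z, ∀ d : ℚ, (d : ℝ) = y → (M d ∅ 0 ↔ c) := by
    intro z
    obtain ⟨β, c, m, h1, h2, h3⟩ := Fam.res_empty (f := f) (z := z) ha (fun θ => by
      obtain ⟨c, hc⟩ : ∃ c : Prop, ∀ᶠ d in F a (W θ) z, E (W θ) d ↔ c := by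
        rcases not_and_or.1 ((hW θ).2.2 z) with h | h
        · exact ⟨False, by simpa using h⟩
        · exact ⟨True, by simpa using h⟩
      obtain ⟨β, ⟨h1, h2⟩, h3⟩ := ev_fl.1 hc
      obtain ⟨m, hm⟩ := exists_lt_of_open (s1 W w2 (fun θ => (w1 θ).2.1.2) (⟨β, h1⟩, c)) h3
      exact ⟨β, c, m, fun t ht => Or.inr ⟨h1 t ht, fun _ _ => trivial⟩, h2, fun θ' e d hd =>
        (iff_of_eq (congrFun (m0 d) θ')).trans (hm θ' (fun k => e k trivial) d hd)⟩) 0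
    refine ⟨c, ev_base (ω := W 0) (ev_fl.2 ⟨β, ⟨fun t ht => (h1 t ht).elim id fun h => ?_, h2⟩,
      h3 0 fun _ _ _ => rfl⟩)⟩
    obtain ⟨k, -, hk⟩ := f.inf _ h.1 0
    exact (h.2 k hk.le).elim
  have hcl : IsClopen {z : ℝ | ∀ᶠ y in 𝓝 z, ∀ d : ℚ, (d : ℝ) = y → M d ∅ 0} := by
    refine ⟨⟨isOpen_iff_mem_nhds.2 fun z hz => ?_⟩, isOpen_setOfPred_eventually_nhds⟩
    obtain ⟨c, hc⟩ := key z
    have hc' : ¬ c := fun h => hz (hc.mono fun y hy d e => (hy d e).2 h)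
    filter_upwards [hc.eventually_nhds] with y hy h
    obtain ⟨d, h1, h2⟩ := Rat.denseRange_cast.mem_nhds (hy.and h)
    exact hc' ((h1 d rfl).1 (h2 d rfl))
  have e0 : M d₀ ∅ 0 := (m1 d₀ ∅ univ 0 True (empty_subset _) (fun _ _ _ _ => trivial)
    fun θ _ => iff_true_intro (m0 d₀ ▸ (hW θ).1)).2 trivial
  have e1 : ¬ M d₁ ∅ 0 := (m1 d₁ ∅ univ 0 False (empty_subset _) (fun _ _ _ _ => trivial)
    fun θ _ => iff_false_intro (m0 d₁ ▸ (hW θ).2.1)).1
  obtain ⟨c, hc⟩ := key d₀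
  have := hcl.eq_univ ⟨d₀, hc.mono fun y hy d e => (hy d e).2 ((hc.self_of_nhds d₀ rfl).1 e0)⟩
  exact e1 (Eventually.self_of_nhds (this ▸ mem_univ (d₁ : ℝ) :
    (d₁ : ℝ) ∈ {z : ℝ | ∀ᶠ y in 𝓝 z, ∀ d : ℚ, (d : ℝ) = y → M d ∅ 0}) d₁ rfl)

end Pool.Agent.Lib.MP_5ffd28_gt.Cohen
end
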