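import Pool.Agent.Lib.MP_5ffd28_gt.Cohen.Word

/-! No open continuous homomorphism of `A(X)` onto `A(S)` in the Cohen extension. -/

namespace Pool.Agent.Lib.MP_5ffd28_gt.Cohen

open Set Filter Topology MeasureTheory Pool.Agent.Shared.Forcing Pool.Agent.Lib.MP_23bd8d_gt

set_option synthInstance.maxSize 4000

variable {n : Nm} {U : Ultra BB} {φ : Ω → ℝ → ℝ} {w : MF → WW}

theorem Hyp.total (h : Hyp n U) (x : MF) : ∃ y z, Maps (EU U) (cls U n.i) (pt U x) y ∧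
    Maps (EU U) (cls U n.h) y z :=
  let ⟨y, a, b⟩ := h.fX.2.1.1.total (pt_mem x)
  let ⟨z, _, c⟩ := h.cts.1.total a
  ⟨y, z, b, c⟩

theorem sem_of {Ψ : Ultra BB → Prop} (hw : Words n w) (hφ : JM φ) (H : ∀ U, Ψ U → Hyp n U ∧
    ∃ Φ, Ex n U φ Φ ∧ Cts (EU U) Φ (cls U n.H) (cls U n.TH) (RR U) (TR U)) {A : Ω → Prop}
    (h1 : Measurable A) (h2 : ∀ U, Ae U A → Ψ U) : Sem (fun x => (w x).1) {ω | A ω} φ := by
  intro x
  let P : ℚ × ℚ → Bx → Ω → Prop := fun u β ω => x.1 ω ∈ Box (g · ω) β ∧ ∀ d : ℚ,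
    (d : ℝ) ∈ Box (g · ω) β → u.1 < (evw hφ (w (cst d))).1 ω ∧ (evw hφ (w (cst d))).1 ω < u.2
  have m1 : ∀ (u : ℚ × ℚ) β (d : ℚ), Measurable fun ω => (d : ℝ) ∈ Box (g · ω) β →
      u.1 < (evw hφ (w (cst d))).1 ω ∧ (evw hφ (w (cst d))).1 ω < u.2 := fun u β d =>
    (meas_Box measurable_id measurable_const β).imp
      ((measurable_const.lt (evw hφ _).2).and ((evw hφ _).2.lt measurable_const))
  have key : ∀ (u : ℚ × ℚ) U, (Ae U fun ω => A ω ∧ u.1 < (evw hφ (w x)).1 ω ∧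
      (evw hφ (w x)).1 ω < u.2) → ⨆ β, tv (P u β) ∈ U := by
    intro u U hU
    obtain ⟨h, Φ, a1, a2⟩ := H U (h2 U (hU.mono fun _ h => h.1))
    obtain ⟨y, z, b1, b2⟩ := h.total x
    obtain ⟨V, v1, v2⟩ := (subTop_TR (U := U)).iv (cst u.1) (cst u.2)
    obtain ⟨W₁, c1, c2, c3⟩ := a2.pt (hw x U h φ hφ Φ y z a1 b1 b2) v1 ((v2 _).2 ⟨pt_mem _,
      lt_pt.2 (hU.mono fun _ h => h.2.1), lt_pt.2 (hU.mono fun _ h => h.2.2)⟩)
    obtain ⟨W₂, d1, d2, d3⟩ := h.cts.pt b2 c1 c2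
    obtain ⟨W, e1, e2, e3⟩ := h.fX.2.1.pt b1 d1 d2
    obtain ⟨W, rfl⟩ := cls_surj W
    obtain ⟨Φ, rfl⟩ := cls_surj Φ
    have h3 : Hyp n U ∧ Ex n U φ (cls U Φ) ∧ ∀ x' y' z' t, EU U x' (cls U W) →
        Maps (EU U) (cls U n.i) x' y' → Maps (EU U) (cls U n.h) y' z' → Maps (EU U) (cls U Φ) z' t →
        Maps (EU U) (LL U) (pt U (cst u.1)) t ∧ Maps (EU U) (LL U) t (pt U (cst u.2)) :=
      ⟨h, a1, fun _ _ _ _ a b c d => ((v2 _).1 (c3 _ _ (d3 _ _ (e3 _ _ a b) c) d)).2⟩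
    revert h3
    refine wlog_T W _ U e1 e2 ?_
    intro U β f1 f2 h3
    refine iSup_mem_of_mem β ((el_bx.1 f1).and (Ae.forall (Φ := fun U =>
      Sub (EU U) (sm U (bx β)) (cls U W) ∧ Hyp n U ∧ Ex n U φ (cls U Φ) ∧ ∀ x' y' z' t,
        EU U x' (cls U W) → Maps (EU U) (cls U n.i) x' y' → Maps (EU U) (cls U n.h) y' z' →
        Maps (EU U) (cls U Φ) z' t → Maps (EU U) (LL U) (pt U (cst u.1)) t ∧
        Maps (EU U) (LL U) t (pt U (cst u.2))) (m1 u β) ?_ ⟨f2, h3⟩))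
    rintro d U ⟨f2, h, a1, a2⟩
    by_cases hd : Ae U fun ω => (d : ℝ) ∈ Box (g · ω) β
    · obtain ⟨y, z, b1, b2⟩ := h.total (cst d)
      have := a2 _ y z _ (f2 _ (el_bx.2 hd)) b1 b2 (hw _ U h φ hφ _ y z a1 b1 b2)
      exact ((lt_pt.1 this.1).and (lt_pt.1 this.2)).mono fun _ h _ => h
    · exact (Ae.of_not (meas_Box measurable_id measurable_const β) hd).mono fun _ h h' => absurd h' h
  choose s s1 s2 using fun u => exists_countable_sup fun β => tv (P u β)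
  refine ⟨⋃ u, ⋃ β ∈ s u, (·.1) '' (β : Set (Nd × ℚ × ℚ)), countable_iUnion fun u =>
    (s1 u).biUnion fun β _ => (β.finite_toSet.image _).countable, ?_⟩
  have k2 : ∀ u : ℚ × ℚ, ∀ᵇ ω, (A ω ∧ u.1 < (evw hφ (w x)).1 ω ∧ (evw hφ (w x)).1 ω < u.2) →
      ∃ β : s u, P u β ω := fun u => by
    have := (s1 u).to_subtype
    exact ae_of_forall (h1.and ((measurable_const.lt (evw hφ _).2).and
      ((evw hφ _).2.lt measurable_const))) (Measurable.exists fun β =>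
        (meas_Box measurable_id x.2 _).and (Measurable.forall (m1 u β))) fun U hU =>
      Ultra.mono (key u U hU) ((s2 u).trans (iSup_le fun β =>
        tv_mono (Eventually.of_forall fun ω h => ⟨β, h⟩)))
  filter_upwards [eventually_countable_forall.2 k2] with ω h hω
  rw [(nhds_basis_Ioo _).tendsto_right_iff]
  rintro ⟨u, v⟩ ⟨h3, h4⟩
  obtain ⟨p, a1, a2⟩ := exists_rat_btwn h3
  obtain ⟨q, b1, b2⟩ := exists_rat_btwn h4
  obtain ⟨β, c1, c2⟩ := h (p, q) ⟨hω, a2, b1⟩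
  exact ev_fl.2 ⟨β, ⟨fun t ht => mem_iUnion.2 ⟨_, mem_biUnion β.2 (mem_image_of_mem _ ht)⟩, c1⟩,
    fun d hd => ⟨a1.trans (c2 d hd).1, (c2 d hd).2.trans b2⟩⟩

theorem Hyp.agree (h : Hyp n U) {P Q : MU U} (p1 : IsFn (EU U) P (cls U n.G) (RR U))
    (p2 : Additive (EU U) P (cls U n.A) (AA U)) (q1 : IsFn (EU U) Q (cls U n.G) (RR U))
    (q2 : Additive (EU U) Q (cls U n.A) (AA U))
    (H : ∀ x y t, Maps (EU U) (cls U n.i) (pt U x) y → Maps (EU U) P y t → Maps (EU U) Q y t)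
    {y t : MU U} (a : Maps (EU U) P y t) : Maps (EU U) Q y t := by
  obtain ⟨P, rfl⟩ := cls_surj P
  obtain ⟨Q, rfl⟩ := cls_surj Q
  obtain ⟨K, hK⟩ := md_sep (fun U y => ∀ t, Maps (EU U) (cls U P) y t → Maps (EU U) (cls U Q) y t)
    U (cls U n.G)
  have h1 : ∀ x y, Maps (EU U) (cls U n.i) x y → EU U y K := fun x y b => by
    obtain ⟨x, rfl⟩ := real_cases (h.fX.2.1.1.mem b).1
    exact (hK y).2 ⟨(h.fX.2.1.1.mem b).2, fun t => H x y t b⟩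
  refine ((hK y).1 (h.fX.2.2.1 K (fun y hy => ((hK y).1 hy).1) ?_
    (fun x y z hx hy hz e => (hK z).2 ⟨hz, fun t b => ?_⟩) h1 y (p1.mem a).1)).2 t a
  · obtain ⟨y, -, b, -⟩ := h.total (cst 0)
    exact ⟨y, h1 _ y b⟩
  · obtain ⟨x', x1, x2⟩ := p1.total ((hK x).1 hx).1
    obtain ⟨y', y1, y2⟩ := p1.total ((hK y).1 hy).1
    obtain ⟨t', t1, t2⟩ := q1.total hz
    obtain ⟨x', rfl⟩ := real_cases x1
    obtain ⟨y', rfl⟩ := real_cases y1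
    obtain ⟨t', rfl⟩ := real_cases t1
    obtain ⟨t, rfl⟩ := real_cases (p1.mem b).2
    exact pt_eq.2 (((op_ae.1 (q2 _ _ _ _ _ _ e t2 (((hK y).1 hy).2 _ y2) (((hK x).1 hx).2 _ x2))).and
      (op_ae.1 (p2 _ _ _ _ _ _ e b y2 x2))).mono fun _ h => add_right_cancel (h.1.symm.trans h.2)) ▸ t2

theorem Hyp.comp (h : Hyp n U) {Φ : MU U} (hΦ : Ex n U φ Φ) :
    ∃ P, IsFn (EU U) P (cls U n.G) (RR U) ∧ Additive (EU U) P (cls U n.A) (AA U) ∧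
      ∀ y t, Maps (EU U) P y t ↔ ∃ z, Maps (EU U) (cls U n.h) y z ∧ Maps (EU U) Φ z t := by
  obtain ⟨Φ, rfl⟩ := cls_surj Φ
  obtain ⟨P, h1, h2⟩ := md_rel tame (fun U y t => ∃ z, Maps (EU U) (cls U n.h) y z ∧
    Maps (EU U) (cls U Φ) z t) U (cls U n.G) (RR U)
  have h3 : ∀ y t, Maps (EU U) P y t ↔ ∃ z, Maps (EU U) (cls U n.h) y z ∧
      Maps (EU U) (cls U Φ) z t := fun y t => (h2 y t).trans
    ⟨fun h => h.2.2, fun ⟨z, a, b⟩ => ⟨(h.cts.1.mem a).1, (hΦ.1.mem b).2, z, a, b⟩⟩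
  refine ⟨P, ⟨h1, fun y hy => ?_⟩, fun x y z x' y' z' e a b c => ?_, h3⟩
  · obtain ⟨z, a, b⟩ := h.cts.1.total hy
    obtain ⟨t, -, c⟩ := hΦ.1.total a
    refine ⟨t, (h3 y t).2 ⟨z, b, c⟩, fun t' e => ?_⟩
    obtain ⟨z', d, e⟩ := (h3 y t').1 e
    exact hΦ.1.uniq (h.cts.1.uniq d b ▸ e) c
  · obtain ⟨_, a1, a2⟩ := (h3 _ _).1 a
    obtain ⟨_, b1, b2⟩ := (h3 _ _).1 b
    obtain ⟨_, c1, c2⟩ := (h3 _ _).1 c
    exact hΦ.2.1 _ _ _ _ _ _ (h.add _ _ _ _ _ _ e a1 b1 c1) a2 b2 c2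

theorem Hyp.eq_on (h : Hyp n U) (hw : Words n w) (hφ : JM φ) {ψ : Ω → ℝ → ℝ} (hψ : JM ψ)
    (H : ∀ x, Ae U fun ω => ev (φ ω) ((w x).1 ω) = ev (ψ ω) ((w x).1 ω)) {s : MF}
    (hs : EU U (pt U s) (cls U n.S)) : Ae U fun ω => φ ω (s.1 ω) = ψ ω (s.1 ω) := by
  obtain ⟨Φ, hΦ⟩ := h.ex_alg hφ
  obtain ⟨Ψ, hΨ⟩ := h.ex_alg hψ
  obtain ⟨P, p1, p2, p3⟩ := h.comp hΦ
  obtain ⟨Q, q1, q2, q3⟩ := h.comp hΨ
  obtain ⟨z, a, b⟩ := h.fS.2.1.1.total hs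
  obtain ⟨y, c⟩ := h.surj z a
  obtain ⟨z', d, e⟩ := (q3 _ _).1 (h.agree p1 p2 q1 q2 (fun x y t a b => by
    obtain ⟨z, c, d⟩ := (p3 _ _).1 b
    rw [hΦ.1.uniq d (hw x U h φ hφ Φ y z hΦ a c), (pt_eq.2 (H x) : _ = pt U (evw hψ (w x)))]
    exact (q3 _ _).2 ⟨z, c, hw x U h ψ hψ Ψ y z hΨ a c⟩)
    ((p3 _ _).2 ⟨z, c, hΦ.2.2 _ _ _ b ((maps_fnHat hφ).2 rfl)⟩))
  exact pt_eq.1 (hΨ.1.uniq (h.cts.1.uniq d c ▸ e) (hΨ.2.2 _ _ _ b ((maps_fnHat hψ).2 rfl)))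

theorem Hyp.no_gap (h : Hyp n U) {s s' t : MF} (h1 : EU U (pt U s) (cls U n.S))
    (h2 : EU U (pt U s') (cls U n.S)) (h3 : Ae U fun ω => s.1 ω < t.1 ω ∧ t.1 ω < s'.1 ω) :
    EU U (pt U t) (cls U n.S) := by
  by_contra h4
  obtain ⟨w, hw⟩ := exists_words n
  obtain ⟨A, a1, a2⟩ := exists_dec fun U => Hyp n U ∧ ¬ EU U (pt U t) (cls U n.S)
  have key : ∀ φ : Ω → ℝ → ℝ, JM φ → (∀ ω s, ∃ k : ℤ, φ ω s = k) →
      (∀ ω s, s ≠ t.1 ω → ContinuousAt (φ ω) s) → ∀ x, Ae U fun ω =>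
        ev (φ ω) ((w x).1 ω) = ev (φ ω) ((w (cst 0)).1 ω) := fun φ hφ b1 b2 x =>
    ((a2 U).2 ⟨h, h4⟩).mono' (const (fun x => (w x).2) hφ b1 (sem_of hw hφ (fun U hU => ⟨hU.1,
      ex_cts hφ (fun U hU => ⟨hU.1, fun x hx => (Ae.of_not (x.2.eq t.2) fun e =>
        hU.2 (pt_eq.2 e ▸ hx)).mono fun ω h => b2 ω _ h⟩) hU⟩) a1 fun U => (a2 U).1) x)
  let φ₁ : Ω → ℝ → ℝ := fun ω s => if s < t.1 ω then 1 else 0
  let φ₂ : Ω → ℝ → ℝ := fun ω s => if t.1 ω < s then 1 else 0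
  have j1 : JM φ₁ := Measurable.ite (measurable_snd.lt (t.2.comp measurable_fst)).setOf
    measurable_const measurable_const
  have j2 : JM φ₂ := Measurable.ite ((t.2.comp measurable_fst).lt measurable_snd).setOf
    measurable_const measurable_const
  have k1 := key φ₁ j1 (fun ω s => by simp only [φ₁]; split_ifs; exacts [⟨1, by simp⟩, ⟨0, by simp⟩])
    fun ω s hs => by
      rcases lt_or_gt_of_ne hs with h | h
      · exact (continuousAt_const (y := 1)).congr ((gt_mem_nhds h).mono fun _ h => (if_pos h).symm)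
      · exact (continuousAt_const (y := 0)).congr
          ((lt_mem_nhds h).mono fun _ h => (if_neg h.not_gt).symm)
  have k2 := key φ₂ j2 (fun ω s => by simp only [φ₂]; split_ifs; exacts [⟨1, by simp⟩, ⟨0, by simp⟩])
    fun ω s hs => by
      rcases lt_or_gt_of_ne hs with h | h
      · exact (continuousAt_const (y := 0)).congr
          ((gt_mem_nhds h).mono fun _ h => (if_neg h.not_gt).symm)
      · exact (continuousAt_const (y := 1)).congr ((lt_mem_nhds h).mono fun _ h => (if_pos h).symm)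
  have k3 := h.eq_on hw (φ := fun ω s => ev (φ₂ ω) ((w (cst 0)).1 ω) * φ₁ ω s)
    ((((w _).2.meas _ j2).comp measurable_fst).mul j1)
    (ψ := fun ω s => ev (φ₁ ω) ((w (cst 0)).1 ω) * φ₂ ω s)
    ((((w _).2.meas _ j1).comp measurable_fst).mul j2) (fun x => ((k1 x).and (k2 x)).mono
      fun ω h => by rw [ev_mul, ev_mul, h.1, h.2, mul_comm]) h2
  have k4 := h.eq_on hw j1 (ψ := fun _ _ => 0) measurable_const (fun x =>
    ((k1 x).and (k3.and h3)).mono fun ω h => by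
      have := h.2.1
      simp only [φ₁, φ₂, if_pos h.2.2.2, if_neg h.2.2.2.not_gt, mul_zero, mul_one] at this
      rw [h.1, ← this, ev_eq]
      simp) h1
  exact (k4.and h3).elim fun ω h => by simpa [φ₁, h.2.1] using h.1

theorem Hyp.no_interval (h : Hyp n U) {s s' : MF} {u : ℚ}
    (h1 : Ae U fun ω => s.1 ω < u ∧ u < s'.1 ω) (h2 : ∀ z, EU U z (RR U) →
      Maps (EU U) (LL U) (pt U s) z → Maps (EU U) (LL U) z (pt U s') → EU U z (cls U n.S)) :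
    False := by
  obtain ⟨w, hw⟩ := exists_words n
  obtain ⟨A, a1, a2⟩ := exists_dec (Hyp n)
  obtain ⟨δ, hδ⟩ := kill (fun x => (w x).2) (fun φ hφ hc => sem_of hw hφ (fun U hU => ⟨hU,
    ex_cts hφ (fun U hU => ⟨hU, fun x _ => Ae.of_all fun ω => (hc ω).continuousAt⟩) hU⟩) a1
      fun U => (a2 U).1) u
  have hφ : JM fun ω => phi (ω δ) u := Measurable.liminf fun N => meas_psum (by fun_prop)
    (fun k => (continuous_tent k).measurable.comp (measurable_snd.sub_const _)) _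
  obtain ⟨Φ, hΦ⟩ := h.ex_alg hφ
  obtain ⟨P, p1, p2, p3⟩ := h.comp hΦ
  obtain ⟨Q, q1, q2, q3⟩ := h.fX.2.2.2 _ _ _ _ topAb_TR (cts_T (meas_g δ) (countable_singleton δ)
    fun ω z => tendsto_nb (G := (g · ω)) (mem_singleton δ) z)
  have e : ∀ {y z t}, Maps (EU U) (cls U n.h) y z → Maps (EU U) Φ z t → Maps (EU U) Q y t :=
    fun a b => h.agree p1 p2 q1.1 q2 (fun x y t a b => by
      obtain ⟨z, c, d⟩ := (p3 _ _).1 b
      rw [hΦ.1.uniq d (hw x U h _ hφ Φ y z hΦ a c)]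
      exact q3 _ _ _ a ((maps_fnHat (meas_g δ)).2 (pt_eq.2 (((a2 U).2 h).mono'
        ((hδ x).mono fun ω h hω => (h hω).symm))))) ((p3 _ _).2 ⟨_, a, b⟩)
  obtain ⟨z, z1, z2⟩ := h.fS.2.1.1.total (h2 _ (pt_mem (cst u)) (lt_pt.2 (h1.mono fun _ h => h.1))
    (lt_pt.2 (h1.mono fun _ h => h.2)))
  obtain ⟨y, y1⟩ := h.surj z z1
  obtain ⟨V, v1, v2⟩ := (subTop_TR (U := U)).iv (cst (-1)) (cst 1)
  obtain ⟨W, w1, w2, w3⟩ := q1.pt (e y1 (hΦ.2.2 _ _ _ z2 ((maps_fnHat hφ).2 rfl))) v1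
    ((v2 _).2 ⟨pt_mem _, lt_pt.2 (Ae.of_all fun _ => by simp [app, cst, phi_self]),
      lt_pt.2 (Ae.of_all fun _ => by simp [app, cst, phi_self])⟩)
  obtain ⟨W, rfl⟩ := cls_surj W
  obtain ⟨W', hW⟩ := md_sep (fun U y => ∃ x, EU U x (cls U W) ∧ Maps (EU U) (cls U n.h) x y) U
    (cls U n.H)
  obtain ⟨V', b1, b2, b3⟩ := h.fS.2.1.pt z2 (h.op _ W' w1 fun y => (hW y).trans
    ⟨And.right, fun ⟨x, a, b⟩ => ⟨(h.cts.1.mem b).2, x, a, b⟩⟩) ((hW z).2 ⟨z1, y, w2, y1⟩)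
  obtain ⟨a, b, c1, c2⟩ := h.top.use b1 b2
  have h3 : ∀ x t, EU U x (RR U) → Maps (EU U) (LL U) (pt U (cst u)) x →
      Maps (EU U) (LL U) x (pt U ⟨_, b.2.min s'.2⟩) →
      Maps (EU U) (sm U (fnHat fun ω => phi (ω δ) u)) x t → Maps (EU U) (LL U) t (pt U (cst 1)) := by
    intro x t d1 d2 d3 d4
    obtain ⟨x, rfl⟩ := real_cases d1
    rw [lt_pt] at d2 d3
    have d5 := h2 _ d1 (lt_pt.2 ((h1.and d2).mono fun _ h => h.1.1.trans h.2))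
      (lt_pt.2 (d3.mono fun _ h => (lt_min_iff.1 h).2))
    obtain ⟨z', -, f1⟩ := h.fS.2.1.1.total d5
    obtain ⟨-, y', f2, f3⟩ := (hW z').1 (b3 _ _ (c2 _ d5
      (lt_pt.2 ((c1.and d2).mono fun _ h => h.1.1.trans h.2))
      (lt_pt.2 (d3.mono fun _ h => (lt_min_iff.1 h).1))) f1)
    exact ((v2 _).1 (w3 _ _ f2 (e f3 (hΦ.2.2 _ _ _ f1 d4)))).2.2
  revert h3
  refine wlog_ex (P := fun (k : ℕ) ω => ω δ k = true ∧ u + 3 / 2 ^ (k + 2) < min (b.1 ω) (s'.1 ω))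
    (fun k => (Measurable.eq_const (by fun_prop) true).and (measurable_const.lt (b.2.min s'.2))) U
    ((c1.and h1).mono' ((ae_inf δ).mono fun ω h4 h5 => ?_)) ?_
  · have h6 : Tendsto (fun k : ℕ => (u : ℝ) + 3 / 2 ^ (k + 2)) atTop (𝓝 (u + 0)) :=
      tendsto_const_nhds.add (tendsto_const_nhds.div_atTop
        ((tendsto_pow_atTop_atTop_of_one_lt one_lt_two).comp (tendsto_add_atTop_nat 2)))
    obtain ⟨N, hN⟩ := eventually_atTop.1 (h6.eventually_lt_const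
      ((add_zero _).trans_lt (lt_min h5.1.2 h5.2.2)))
    exact (h4 N).imp fun k hk => ⟨hk.2, hN k hk.1⟩
  · intro U k hk h3
    exact (hk.and (lt_pt.1 (h3 _ _ (pt_mem (cst (u + 3 / 2 ^ (k + 2))))
      (lt_pt.2 (Ae.of_all fun _ => lt_add_of_pos_right _ (by positivity)))
      (lt_pt.2 (hk.mono fun _ h => h.2)) ((maps_fnHat hφ).2 rfl)))).elim fun ω h =>
        lt_irrefl _ ((phi_peak h.1.1 u).symm.trans_lt h.2)

theorem not_hyp (n : Nm) (U : Ultra BB) : ¬ Hyp n U := by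
  have key : ∀ (s s' : MF), Hyp n U → EU U (pt U s) (cls U n.S) → EU U (pt U s') (cls U n.S) →
      ¬ Ae U fun ω => s.1 ω < s'.1 ω := by
    intro s s' h h1 h2 h3
    have h4 : Hyp n U ∧ ∀ z, EU U z (RR U) → Maps (EU U) (LL U) (pt U s) z →
        Maps (EU U) (LL U) z (pt U s') → EU U z (cls U n.S) := ⟨h, fun z a b c => by
      obtain ⟨z, rfl⟩ := real_cases a
      exact h.no_gap h1 h2 ((lt_pt.1 b).and (lt_pt.1 c))⟩
    revert h4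
    refine wlog_btw s.2 s'.2 U h3 ?_
    exact fun U u hu h => h.1.no_interval hu h.2
  intro h
  obtain ⟨s, t, h1, h2, h3⟩ := h.two
  obtain ⟨s, rfl⟩ := real_cases (h.sub s h1)
  obtain ⟨t, rfl⟩ := real_cases (h.sub t h2)
  rcases isReal_RR.2.2.1 _ _ (pt_mem s) (pt_mem t) with e | e | e
  exacts [key s t h h1 h2 (lt_pt.1 e), h3 e, key t s h h2 h1 (lt_pt.1 e)]

theorem model : ∃ (M : Type 2) (E : M → M → Prop), ModelZFC E ∧ ∃ w R L O X T : M,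
    IsOmega E w ∧ IsReal E w R L ∧ SubTop E R L R O ∧ IsTop E X T ∧ Tychonoff E X T R O ∧
    Inj E w X ∧ ∀ S TS G A TG i H B TH j h, Sub E S R → (∃ s t, E s S ∧ E t S ∧ s ≠ t) →
      SubTop E R L S TS → Free E X T G A TG i → Free E S TS H B TH j → Cts E h G TG H TH →
      Additive E h A B → (∀ y, E y H → ∃ x, Maps E h x y) → ¬ OpenMap E h TG TH := by
  obtain ⟨U, -⟩ := Ultra.exists_mem (RO.io_ne_bot (⟨univ, isOpen_univ, univ_nonempty⟩ : Cond))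
  refine ⟨MU U, EU U, md_modelZFC tame U, _, _, _, _, _, _, isOmega_ck U, isReal_RR, subTop_TR,
    isTop_T, tychonoff_T, inj_om, fun S TS G A TG i H B TH j h a b c d e f g k m => ?_⟩
  obtain ⟨S, rfl⟩ := cls_surj S
  obtain ⟨TS, rfl⟩ := cls_surj TS
  obtain ⟨G, rfl⟩ := cls_surj G
  obtain ⟨A, rfl⟩ := cls_surj A
  obtain ⟨TG, rfl⟩ := cls_surj TG
  obtain ⟨i, rfl⟩ := cls_surj i
  obtain ⟨H, rfl⟩ := cls_surj H
  obtain ⟨B, rfl⟩ := cls_surj B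
  obtain ⟨TH, rfl⟩ := cls_surj TH
  obtain ⟨j, rfl⟩ := cls_surj j
  obtain ⟨h, rfl⟩ := cls_surj h
  exact not_hyp ⟨S, TS, G, A, TG, i, H, B, TH, j, h⟩ U ⟨a, b, c, d, e, f, g, k, m⟩

end Pool.Agent.Lib.MP_5ffd28_gt.Cohen
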