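import Pool.Agent.Lib.MP_5ffd28_gt.Cohen.Conn

/-! Words, tents, and the two properties of the generic topology used against quotients. -/

namespace Pool.Agent.Lib.MP_5ffd28_gt.Cohen

open Set Filter Topology MeasureTheory

/-- the value of the homomorphism extending `φ` at the word `μ` -/
noncomputable def ev (φ : ℝ → ℝ) : (ℝ →₀ ℤ) →ₗ[ℤ] ℝ := Finsupp.linearCombination ℤ φ

theorem ev_eq (φ : ℝ → ℝ) (μ : ℝ →₀ ℤ) : ev φ μ = ∑ s ∈ μ.support, μ s * φ s := by
  simp [ev, Finsupp.linearCombination_apply, Finsupp.sum]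

theorem ev_single (φ : ℝ → ℝ) (s : ℝ) : ev φ (Finsupp.single s 1) = φ s := by simp [ev]

theorem ev_mul (c : ℝ) (φ : ℝ → ℝ) (μ : ℝ →₀ ℤ) : ev (fun s => c * φ s) μ = c * ev φ μ := by
  simp [ev_eq, Finset.mul_sum, mul_left_comm]

theorem exists_of_ev_ne {φ : ℝ → ℝ} {μ : ℝ →₀ ℤ} (h : ev φ μ ≠ 0) : ∃ s ∈ μ.support, φ s ≠ 0 :=
  let ⟨s, h1, h2⟩ := Finset.exists_ne_zero_of_sum_ne_zero (ev_eq φ μ ▸ h)
  ⟨s, h1, right_ne_zero_of_mul h2⟩

noncomputable def tent (n : ℕ) (s : ℝ) : ℝ := max 0 (1 - |2 ^ (n + 2) * s - 3|)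

theorem continuous_tent (n : ℕ) : Continuous (tent n) := by unfold tent; fun_prop

theorem tent_ne {n : ℕ} {s : ℝ} (h : tent n s ≠ 0) : 2 < 2 ^ (n + 2) * s ∧ 2 ^ (n + 2) * s < 4 := by
  have : |2 ^ (n + 2) * s - 3| < 1 := by
    by_contra hn
    exact h (max_eq_left (by linarith))
  rw [abs_lt] at this
  constructor <;> linarith

theorem tent_mem {n : ℕ} {s : ℝ} (h : tent n s ≠ 0) : 0 < s ∧ s < 1 := by
  obtain ⟨h1, h2⟩ := tent_ne h
  have h3 : (1 : ℝ) ≤ 2 ^ n := one_le_pow₀ one_le_two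
  rw [pow_add] at h1 h2
  constructor <;> nlinarith

theorem tent_uniq {n m : ℕ} {s : ℝ} (h : tent n s ≠ 0) (h' : tent m s ≠ 0) : n = m := by
  wlog hl : n < m generalizing n m
  · exact (not_lt.1 hl).eq_or_lt.elim Eq.symm fun hl => (this h' h hl).symm
  have h1 : (2 : ℝ) ^ (n + 2 + 1) ≤ 2 ^ (m + 2) := pow_le_pow_right₀ one_le_two (by omega)
  rw [pow_succ] at h1
  nlinarith [(tent_ne h).1, (tent_ne h').2, (tent_mem h).1]

theorem exists_tent (s : ℝ) : ∃ n, ∀ m, tent m s ≠ 0 → m = n := by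
  by_cases h : ∃ n, tent n s ≠ 0
  · exact h.imp fun n hn m hm => tent_uniq hm hn
  · exact ⟨0, fun m hm => absurd ⟨m, hm⟩ h⟩

/-- the sum of the tents indexed by `A`, translated by `u` -/
noncomputable def phi (A : ℕ → Bool) (u s : ℝ) : ℝ := gsum A fun n => tent n (s - u)

theorem ev_phi (A : ℕ → Bool) (u : ℝ) (μ : ℝ →₀ ℤ) :
    ev (phi A u) μ = gsum A fun n => ev (fun s => tent n (s - u)) μ := by
  choose i hi using exists_tent
  rw [gsum_eq (s := μ.support.image fun s => i (s - u)) fun n _ h => ?_]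
  · simp only [psum, ev_eq]
    rw [Finset.sum_congr rfl fun s hs => by rw [phi, gsum_eq (s := μ.support.image fun s =>
      i (s - u)) fun n _ h => Finset.mem_image.2 ⟨s, hs, (hi _ n h).symm⟩]]
    simp only [psum, Finset.mul_sum]
    rw [Finset.sum_comm]
    exact Finset.sum_congr rfl fun n _ => by split_ifs <;> simp
  · obtain ⟨s, h1, h2⟩ := exists_of_ev_ne h
    exact Finset.mem_image.2 ⟨s, h1, (hi _ n h2).symm⟩

theorem phi_self (A : ℕ → Bool) (u : ℝ) : phi A u u = 0 := by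
  rw [phi, gsum_eq (s := ∅) fun n _ h => absurd (tent_mem h).1 (by simp)]; rfl

theorem phi_peak {A : ℕ → Bool} {n : ℕ} (h : A n) (u : ℝ) : phi A u (u + 3 / 2 ^ (n + 2)) = 1 := by
  have e : tent n (u + 3 / 2 ^ (n + 2) - u) = 1 := by
    rw [add_sub_cancel_left, tent, mul_div_cancel₀ _ (by positivity)]; simp
  rw [phi, gsum_eq (s := {n}) fun m _ h => Finset.mem_singleton.2 (tent_uniq h (e.symm ▸ one_ne_zero))]
  simp only [psum, Finset.sum_singleton, h, if_true, e]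

theorem ae_inf (δ : Nd) : ∀ᵇ ω : Ω, ∀ N, ∃ n, N ≤ n ∧ ω δ n :=
  eventually_countable_forall.2 fun N => ae_of_sections δ
    (Measurable.exists fun n => measurable_const.and (Measurable.eq_const (by fun_prop) true)).setOf
    fun _ => ae_of_cyl fun A M => ⟨Function.update A (max N M) true,
      PiNat.cylinder_anti _ (le_max_right N M) (PiNat.update_mem_cylinder _ _ _), max N M + 1,
      fun A' h => ⟨max N M, le_max_left _ _, by simpa using h _ (Nat.lt_succ_self _)⟩⟩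

/-- test functions -/
noncomputable def tst (ψ : C(unitInterval, ℝ)) (u s : ℝ) : ℝ := ψ (projIcc 0 1 zero_le_one (s - u))

theorem continuous_tst (u : ℝ) : Continuous fun x : C(unitInterval, ℝ) × ℝ => tst x.1 u x.2 :=
  continuous_eval.comp (continuous_fst.prodMk ((continuous_projIcc (h := zero_le_one)).comp (by fun_prop)))

theorem exists_tst (u : ℝ) (μ : ℝ →₀ ℤ) : ∃ ψ : C(unitInterval, ℝ), ‖ψ‖ ≤ 1 ∧ ∃ s : Finset ℕ,
    s.card ≤ ev (tst ψ u) μ ∧ ∀ n, ev (fun s => tent n (s - u)) μ ≠ 0 → n ∈ s := by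
  classical
  let p : ℝ → unitInterval := fun s => projIcc 0 1 zero_le_one (s - u)
  let f : unitInterval → ℝ := fun x => if 0 < x.1 ∧ x.1 < 1 then (μ (x + u)).sign else 0
  have hK : (p '' μ.support).Finite := μ.support.finite_toSet.image p
  have := hK.to_subtype
  obtain ⟨ψ, h1, h2⟩ := ContinuousMap.exists_restrict_eq_forall_mem_of_closed
    (s := p '' μ.support) ⟨fun x => f x, continuous_of_discreteTopology⟩ (t := Icc (-1) 1)
    (fun x => by
      simp only [ContinuousMap.coe_mk, f]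
      split_ifs
      · rcases Int.sign_trichotomy (μ (x + u)) with h | h | h <;> simp [h]
      · simp) ⟨0, by simp⟩ hK.isClosed
  choose i hi using exists_tent
  let t := μ.support.filter fun s => 0 < s - u ∧ s - u < 1
  refine ⟨ψ, (ψ.norm_le zero_le_one).2 fun x => abs_le.2 (h1 x), t.image fun s => i (s - u),
    (Nat.cast_le.2 Finset.card_image_le).trans ?_, fun n h => ?_⟩
  · rw [ev_eq, Finset.card_filter, Nat.cast_sum]
    refine Finset.sum_le_sum fun s hs => ?_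
    have e : tst ψ u s = f (p s) := DFunLike.congr_fun h2 ⟨p s, mem_image_of_mem p hs⟩
    rw [e]
    split_ifs with h
    · have e1 : (p s).1 = s - u := congrArg Subtype.val (projIcc_of_mem _ ⟨h.1.le, h.2.le⟩)
      simp only [f, e1, if_pos h, sub_add_cancel]
      have := Int.one_le_abs (Finsupp.mem_support_iff.1 hs)
      rw [Int.abs_eq_natAbs, ← Int.mul_sign_self] at this
      exact_mod_cast this
    · have e1 : ¬ (0 < (p s).1 ∧ (p s).1 < 1) := by
        rcases not_and_or.1 h with h | h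
        · simp [p, projIcc_of_le_left _ (not_lt.1 h)]
        · simp [p, projIcc_of_right_le _ (not_lt.1 h)]
      simp only [f, if_neg e1]
      simp
  · obtain ⟨s, a1, a2⟩ := exists_of_ev_ne h
    exact Finset.mem_image.2 ⟨s, Finset.mem_filter.2 ⟨a1, tent_mem a2⟩, (hi _ n a2).symm⟩

theorem exists_unbdd (u : ℝ) (μ : ℚ → ℝ →₀ ℤ) {f : Filter ℚ} [f.IsCountablyGenerated]
    (h : ¬ ∃ L : ℕ, ∀ᶠ d in f, ∃ s : Finset ℕ, s.card ≤ L ∧
      ∀ n, ev (fun s => tent n (s - u)) (μ d) ≠ 0 → n ∈ s) :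
    ∃ ψ : C(unitInterval, ℝ), ∀ M : ℕ, ∃ᶠ d in f, M < |ev (tst ψ u) (μ d)| := by
  obtain ⟨b, hb⟩ := f.exists_antitone_basis
  choose d d1 d2 using fun L => hb.1.frequently_iff.1 (not_eventually.1 (not_exists.1 h L)) L trivial
  let l : ℕ → C(unitInterval, ℝ) →L[ℝ] ℝ := fun n => ∑ s ∈ (μ (d n)).support,
    (μ (d n) s : ℝ) • ContinuousMap.evalCLM ℝ (projIcc 0 1 zero_le_one (s - u))
  have hl : ∀ n ψ, l n ψ = ev (tst ψ u) (μ (d n)) := fun n ψ => by
    simp [l, ev_eq, tst, ContinuousMap.evalCLM]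
  by_contra hn
  push Not at hn
  obtain ⟨C, hC⟩ := banach_steinhaus (g := l) fun ψ => by
    obtain ⟨M, hM⟩ := hn ψ
    obtain ⟨C, hC⟩ := (isBoundedUnder_of_eventually_le (((hb.tendsto d1).eventually hM).mono
      fun n h => (hl n ψ).symm ▸ h : ∀ᶠ n in atTop, |l n ψ| ≤ M)).bddAbove_range
    exact ⟨C, fun n => hC (mem_range_self n)⟩
  obtain ⟨ψ, h1, s, h2, h3⟩ := exists_tst u (μ (d ⌈C⌉₊))
  refine d2 _ ⟨s, Nat.cast_le.1 (h2.trans (le_trans ?_ (Nat.le_ceil C))), h3⟩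
  rw [← hl]
  exact (le_abs_self _).trans (((l _).le_of_opNorm_le_of_le (hC _) h1).trans (mul_one C).le)

theorem cg_F {a : Set Nd} (ha : a.Countable) (ω : Ω) (z : ℝ) : (F a ω z).IsCountablyGenerated :=
  HasCountableBasis.isCountablyGenerated ⟨(nb_basis (g · ω) a z).comap _,
    (countable_coe_iff.1 (countable_over ha)).mono fun _ h => h.1⟩

/-- jointly measurable functions -/
def JM (φ : Ω → ℝ → ℝ) : Prop := Measurable fun u : Ω × ℝ => φ u.1 u.2

/-- names of reals -/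
abbrev MF : Type := {x : Ω → ℝ // Measurable x}

def cst (r : ℝ) : MF := ⟨fun _ => r, measurable_const⟩

/-- names of words -/
structure IsW (w : Ω → ℝ →₀ ℤ) : Prop where
  meas : ∀ φ, JM φ → Measurable fun ω => ev (φ ω) (w ω)
  dep : ∃ a : Set Nd, a.Countable ∧ DependsOn w a

/-- continuity, tested on rationals -/
def Sem (w : MF → Ω → ℝ →₀ ℤ) (A : Set Ω) (φ : Ω → ℝ → ℝ) : Prop :=
  ∀ x : MF, ∃ a : Set Nd, a.Countable ∧ ∀ᵇ ω, ω ∈ A →
    Tendsto (fun d : ℚ => ev (φ ω) (w (cst d) ω)) (F a ω (x.1 ω)) (𝓝 (ev (φ ω) (w x ω)))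

variable {w : MF → Ω → ℝ →₀ ℤ} {A : Set Ω}

theorem Sem.at (hw : ∀ x, IsW (w x)) {φ : Ω → ℝ → ℝ} (h : Sem w A φ) (hφ : JM φ) {a : Set Nd}
    (ha : Cl a) (hd : DependsOn (fun ω (d : ℚ) => ev (φ ω) (w (cst d) ω)) a) (x : MF) :
    ∀ᵇ ω, ω ∈ A → Tendsto (fun d : ℚ => ev (φ ω) (w (cst d) ω)) (F a ω (x.1 ω))
      (𝓝 (ev (φ ω) (w x ω))) := by
  obtain ⟨b, h1, h2⟩ := h x
  filter_upwards [h2, factor ha h1 (fun d => (hw _).meas φ hφ) hd] with ω h3 h4 hω
  exact h4 _ _ (h3 hω)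

theorem kill (hw : ∀ x, IsW (w x)) (hS : ∀ φ, JM φ → (∀ ω, Continuous (φ ω)) → Sem w A φ) (u : ℝ) :
    ∃ δ, ∀ x : MF, ∀ᵇ ω, ω ∈ A → g δ ω (x.1 ω) = ev (phi (ω δ) u) (w x ω) := by
  choose b b1 b2 using fun d : ℚ => (hw (cst d)).dep
  obtain ⟨a, a1, ha⟩ := exists_cl (countable_iUnion b1)
  have hd : DependsOn (fun ω (d : ℚ) => w (cst d) ω) a := fun _ _ h => funext fun d =>
    b2 d fun δ hδ => h δ (a1 (mem_iUnion.2 ⟨d, hδ⟩))
  let H : Ω → ℕ → ℚ → ℝ := fun ω n d => ev (fun s => tent n (s - u)) (w (cst d) ω)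
  have jt : ∀ n, JM fun _ s => tent n (s - u) := fun n =>
    (continuous_tent n).measurable.comp (measurable_snd.sub_const u)
  have hH : ∀ n d, Measurable fun ω => H ω n d := fun n d => (hw _).meas _ (jt n)
  have lim := fun n => (hS _ (jt n) fun _ => (continuous_tent n).comp (by fun_prop)).at hw (jt n) ha
    fun _ _ h => funext fun d => congrArg _ (congrFun (hd h) d)
  obtain ⟨δ, hδ, h⟩ := exists_node ha (H := H)
    (measurable_pi_lambda _ fun n => measurable_pi_lambda _ (hH n))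
    fun _ _ h => by simp only [H, fun d => congrFun (hd h) d]
  have g2 : ∀ n, ∀ᵇ ω, ω ∈ A → ∀ z,
      Tendsto (H ω n) (F a ω z) (𝓝 (liminf (H ω n) (F a ω z))) := fun n => by
    have hF := meas_F (α := Ω × ℝ) ha.cnt measurable_fst measurable_snd
    have hH' : ∀ d, Measurable fun v : Ω × ℝ => H v.1 n d := fun d => (hH n d).comp measurable_fst
    obtain ⟨x, hx, h⟩ := unif' (P := fun ω z => ¬ Tendsto (H ω n) (F a ω z)
      (𝓝 (liminf (H ω n) (F a ω z)))) (meas_tendsto hF hH' (meas_liminf hF hH')).not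
    filter_upwards [h, lim n ⟨x, hx⟩, ae_neBot ha] with ω h1 h2 h3 hω z
    by_contra hn
    have := (frequently_true_iff_neBot _).1 (h3 (x ω))
    exact h1 z hn ((h2 hω).liminf_eq.symm ▸ h2 hω)
  have g3 : ∀ᵇ ω, ω ∈ A → ∀ z, ∃ L : ℕ, ∀ᶠ d in F a ω z, ∃ s : Finset ℕ, s.card ≤ L ∧
      ∀ n, H ω n d ≠ 0 → n ∈ s := by
    borelize C(unitInterval, ℝ)
    have m1 : ∀ d : ℚ, Measurable fun v : C(unitInterval, ℝ) × Ω =>
        ev (tst v.1 u) (w (cst d) v.2) := fun d =>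
      measurable_uncurry_of_continuous_of_measurable
        (u := fun ψ ω => ev (tst ψ u) (w (cst d) ω)) (fun ω => by
          simp only [ev_eq]
          exact continuous_finsetSum _ fun s _ => continuous_const.mul
            ((continuous_tst u).comp (Continuous.prodMk_left s)))
        fun ψ => (hw _).meas _ (((continuous_tst u).comp (Continuous.prodMk_right ψ)).measurable.comp
          measurable_snd)
    obtain ⟨y, y1, y2, R, -, -, y3, y4⟩ := unif ha.cnt (Y := ℝ × C(unitInterval, ℝ))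
      (P := fun ω y => ∀ M : ℕ, ∃ᶠ d : ℚ in F a ω y.1, M < |ev (tst y.2 u) (w (cst d) ω)|)
      (Measurable.forall fun M => (meas_F ha.cnt measurable_fst measurable_snd.fst _ fun d =>
        (measurable_const.lt (continuous_abs.measurable.comp ((m1 d).comp
          (measurable_snd.snd.prodMk measurable_fst)))).not).not)
      fun _ _ h => by simp only [dep_F ha.sub h, fun d => congrFun (hd h) d]
    have jy : JM fun ω => tst (y ω).2 u := (continuous_tst u).measurable.comp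
      ((y1.snd.comp measurable_fst).prodMk measurable_snd)
    filter_upwards [y3, (hS _ jy fun ω => (continuous_tst u).comp (Continuous.prodMk_right _)).at
      hw jy ha (fun _ _ h => by simp only [y2 h, fun d => congrFun (hd h) d]) ⟨_, y1.fst⟩]
      with ω h1 h2 hω z
    by_contra hn
    have := cg_F ha.cnt ω z
    obtain ⟨ψ, hψ⟩ := exists_unbdd u (fun d => w (cst d) ω) hn
    obtain ⟨M, hM⟩ := exists_nat_gt |ev (tst (y ω).2 u) (w ⟨_, y1.fst⟩ ω)|
    exact y4 ω h1 (z, ψ) hψ M (((h2 hω).abs.eventually_lt_const hM).mono fun d h => h.not_gt)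
  refine ⟨δ, fun x => ?_⟩
  filter_upwards [h, eventually_countable_forall.2 g2, g3, ae_neBot ha,
    eventually_countable_forall.2 fun n => lim n x] with ω h1 h2 h3 h4 h5 hω
  rw [g_eq hδ, ev_phi]
  exact congrArg _ (funext fun n => h1 (fun z => ⟨h4 z, fun n => h2 n hω z, h3 hω z⟩) n _ _ (h5 n hω))

theorem const (hw : ∀ x, IsW (w x)) {φ : Ω → ℝ → ℝ} (hφ : JM φ) (hi : ∀ ω s, ∃ k : ℤ, φ ω s = k)
    (hS : Sem w A φ) (x : MF) : ∀ᵇ ω, ω ∈ A → ev (φ ω) (w x ω) = ev (φ ω) (w (cst 0) ω) := by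
  have hH := fun d : ℚ => (hw (cst d)).meas φ hφ
  choose b b1 b2 using fun d : ℚ => exists_dep (hH d)
  obtain ⟨a, a1, ha⟩ := exists_cl (countable_iUnion b1)
  have lim := hS.at hw hφ ha fun _ _ h => funext fun d =>
    b2 d fun δ hδ => h δ (a1 (mem_iUnion.2 ⟨d, hδ⟩))
  obtain ⟨y, hy, h⟩ := conn ha (E := fun ω d => ev (φ ω) (w (cst d) ω) =
    ev (φ ω) (w (cst (0 : ℚ)) ω)) fun d => (hH d).eq (hH 0)
  filter_upwards [h, lim x, lim ⟨y, hy⟩, ae_neBot ha] with ω h1 h2 h3 h4 hω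
  have hz : ∀ μ, ∃ k : ℤ, ev (φ ω) μ = k := fun μ => by
    choose k hk using hi ω
    exact ⟨∑ s ∈ μ.support, μ s * k s, by simp [ev_eq, hk]⟩
  have h5 : ∀ d : ℚ, ev (φ ω) (w (cst d) ω) = ev (φ ω) (w (cst (0 : ℚ)) ω) := fun d => by
    by_contra hn
    obtain ⟨c1, c2⟩ := h1 0 d rfl hn
    have c3 := Metric.tendsto_nhds.1 (h3 hω) (1 / 2) (by norm_num)
    obtain ⟨d₁, e1, e2⟩ := (c1.and_eventually c3).exists
    obtain ⟨d₂, e3, e4⟩ := (c2.and_eventually c3).exists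
    obtain ⟨k₁, k1⟩ := hz (w (cst d₁) ω)
    obtain ⟨k₂, k2⟩ := hz (w (cst d₂) ω)
    have e5 := (dist_triangle_right _ _ _).trans_lt (add_lt_add e2 e4)
    rw [k1, k2, Real.dist_eq, add_halves] at e5
    have e6 : |k₁ - k₂| < 1 := by exact_mod_cast e5
    exact e3 (by rw [← e1, k1, k2, sub_eq_zero.1 (Int.abs_lt_one_iff.1 e6)])
  have := (frequently_true_iff_neBot _).1 (h4 (x.1 ω))
  have h6 := h2 hω
  simp only [h5] at h6
  simpa using tendsto_nhds_unique h6 tendsto_const_nhds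

end Pool.Agent.Lib.MP_5ffd28_gt.Cohen
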