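import Pool.Agent.Lib.MP_5ffd28_gt.Cohen.Alg
import Pool.Agent.Lib.MP_5ffd28_gt.Cohen.Defs

/-! The real line of the generic extension, given by measurable functions. -/

namespace Pool.Agent.Lib.MP_5ffd28_gt.Cohen

open Set Filter Topology MeasureTheory Pool.Agent.Shared.Forcing Pool.Agent.Lib.MP_23bd8d_gt
open Cardinal

set_option synthInstance.maxSize 4000

abbrev SN : Type 2 := SName BB ll
abbrev HN : Type 2 := HName BB ll
abbrev MU (U : Ultra BB) : Type 2 := Md ll U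
noncomputable abbrev EU (U : Ultra BB) : MU U → MU U → Prop := El ll U

variable {U : Ultra BB}

noncomputable def nm {ι : Type} (A : ι → SN) (b : ι → BB) : SN :=
  SName.mk (ULift.{1} ι) (ul_lt ι) (fun i => A i.down) fun i => b i.down

theorem mem_nm {ι : Type} (A : ι → SN) {b : ι → BB} (i : ι) (h : b i ∈ U) :
    EU U (sm U (A i)) (sm U (nm A b)) :=
  mem_mk (ul_lt ι) (fun i => A i.down) (fun i => b i.down) ⟨i⟩ h

@[elab_as_elim]
theorem wlog_nm {Φ : Ultra BB → Prop} (Z : HN) {ι : Type} (A : ι → SN) (b : ι → BB) (U : Ultra BB)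
    (h : EU U (cls U Z) (sm U (nm A b))) [Dec Φ]
    (H : ∀ U i, b i ∈ U → cls U Z = sm U (A i) → Φ U) : Φ U :=
  wlog_mk Z (ul_lt ι) _ _ U h fun U i => H U i.down

noncomputable def rl {ι : Type} (x y : ι → SN) (b : ι → BB) : SN :=
  nm (fun i => kpName (x i) (y i)) b

theorem maps_rl {ι : Type} (x y : ι → SN) {b : ι → BB} (i : ι) (h : b i ∈ U) :
    Maps (EU U) (sm U (rl x y b)) (sm U (x i)) (sm U (y i)) :=
  ⟨_, mem_nm (fun i => kpName (x i) (y i)) i h, isKPair_kpName U _ _⟩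

@[elab_as_elim]
theorem wlog_rl {Φ : Ultra BB → Prop} (X Y : HN) {ι : Type} (x y : ι → SN) (b : ι → BB)
    (U : Ultra BB) (h : Maps (EU U) (sm U (rl x y b)) (cls U X) (cls U Y)) [Dec Φ]
    (H : ∀ U i, b i ∈ U → cls U X = sm U (x i) → cls U Y = sm U (y i) → Φ U) : Φ U :=
  @wlog_rel _ _ _ _ Φ X Y _ (ul_lt ι) (fun i => x i.down) (fun i => y i.down)
    (fun i => b i.down) U h _ fun U i => H U i.down

noncomputable def eQ : NN ll ≃ ℚ := (nonempty_equiv_of_countable (α := NN ll) (β := ℚ)).some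

/-- the natural number coding a rational -/
noncomputable def qn (q : ℚ) : SN := chk BB (eQ.symm q).1

noncomputable abbrev om (U : Ultra BB) : MU U := ck U (oc ll ℵ₀)

theorem qn_inj {p q : ℚ} (h : sm U (qn p) = sm U (qn q)) : p = q :=
  eQ.symm.injective (Subtype.ext (ck_inj h))

theorem qn_mem (q : ℚ) : EU U (sm U (qn q)) (om U) := el_ck_of_lt (eQ.symm q).2

/-- the name of a real, a cut in the rationals -/
noncomputable def hat (x : MF) : SN := nm qn fun q => tv fun ω => q < x.1 ω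

noncomputable abbrev pt (U : Ultra BB) (x : MF) : MU U := sm U (hat x)

theorem el_hat {q : ℚ} {x : MF} : EU U (sm U (qn q)) (pt U x) ↔ Ae U fun ω => q < x.1 ω := by
  refine ⟨fun h => ?_, mem_nm qn (b := fun q => tv fun ω => q < x.1 ω) q⟩
  refine wlog_nm _ qn _ U h ?_
  intro U p hp e
  rwa [qn_inj e]

theorem pt_eq {x y : MF} : pt U x = pt U y ↔ Ae U fun ω => x.1 ω = y.1 ω := by
  have key : ∀ (x y : MF) U, (Ae U fun ω => x.1 ω = y.1 ω) → Sub (EU U) (pt U x) (pt U y) := by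
    intro x y U h z hz
    obtain ⟨Z, rfl⟩ := cls_surj z
    revert h
    refine wlog_nm Z qn _ U hz ?_
    intro U q hq e h
    rw [e, el_hat]
    exact (Ae.and hq h).mono fun ω h => h.2 ▸ h.1
  have key' : ∀ (x y : MF) U, (Ae U fun ω => x.1 ω < y.1 ω) → pt U x ≠ pt U y := by
    intro x y U h
    refine wlog_ex (P := fun (q : ℚ) ω => x.1 ω < q ∧ q < y.1 ω) (fun q =>
      (x.2.lt measurable_const).and (measurable_const.lt y.2)) U
      (h.mono fun ω h => exists_rat_btwn h) ?_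
    intro U q hq e
    have := el_hat.2 (hq.mono fun _ h => h.2)
    rw [← e, el_hat] at this
    exact (hq.and this).elim fun ω h => h.1.1.not_gt h.2
  refine ⟨fun h => by_contra fun hn => ?_, fun h => md_ext U _ _ fun z =>
    ⟨key x y U h z, key y x U (h.mono fun _ => Eq.symm) z⟩⟩
  rcases ((Ae.of_not (x.2.eq y.2) hn).mono fun ω h => lt_or_gt_of_ne h).or (x.2.lt y.2)
    (y.2.lt x.2) with h' | h'
  exacts [key' x y U h' h, key' y x U h' h.symm]

/-- the set of reals defined by a property -/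
noncomputable def setHat (C : Ω → ℝ → Prop) : SN := nm hat fun x => tv fun ω => C ω (x.1 ω)

/-- the real line -/
noncomputable def Rn : SN := setHat fun _ _ => True

noncomputable abbrev RR (U : Ultra BB) : MU U := sm U Rn

theorem pt_mem (x : MF) : EU U (pt U x) (RR U) :=
  mem_nm hat (b := fun _ => tv fun _ => True) x (Ae.of_all fun _ => trivial)

theorem exists_hat (X : HN) : ∃ x, ∀ U, EU U (cls U X) (RR U) → cls U X = pt U x := by
  have : Nonempty MF := ⟨cst 0⟩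
  obtain ⟨i, κ, h1, h2⟩ := glue fun x => HName.eq X (HName.emb (hat x))
  refine ⟨⟨fun ω => (i (κ ω)).1 ω, (measurable_from_prod_countable_right
    (f := fun u : ℕ × Ω => (i u.1).1 u.2) fun n => (i n).2).comp (h1.prodMk measurable_id)⟩,
    fun U h => ?_⟩
  have h3 : ⨆ x, HName.eq X (HName.emb (hat x)) ∈ U := by
    refine wlog_nm X hat (fun _ => tv fun _ => True) U h ?_
    exact fun U x _ e => iSup_mem_of_mem x (cls_eq.1 e)
  refine wlog_sup _ U (Ultra.mono h3 h2) ?_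
  intro U n hn
  rw [Ultra.inf_mem] at hn
  exact (cls_eq.2 hn.1).trans (pt_eq.2 (Ae.mono hn.2 fun ω h => by simp only [h]))

theorem real_cases {z : MU U} (h : EU U z (RR U)) : ∃ x, z = pt U x := by
  obtain ⟨Z, rfl⟩ := cls_surj z
  exact (exists_hat Z).imp fun x hx => hx U h

theorem setHat_sub (C : Ω → ℝ → Prop) : Sub (EU U) (sm U (setHat C)) (RR U) := by
  intro z hz
  obtain ⟨Z, rfl⟩ := cls_surj z
  refine wlog_nm Z hat _ U hz ?_
  exact fun U x _ e => e ▸ pt_mem x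

theorem el_setHat {C : Ω → ℝ → Prop} {x : MF} :
    EU U (pt U x) (sm U (setHat C)) ↔ Ae U fun ω => C ω (x.1 ω) := by
  refine ⟨fun h => ?_, mem_nm hat (b := fun x => tv fun ω => C ω (x.1 ω)) x⟩
  refine wlog_nm _ hat _ U h ?_
  exact fun U y hy e => (Ae.and hy (pt_eq.1 e)).mono fun ω h => h.2 ▸ h.1

/-- the relation on the reals defined by a property -/
noncomputable def relHat (ρ : Ω → ℝ → ℝ → Prop) : SN :=
  rl (fun u : MF × MF => hat u.1) (fun u => hat u.2) fun u => tv fun ω => ρ ω (u.1.1 ω) (u.2.1 ω)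

theorem maps_relHat {ρ : Ω → ℝ → ℝ → Prop} {x y : MF} :
    Maps (EU U) (sm U (relHat ρ)) (pt U x) (pt U y) ↔ Ae U fun ω => ρ ω (x.1 ω) (y.1 ω) := by
  refine ⟨fun h => ?_, maps_rl (fun u : MF × MF => hat u.1) (fun u => hat u.2)
    (b := fun u => tv fun ω => ρ ω (u.1.1 ω) (u.2.1 ω)) (x, y)⟩
  rw [relHat] at h
  refine wlog_rl _ _ _ _ _ U h ?_
  exact fun U u hu e e' => (Ae.and hu ((pt_eq.1 e).and (pt_eq.1 e'))).mono
    fun ω h => h.2.1 ▸ h.2.2 ▸ h.1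

theorem relHat_pair {ρ : Ω → ℝ → ℝ → Prop} {p : MU U} (h : EU U p (sm U (relHat ρ))) :
    ∃ x y, EU U x (RR U) ∧ EU U y (RR U) ∧ IsKPair (EU U) p x y := by
  obtain ⟨p, rfl⟩ := cls_surj p
  refine wlog_nm p (fun u : MF × MF => kpName (hat u.1) (hat u.2))
    (fun u => tv fun ω => ρ ω (u.1.1 ω) (u.2.1 ω)) U h ?_
  exact fun U u _ e => ⟨_, _, pt_mem u.1, pt_mem u.2, e ▸ isKPair_kpName U _ _⟩

theorem relHat_cases {ρ : Ω → ℝ → ℝ → Prop} {y z : MU U} (h : Maps (EU U) (sm U (relHat ρ)) y z) :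
    ∃ a b, y = pt U a ∧ z = pt U b ∧ Ae U fun ω => ρ ω (a.1 ω) (b.1 ω) := by
  obtain ⟨p, h1, h2⟩ := id h
  obtain ⟨x, y, h3, h4, h5⟩ := relHat_pair h1
  obtain ⟨rfl, rfl⟩ := IsKPair.uniq (md_pair U) h2 h5
  obtain ⟨a, rfl⟩ := real_cases h3
  obtain ⟨b, rfl⟩ := real_cases h4
  exact ⟨a, b, rfl, rfl, maps_relHat.1 h⟩

/-- the order of the reals -/
noncomputable def Ln : SN := relHat fun _ s t => s < t

noncomputable abbrev LL (U : Ultra BB) : MU U := sm U Ln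

theorem lt_pt {x y : MF} : Maps (EU U) (LL U) (pt U x) (pt U y) ↔ Ae U fun ω => x.1 ω < y.1 ω :=
  maps_relHat

theorem not_lt_pt {x y : MF} :
    ¬ Maps (EU U) (LL U) (pt U x) (pt U y) ↔ Ae U fun ω => y.1 ω ≤ x.1 ω :=
  ⟨fun h => (Ae.of_not (x.2.lt y.2) (lt_pt.not.1 h)).mono fun _ => not_lt.1,
    fun h h' => (h.and (lt_pt.1 h')).elim fun _ h => h.1.not_gt h.2⟩

def app (φ : Ω → ℝ → ℝ) (h : JM φ) (x : MF) : MF :=
  ⟨fun ω => φ ω (x.1 ω), h.comp (measurable_id.prodMk x.2)⟩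

/-- the function on the reals defined by `φ` -/
noncomputable def fnHat (φ : Ω → ℝ → ℝ) : SN := relHat fun ω s t => t = φ ω s

theorem maps_fnHat {φ : Ω → ℝ → ℝ} (h : JM φ) {x : MF} {z : MU U} :
    Maps (EU U) (sm U (fnHat φ)) (pt U x) z ↔ z = pt U (app φ h x) := by
  refine ⟨fun h' => ?_, fun e => e ▸ maps_relHat.2 (Ae.of_all fun _ => rfl)⟩
  obtain ⟨a, b, e, rfl, h1⟩ := relHat_cases h'
  exact pt_eq.2 ((h1.and (pt_eq.1 e)).mono fun ω h => h.1.trans (congrArg (φ ω) h.2.symm))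

theorem isFn_fnHat {φ : Ω → ℝ → ℝ} (h : JM φ) : IsFn (EU U) (sm U (fnHat φ)) (RR U) (RR U) := by
  refine ⟨fun p => relHat_pair, fun x hx => ?_⟩
  obtain ⟨x, rfl⟩ := real_cases hx
  exact ⟨_, (maps_fnHat h).2 rfl, fun _ => (maps_fnHat h).1⟩

theorem cst_inj {p q : ℚ} (h : pt U (cst p) = pt U (cst q)) : p = q := by
  obtain ⟨ω, h⟩ := (pt_eq.1 h).exists
  exact Rat.cast_injective (α := ℝ) h

theorem rl_inj {x y : ℚ → SN} (hx : ∀ U p q, sm U (x p) = sm U (x q) → p = q) (a b b' : MU U)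
    (h : Maps (EU U) (sm U (rl x y fun _ => ⊤)) a b ∧ Maps (EU U) (sm U (rl x y fun _ => ⊤)) a b' ∨
      Maps (EU U) (sm U (rl y x fun _ => ⊤)) b a ∧ Maps (EU U) (sm U (rl y x fun _ => ⊤)) b' a) :
    b = b' := by
  obtain ⟨a, rfl⟩ := cls_surj a
  obtain ⟨b, rfl⟩ := cls_surj b
  obtain ⟨b', rfl⟩ := cls_surj b'
  rcases h with ⟨h, h'⟩ | ⟨h, h'⟩
  all_goals
    revert h'
    refine wlog_rl _ _ _ _ _ U h ?_
    intro U p _ e1 e2 h'
    revert e1 e2
    refine wlog_rl _ _ _ _ _ U h' ?_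
    intro U q _ e3 e4 e1 e2
  · rw [e2, e4, hx U p q (e1.symm.trans e3)]
  · rw [e1, e3, hx U p q (e2.symm.trans e4)]

theorem inj_om : Inj (EU U) (om U) (RR U) := by
  refine ⟨sm U (rl qn (fun q => hat (cst q)) fun _ => ⊤), fun x hx => ?_,
    fun x y y' h h' => rl_inj (fun _ _ _ => qn_inj) _ _ _ (Or.inl ⟨h, h'⟩),
    fun x x' y h h' => rl_inj (fun _ _ _ => cst_inj) _ _ _ (Or.inr ⟨h, h'⟩)⟩
  obtain ⟨X, rfl⟩ := cls_surj x
  refine wlog_ck X _ U hx ?_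
  intro U a ha e
  have : ck U a = sm U (qn (eQ ⟨a, ha⟩)) := by rw [qn, Equiv.symm_apply_apply]
  rw [e, this]
  exact ⟨_, pt_mem _, maps_rl qn (fun q => hat (cst q)) _ U.top_mem⟩

@[elab_as_elim]
theorem wlog_btw {Φ : Ultra BB → Prop} {x y : Ω → ℝ} (hx : Measurable x) (hy : Measurable y)
    (U : Ultra BB) (h : Ae U fun ω => x ω < y ω) [Dec Φ]
    (H : ∀ U (q : ℚ), (Ae U fun ω => x ω < q ∧ q < y ω) → Φ U) : Φ U :=
  wlog_ex (P := fun (q : ℚ) ω => x ω < q ∧ q < y ω)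
    (fun _ => (hx.lt measurable_const).and (measurable_const.lt hy)) U
    (h.mono fun _ h => exists_rat_btwn h) H

theorem complete (A : HN) : ∃ s : MF, ∀ U, Sub (EU U) (cls U A) (RR U) →
    (∀ b x : MF, (∀ y, EU U y (cls U A) → ¬ Maps (EU U) (LL U) (pt U b) y) →
      EU U (pt U x) (cls U A) → ¬ Maps (EU U) (LL U) (pt U s) (pt U x) ∧
        ¬ Maps (EU U) (LL U) (pt U b) (pt U s)) := by
  choose P p1 p2 using fun q : ℚ => exists_dec fun U => ∃ y, EU U y (cls U A) ∧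
    Maps (EU U) (LL U) (pt U (cst q)) y
  let S : Ω → Set ℝ := fun ω => {r | ∃ q : ℚ, r ≤ q ∧ P q ω}
  refine ⟨⟨fun ω => sSup (S ω), measurable_sSup_lower (fun ω r r' h ⟨q, h1, h2⟩ =>
    ⟨q, h.trans h1, h2⟩) fun _ => Measurable.exists fun q => measurable_const.and (p1 q)⟩,
    fun U hA b x hb hx => ?_⟩
  have h1 : Ae U fun ω => ∀ q : ℚ, P q ω → q ≤ b.1 ω := by
    refine Ae.forall (Φ := fun U => Sub (EU U) (cls U A) (RR U) ∧ ∀ y, EU U y (cls U A) →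
      ¬ Maps (EU U) (LL U) (pt U b) y) (fun q => (p1 q).imp (measurable_const.le' b.2))
      (fun q U h => ?_) ⟨hA, hb⟩
    by_cases hq : Ae U (P q)
    · obtain ⟨y, y1, y2⟩ := (p2 q U).1 hq
      obtain ⟨y, rfl⟩ := real_cases (h.1 y y1)
      exact ((lt_pt.1 y2).and (not_lt_pt.1 (h.2 _ y1))).mono fun ω h _ => (h.1.trans_le h.2).le
    · exact (Ae.of_not (p1 q) hq).mono fun ω h h' => absurd h' h
  have h2 : Ae U fun ω => ∀ q : ℚ, q < x.1 ω → P q ω := by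
    refine Ae.forall (Φ := fun U => EU U (pt U x) (cls U A))
      (fun q => (measurable_const.lt x.2).imp (p1 q)) (fun q U h => ?_) hx
    by_cases hq : Ae U fun ω => q < x.1 ω
    · exact ((p2 q U).2 ⟨_, h, lt_pt.2 hq⟩).mono fun ω h _ => h
    · exact (Ae.of_not (measurable_const.lt x.2) hq).mono fun ω h h' => absurd h' h
  have h3 : ∀ ω, (∀ q : ℚ, P q ω → q ≤ b.1 ω) → b.1 ω ∈ upperBounds (S ω) :=
    fun ω h r ⟨q, a1, a2⟩ => a1.trans (h q a2)
  refine ⟨not_lt_pt.2 ((h1.and h2).mono fun ω h => le_of_forall_lt fun r hr => ?_),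
    not_lt_pt.2 ((h1.and h2).mono fun ω h => csSup_le ?_ (h3 ω h.1))⟩
  · obtain ⟨q, a1, a2⟩ := exists_rat_btwn hr
    exact a1.trans_le (le_csSup ⟨_, h3 ω h.1⟩ ⟨q, le_rfl, h.2 q a2⟩)
  · obtain ⟨q, hq⟩ := exists_rat_lt (x.1 ω)
    exact ⟨q, q, le_rfl, h.2 q hq⟩

theorem isReal_RR : IsReal (EU U) (om U) (RR U) (LL U) := by
  refine ⟨fun x hx => ?_, fun x y z hx hy hz => ?_, fun x y hx hy => ?_, ⟨_, pt_mem (cst 0)⟩,
    fun x hx => ?_, ⟨sm U (nm (fun q : ℚ => hat (cst q)) fun _ => ⊤), fun z hz => ?_,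
      ⟨sm U (rl (fun q : ℚ => hat (cst q)) qn fun _ => ⊤), fun z hz => ?_,
        fun x y y' h h' => rl_inj (fun _ _ _ => cst_inj) _ _ _ (Or.inl ⟨h, h'⟩),
        fun x x' y h h' => rl_inj (fun _ _ _ => qn_inj) _ _ _ (Or.inr ⟨h, h'⟩)⟩,
      fun x y hx hy h => ?_⟩, fun A hA ⟨x, hx⟩ ⟨b, hb, hb'⟩ => ?_⟩
  · obtain ⟨x, rfl⟩ := real_cases hx
    exact not_lt_pt.2 (Ae.of_all fun _ => le_rfl)
  · obtain ⟨x, rfl⟩ := real_cases hx
    obtain ⟨y, rfl⟩ := real_cases hy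
    obtain ⟨z, rfl⟩ := real_cases hz
    exact fun h h' => lt_pt.2 (((lt_pt.1 h).and (lt_pt.1 h')).mono fun _ h => h.1.trans h.2)
  · obtain ⟨x, rfl⟩ := real_cases hx
    obtain ⟨y, rfl⟩ := real_cases hy
    by_contra hn
    rw [not_or, not_or, not_lt_pt, not_lt_pt] at hn
    exact hn.2.1 (pt_eq.2 ((hn.1.and hn.2.2).mono fun _ h => le_antisymm h.2 h.1))
  · obtain ⟨x, rfl⟩ := real_cases hx
    exact ⟨⟨_, pt_mem ⟨_, x.2.sub_const 1⟩, lt_pt.2 (Ae.of_all fun _ => sub_one_lt _)⟩,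
      _, pt_mem ⟨_, x.2.add_const 1⟩, lt_pt.2 (Ae.of_all fun _ => lt_add_one _)⟩
  · obtain ⟨Z, rfl⟩ := cls_surj z
    refine wlog_nm Z _ _ U hz ?_
    exact fun U q _ e => e ▸ pt_mem _
  · obtain ⟨Z, rfl⟩ := cls_surj z
    refine wlog_nm Z _ _ U hz ?_
    exact fun U q _ e => e ▸ ⟨_, qn_mem q, maps_rl (fun q : ℚ => hat (cst q)) qn q U.top_mem⟩
  · obtain ⟨x, rfl⟩ := real_cases hx
    obtain ⟨y, rfl⟩ := real_cases hy
    refine wlog_btw x.2 y.2 U (lt_pt.1 h) ?_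
    exact fun U q hq => ⟨_, mem_nm (fun q : ℚ => hat (cst q)) q U.top_mem,
      lt_pt.2 (hq.mono fun _ h => h.1), lt_pt.2 (hq.mono fun _ h => h.2)⟩
  · obtain ⟨A, rfl⟩ := cls_surj A
    obtain ⟨s, hs⟩ := complete A
    obtain ⟨x, rfl⟩ := real_cases (hA x hx)
    obtain ⟨b, rfl⟩ := real_cases hb
    refine ⟨_, pt_mem s, fun y hy => ?_, fun c hc hc' => ?_⟩
    · obtain ⟨y, rfl⟩ := real_cases (hA y hy)
      exact (hs U hA b y hb' hy).1
    · obtain ⟨c, rfl⟩ := real_cases hc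
      exact (hs U hA c x hc' hx).2

def MF.add (x y : MF) : MF := ⟨fun ω => x.1 ω + y.1 ω, x.2.add y.2⟩

/-- addition of reals -/
noncomputable def An : SN :=
  rl (fun u : MF × MF => kpName (hat u.1) (hat u.2)) (fun u => hat (u.1.add u.2)) fun _ => ⊤

noncomputable abbrev AA (U : Ultra BB) : MU U := sm U An

instance (A x y z : HN) : Dec fun U => Op (EU U) (cls U A) (cls U x) (cls U y) (cls U z) := by
  unfold Op; infer_instance

theorem op_pt {x y : MF} {z : MU U} : Op (EU U) (AA U) (pt U x) (pt U y) z ↔ z = pt U (x.add y) := by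
  refine ⟨fun ⟨p, h1, h2⟩ => ?_, fun e => e ▸ ⟨_, isKPair_kpName U _ _, maps_rl
    (fun u : MF × MF => kpName (hat u.1) (hat u.2)) (fun u => hat (u.1.add u.2)) (x, y) U.top_mem⟩⟩
  obtain ⟨p, rfl⟩ := cls_surj p
  obtain ⟨z, rfl⟩ := cls_surj z
  revert h1
  rw [AA, An] at h2
  refine wlog_rl _ _ _ _ _ U h2 ?_
  intro U u _ e1 e2 h1
  rw [e1] at h1
  obtain ⟨e3, e4⟩ := IsKPair.uniq (md_pair U) h1 (isKPair_kpName U _ _)
  exact e2.trans (pt_eq.2 (((pt_eq.1 e3).and (pt_eq.1 e4)).mono fun ω h => by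
    simp only [MF.add, h.1, h.2]))

theorem op_ae {x y z : MF} : Op (EU U) (AA U) (pt U x) (pt U y) (pt U z) ↔
    Ae U fun ω => z.1 ω = x.1 ω + y.1 ω := op_pt.trans pt_eq

end Pool.Agent.Lib.MP_5ffd28_gt.Cohen
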