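import Pool.Agent.Lib.MP_5ffd28_gt.Cohen.Unif

/-! The template of nodes and the functions generating the topology. -/

namespace Pool.Agent.Lib.MP_5ffd28_gt.Cohen

open Set Filter Topology MeasureTheory

/-- nodes of the template -/
inductive Nd : Type
  | base : Nd
  | mk (c : ℕ → Nd) (H : {H : (ℕ → ℕ → Bool) → ℕ → ℚ → ℝ // Measurable H}) : Nd

/-- the nodes on which a node depends -/
def below : Nd → Set Nd
  | .base => ∅
  | .mk c _ => insert .base (⋃ k, insert (c k) (below (c k)))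

theorem below_trans {ε δ : Nd} (h : ε ∈ below δ) : below ε ⊆ below δ := by
  induction δ with
  | base => exact h.elim
  | mk c H ih =>
    rcases h with rfl | h
    · exact empty_subset _
    · obtain ⟨k, rfl | hk⟩ := mem_iUnion.1 h
      · exact fun x hx => Or.inr (mem_iUnion.2 ⟨k, Or.inr hx⟩)
      · exact fun x hx => Or.inr (mem_iUnion.2 ⟨k, Or.inr (ih k hk hx)⟩)

theorem countable_below (δ : Nd) : (below δ).Countable := by
  induction δ with
  | base => exact countable_empty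
  | mk c H ih => exact (countable_iUnion fun k => (ih k).insert _).insert _

theorem wf_below : WellFounded fun ε δ : Nd => ε ∈ below δ := by
  have hb : Acc (fun ε δ : Nd => ε ∈ below δ) .base := ⟨_, fun _ h => h.elim⟩
  refine ⟨fun δ => ?_⟩
  induction δ with
  | base => exact hb
  | mk c H ih =>
    refine ⟨_, fun ε h => ?_⟩
    rcases h with rfl | h
    · exact hb
    · obtain ⟨k, rfl | hk⟩ := mem_iUnion.1 h
      exacts [ih k, (ih k).inv hk]

instance : IsWellFounded Nd fun ε δ => ε ∈ below δ := ⟨wf_below⟩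

noncomputable instance : LinearOrder Nd := IsWellFounded.wellOrderExtension fun ε δ => ε ∈ below δ

instance : WellFoundedLT Nd := IsWellFounded.wellOrderExtension.isWellFounded_lt _

theorem lt_of_below {ε δ : Nd} (h : ε ∈ below δ) : ε < δ :=
  Prod.Lex.left _ _ (IsWellFounded.rank_lt_of_rel (r := fun ε δ : Nd => ε ∈ below δ) h)

theorem base_mem_below {δ : Nd} (h : δ ≠ .base) : .base ∈ below δ := by
  cases δ with
  | base => exact absurd rfl h
  | mk c H => exact Or.inl rfl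

/-- countable closed sets of nodes -/
structure Cl (a : Set Nd) : Prop where
  cnt : a.Countable
  base : .base ∈ a
  sub : ∀ δ ∈ a, below δ ⊆ a

theorem cl_below {δ : Nd} (h : δ ≠ .base) : Cl (below δ) :=
  ⟨countable_below δ, base_mem_below h, fun _ => below_trans⟩

theorem cl_base : Cl {.base} := ⟨countable_singleton _, rfl, by rintro _ rfl; exact empty_subset _⟩

theorem exists_cl {a : Set Nd} (ha : a.Countable) : ∃ b, a ⊆ b ∧ Cl b := by
  refine ⟨insert .base (a ∪ ⋃ δ ∈ a, below δ), fun x hx => Or.inr (Or.inl hx),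
    (ha.union (ha.biUnion fun δ _ => countable_below δ)).insert _, Or.inl rfl, ?_⟩
  rintro δ (rfl | h | h)
  · exact empty_subset _
  · exact fun x hx => Or.inr (Or.inr (mem_biUnion h hx))
  · obtain ⟨ε, h1, h2⟩ := mem_iUnion₂.1 h
    exact fun x hx => Or.inr (Or.inr (mem_biUnion h1 (below_trans h2 hx)))

/-- codes of basic open sets -/
abbrev Bx : Type := Finset (Nd × ℚ × ℚ)

def Over (a : Set Nd) (β : Bx) : Prop := ∀ t ∈ β, t.1 ∈ a

def Box (G : Nd → ℝ → ℝ) (β : Bx) : Set ℝ := {z | ∀ t ∈ β, t.2.1 < G t.1 z ∧ G t.1 z < t.2.2}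

theorem Over.mono {a b : Set Nd} {β : Bx} (h : Over a β) (hab : a ⊆ b) : Over b β :=
  fun t ht => hab (h t ht)

theorem Over.union {a : Set Nd} {β β' : Bx} (h : Over a β) (h' : Over a β') : Over a (β ∪ β') :=
  fun t ht => (Finset.mem_union.1 ht).elim (h t) (h' t)

theorem box_union (G : Nd → ℝ → ℝ) (β β' : Bx) : Box G (β ∪ β') = Box G β ∩ Box G β' := by
  ext; simp [Box, or_imp, forall_and, and_and_and_comm]

theorem box_congr {G G' : Nd → ℝ → ℝ} {a : Set Nd} {β : Bx} (hβ : Over a β)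
    (h : ∀ δ ∈ a, G δ = G' δ) : Box G β = Box G' β := by
  ext z
  exact forall₂_congr fun t ht => by rw [h _ (hβ t ht)]

theorem countable_over {a : Set Nd} (ha : a.Countable) : Countable {β // Over a β} := by
  have h : {β | Over a β}.Countable := by
    refine ((countable_ofPred_finite_subset (ha.prod (countable_univ (α := ℚ × ℚ)))).preimage_of_injOn
      (f := fun β : Bx => (β : Set (Nd × ℚ × ℚ))) Finset.coe_injective.injOn).mono fun β hβ => ?_
    exact ⟨β.finite_toSet, fun t ht => ⟨hβ t ht, trivial⟩⟩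
  exact h.to_subtype

/-- neighbourhoods of `z` in the topology generated by the `G δ`, `δ ∈ a` -/
def nb (G : Nd → ℝ → ℝ) (a : Set Nd) (z : ℝ) : Filter ℝ :=
  ⨅ (β : Bx) (_ : Over a β ∧ z ∈ Box G β), 𝓟 (Box G β)

theorem nb_basis (G : Nd → ℝ → ℝ) (a : Set Nd) (z : ℝ) :
    (nb G a z).HasBasis (fun β => Over a β ∧ z ∈ Box G β) (Box G) :=
  hasBasis_biInf_principal' (fun β h β' h' => ⟨β ∪ β', ⟨h.1.union h'.1, box_union G β β' ▸
    ⟨h.2, h'.2⟩⟩, box_union G β β' ▸ inter_subset_left, box_union G β β' ▸ inter_subset_right⟩)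
    ⟨∅, by simp [Over, Box]⟩

theorem tendsto_nb {G : Nd → ℝ → ℝ} {a : Set Nd} {δ : Nd} (h : δ ∈ a) (z : ℝ) :
    Tendsto (G δ) (nb G a z) (𝓝 (G δ z)) := by
  rw [(nb_basis G a z).tendsto_iff (nhds_basis_Ioo _)]
  rintro ⟨u, v⟩ ⟨h1, h2⟩
  obtain ⟨p, a1, a2⟩ := exists_rat_btwn h1
  obtain ⟨q, b1, b2⟩ := exists_rat_btwn h2
  exact ⟨{(δ, p, q)}, by simp [Over, Box, *], fun y hy => by
    simp only [Box, Finset.mem_singleton, forall_eq, mem_ofPred_eq] at hy
    exact ⟨a1.trans hy.1, hy.2.trans b2⟩⟩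

/-- the trace of `nb` on the rationals -/
def fl (G : Nd → ℝ → ℝ) (a : Set Nd) (z : ℝ) : Filter ℚ := comap (↑) (nb G a z)

theorem ev_fl {G : Nd → ℝ → ℝ} {a : Set Nd} {z : ℝ} {P : ℚ → Prop} : (∀ᶠ d in fl G a z, P d) ↔
    ∃ β, (Over a β ∧ z ∈ Box G β) ∧ ∀ d : ℚ, (d : ℝ) ∈ Box G β → P d :=
  ((nb_basis G a z).comap _).eventually_iff

theorem fr_fl {G : Nd → ℝ → ℝ} {a : Set Nd} {z : ℝ} {P : ℚ → Prop} : (∃ᶠ d in fl G a z, P d) ↔
    ∀ β, Over a β ∧ z ∈ Box G β → ∃ d : ℚ, (d : ℝ) ∈ Box G β ∧ P d :=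
  ((nb_basis G a z).comap _).frequently_iff

theorem fl_mono (G : Nd → ℝ → ℝ) {a b : Set Nd} (h : a ⊆ b) (z : ℝ) : fl G b z ≤ fl G a z :=
  fun _ hs => let ⟨β, h1, h2⟩ := ev_fl.1 hs; ev_fl.2 ⟨β, ⟨h1.1.mono h, h1.2⟩, h2⟩

theorem fl_congr {G G' : Nd → ℝ → ℝ} {a : Set Nd} (h : ∀ δ ∈ a, G δ = G' δ) :
    fl G a = fl G' a := by
  funext z
  ext s
  refine ev_fl.trans (Iff.trans (exists_congr fun β => ?_) ev_fl.symm)
  by_cases hβ : Over a β
  · rw [box_congr hβ h]
  · simp [hβ]

theorem pure_le_fl (G : Nd → ℝ → ℝ) (a : Set Nd) (d : ℚ) : pure d ≤ fl G a d :=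
  fun _ hs => let ⟨_, h1, h2⟩ := ev_fl.1 hs; h2 d h1.2

section meas

variable {α : Type} [MeasurableSpace α]

theorem meas_box {G : Nd → α → ℝ → ℝ} {β : Bx}
    (hG : ∀ t ∈ β, Measurable fun u : α × ℝ => G t.1 u.1 u.2) {z : α → ℝ} (hz : Measurable z) :
    Measurable fun x => z x ∈ Box (G · x) β := by
  have e : (fun x => z x ∈ Box (G · x) β) = fun x => ∀ t : β,
      t.1.2.1 < G t.1.1 x (z x) ∧ G t.1.1 x (z x) < t.1.2.2 := by
    funext x; simp [Box]
  rw [e]
  refine Measurable.forall fun t => ?_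
  have := (hG t.1 t.2).comp (measurable_id.prodMk hz)
  exact (measurable_const.lt this).and (this.lt measurable_const)

theorem meas_ev {G : Nd → α → ℝ → ℝ} {a : Set Nd} (ha : a.Countable)
    (hG : ∀ δ ∈ a, Measurable fun u : α × ℝ => G δ u.1 u.2) {z : α → ℝ} (hz : Measurable z)
    {P : α → ℚ → Prop} (hP : ∀ d, Measurable fun x => P x d) :
    Measurable fun x => ∀ᶠ d in fl (G · x) a (z x), P x d := by
  have := countable_over ha
  have e : (fun x => ∀ᶠ d in fl (G · x) a (z x), P x d) = fun x => ∃ β : {β // Over a β},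
      z x ∈ Box (G · x) β ∧ ∀ d : ℚ, (d : ℝ) ∈ Box (G · x) β → P x d := by
    funext x; simp [ev_fl, and_assoc, and_left_comm]
  rw [e]
  exact Measurable.exists fun β => (meas_box (fun t ht => hG _ (β.2 t ht)) hz).and
    (Measurable.forall fun d => (meas_box (fun t ht => hG _ (β.2 t ht)) measurable_const).imp (hP d))

theorem measurable_sSup_lower {S : α → Set ℝ} (hl : ∀ x, IsLowerSet (S x))
    (hm : ∀ q : ℚ, Measurable fun x => (q : ℝ) ∈ S x) : Measurable fun x => sSup (S x) := by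
  refine measurable_of_Ioi fun r => ?_
  have e : (fun x => sSup (S x)) ⁻¹' Ioi r = {x | ((∃ q : ℚ, (q : ℝ) ∉ S x) ∧
      (∃ q : ℚ, (q : ℝ) ∈ S x) ∧ ∃ q : ℚ, (q : ℝ) ∈ S x ∧ r < q) ∨
      (¬ ((∃ q : ℚ, (q : ℝ) ∉ S x) ∧ ∃ q : ℚ, (q : ℝ) ∈ S x) ∧ r < 0)} := by
    ext x
    simp only [mem_preimage, mem_Ioi, mem_ofPred_eq]
    by_cases h : (∃ q : ℚ, (q : ℝ) ∉ S x) ∧ ∃ q : ℚ, (q : ℝ) ∈ S x
    · obtain ⟨⟨p, hp⟩, q, hq⟩ := h
      rw [lt_csSup_iff (s := S x) ⟨p, fun y hy => not_lt.1 fun h => hp (hl x h.le hy)⟩ ⟨q, hq⟩]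
      refine ⟨fun ⟨y, h1, h2⟩ => ?_, fun h => h.elim (fun ⟨_, _, s, h⟩ => ⟨s, h⟩)
        fun h => absurd ⟨⟨p, hp⟩, q, hq⟩ h.1⟩
      obtain ⟨s, h3, h4⟩ := exists_rat_btwn h2
      exact Or.inl ⟨⟨p, hp⟩, ⟨q, hq⟩, s, hl x h4.le h1, h3⟩
    · have : sSup (S x) = 0 := by
        rcases not_and_or.1 h with h | h
        · refine Real.sSup_of_not_bddAbove fun ⟨b, hb⟩ => h ?_
          obtain ⟨q, hq⟩ := exists_rat_gt b
          exact ⟨q, fun h => (hb h).not_gt hq⟩
        · rw [eq_empty_of_forall_notMem (s := S x) fun y hy => h ?_, Real.sSup_empty]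
          obtain ⟨q, hq⟩ := exists_rat_lt y
          exact ⟨q, hl x hq.le hy⟩
      rw [this]
      tauto
  rw [e]
  have h1 := Measurable.exists fun q => (hm q).not
  have h2 := Measurable.exists hm
  exact ((h1.and (h2.and (Measurable.exists fun q => (hm q).and measurable_const))).or
    ((h1.and h2).not.and measurable_const)).setOf

variable {F : α → Filter ℚ} (hF : ∀ P : α → ℚ → Prop, (∀ d, Measurable fun x => P x d) →
  Measurable fun x => ∀ᶠ d in F x, P x d)
include hF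

theorem meas_liminf {H : α → ℚ → ℝ} (hH : ∀ d, Measurable fun x => H x d) :
    Measurable fun x => liminf (H x) (F x) :=
  measurable_sSup_lower (S := fun x => {r | ∀ᶠ d in F x, r ≤ H x d})
    (fun _ _ _ h h' => h'.mono fun _ h'' => h.trans h'')
    fun _ => hF _ fun d => measurable_const.le' (hH d)

theorem meas_tendsto {H : α → ℚ → ℝ} (hH : ∀ d, Measurable fun x => H x d) {c : α → ℝ}
    (hc : Measurable c) : Measurable fun x => Tendsto (H x) (F x) (𝓝 (c x)) := by
  have e : (fun x => Tendsto (H x) (F x) (𝓝 (c x))) = fun x => ∀ p q : ℚ, p < c x → c x < q →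
      ∀ᶠ d in F x, p < H x d ∧ H x d < q := by
    funext x
    refine propext ⟨fun h p q h1 h2 => h (Ioo_mem_nhds h1 h2), fun h => ?_⟩
    rw [(nhds_basis_Ioo _).tendsto_right_iff]
    rintro ⟨u, v⟩ ⟨h1, h2⟩
    obtain ⟨p, a1, a2⟩ := exists_rat_btwn h1
    obtain ⟨q, b1, b2⟩ := exists_rat_btwn h2
    exact (h p q a2 b1).mono fun d hd => ⟨a1.trans hd.1, hd.2.trans b2⟩
  rw [e]
  exact Measurable.forall fun p => Measurable.forall fun q => (measurable_const.lt hc).imp
    ((hc.lt measurable_const).imp (hF _ fun d =>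
      (measurable_const.lt (hH d)).and ((hH d).lt measurable_const)))

omit hF in
theorem meas_small {H : α → ℕ → ℝ} (hH : ∀ n, Measurable fun x => H x n) (L : ℕ) :
    Measurable fun x => ∃ s : Finset ℕ, s.card ≤ L ∧ ∀ n, H x n ≠ 0 → n ∈ s :=
  Measurable.exists fun _ => measurable_const.and (Measurable.forall fun n =>
    ((hH n).eq_const 0).not.imp measurable_const)

end meas

/-- the data `H` have limits along `F` and locally bounded overlap -/
def Good (H : ℕ → ℚ → ℝ) (F : Filter ℚ) : Prop :=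
  (∃ᶠ _ in F, True) ∧ (∀ n, Tendsto (H n) F (𝓝 (liminf (H n) F))) ∧
    ∃ L : ℕ, ∀ᶠ d in F, ∃ s : Finset ℕ, s.card ≤ L ∧ ∀ n, H n d ≠ 0 → n ∈ s

theorem meas_good {α : Type} [MeasurableSpace α] {F : α → Filter ℚ}
    (hF : ∀ P : α → ℚ → Prop, (∀ d, Measurable fun x => P x d) →
      Measurable fun x => ∀ᶠ d in F x, P x d) {H : α → ℕ → ℚ → ℝ}
    (hH : ∀ n d, Measurable fun x => H x n d) : Measurable fun x => Good (H x) (F x) :=
  (hF _ fun _ => measurable_const).not.and ((Measurable.forall fun n =>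
    meas_tendsto hF (hH n) (meas_liminf hF (hH n))).and
      (Measurable.exists fun L => hF _ fun d => meas_small (fun n => hH n d) L))

/-- the Cohen space of the template -/
abbrev Ω : Type := Om Nd

/-- the data of a node -/
def dat : Nd → Ω → ℕ → ℚ → ℝ
  | .base => 0
  | .mk c H => fun ω => H.1 fun k => ω (c k)

theorem meas_dat (δ : Nd) : Measurable (dat δ) := by
  cases δ with
  | base => exact measurable_const
  | mk c H => exact H.2.comp (by fun_prop)

theorem dep_dat (δ : Nd) : DependsOn (dat δ) (below δ) := by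
  cases δ with
  | base => exact fun _ _ _ => rfl
  | mk c H =>
    exact fun _ _ h => congrArg H.1 (funext fun k => h _ (Or.inr (mem_iUnion.2 ⟨k, Or.inl rfl⟩)))

open Classical in
noncomputable def Tof (δ : Nd) (F : Ω → ℝ → Filter ℚ) (ω : Ω) (n : ℕ) (z : ℝ) : ℝ :=
  if ω ∈ ker (below δ) {ω | ∀ z, Good (dat δ ω) (F ω z)} then liminf (dat δ ω n) (F ω z) else 0

/-- partial sums over `A` -/
noncomputable def psum (A : ℕ → Bool) (t : ℕ → ℝ) (s : Finset ℕ) : ℝ :=
  ∑ n ∈ s, if A n then t n else 0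

noncomputable def gsum (A : ℕ → Bool) (t : ℕ → ℝ) : ℝ :=
  liminf (fun N => psum A t (Finset.range N)) atTop

theorem gsum_eq {A : ℕ → Bool} {t : ℕ → ℝ} {s : Finset ℕ} (h : ∀ n, A n → t n ≠ 0 → n ∈ s) :
    gsum A t = psum A t s := by
  refine Tendsto.liminf_eq (tendsto_const_nhds.congr' ?_)
  obtain ⟨N, hN⟩ := s.exists_nat_subset_range
  filter_upwards [eventually_ge_atTop N] with M hM
  refine Finset.sum_subset (hN.trans (Finset.range_mono hM)) fun n _ hn => ?_
  split_ifs with h'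
  exacts [by_contra fun h'' => hn (h n h' h''), rfl]

open Classical in
noncomputable def gstep (δ : Nd) (G : Nd → Ω → ℝ → ℝ) (ω : Ω) (z : ℝ) : ℝ :=
  if δ = .base then z else gsum (ω δ) fun n => Tof δ (fun ω => fl (G · ω) (below δ)) ω n z

open Classical in
/-- the generating functions -/
noncomputable def g : Nd → Ω → ℝ → ℝ :=
  wf_below.fix fun δ ih => gstep δ fun ε => if h : ε ∈ below δ then ih ε h else 0

/-- the neighbourhood filter, on the rationals, for the stages in `a` -/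
noncomputable abbrev F (a : Set Nd) (ω : Ω) : ℝ → Filter ℚ := fl (g · ω) a

/-- the summands of a node -/
noncomputable def T (δ : Nd) : Ω → ℕ → ℝ → ℝ := Tof δ (F (below δ))

theorem g_base (ω : Ω) (z : ℝ) : g .base ω z = z := by
  rw [g, WellFounded.fix_eq, gstep, if_pos rfl]

theorem g_eq {δ : Nd} (h : δ ≠ .base) (ω : Ω) (z : ℝ) :
    g δ ω z = gsum (ω δ) fun n => T δ ω n z := by
  rw [g, WellFounded.fix_eq, gstep, if_neg h, T]
  congr 1
  funext n
  congr 1
  funext ω
  exact fl_congr fun ε hε => by rw [dif_pos hε]; rfl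

theorem dep_F_aux {a : Set Nd} (ha : ∀ δ ∈ a, below δ ⊆ a)
    (h : ∀ δ ∈ a, DependsOn (g δ) (insert δ (below δ))) : DependsOn (F a) a :=
  fun _ _ e => fl_congr fun δ hδ => h δ hδ fun ε hε => e ε (insert_subset hδ (ha δ hδ) hε)

theorem dep_T_aux {δ : Nd} (h : DependsOn (F (below δ)) (below δ)) :
    DependsOn (T δ) (below δ) := by
  intro ω ω' e
  funext n z
  have := (isKer_ker (below δ) {ω | ∀ z, Good (dat δ ω) (F (below δ) ω z)}).2.1 e
  simp only [T, Tof, dep_dat δ e, h e]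
  exact congrArg (fun p : Prop => @ite ℝ p (Classical.propDecidable p) _ 0) this

theorem dep_g (δ : Nd) : DependsOn (g δ) (insert δ (below δ)) := by
  induction δ using wf_below.induction with
  | _ δ ih =>
    intro ω ω' e
    funext z
    by_cases h : δ = .base
    · rw [h, g_base, g_base]
    · rw [g_eq h, g_eq h, e δ (Or.inl rfl),
        dep_T_aux (dep_F_aux (fun _ => below_trans) ih) fun ε hε => e ε (Or.inr hε)]

theorem dep_F {a : Set Nd} (ha : ∀ δ ∈ a, below δ ⊆ a) : DependsOn (F a) a :=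
  dep_F_aux ha fun δ _ => dep_g δ

theorem dep_T (δ : Nd) : DependsOn (T δ) (below δ) := dep_T_aux (dep_F fun _ => below_trans)

theorem meas_psum {α : Type} [MeasurableSpace α] {A : α → ℕ → Bool} {t : α → ℕ → ℝ}
    (hA : Measurable A) (ht : ∀ n, Measurable fun x => t x n) (s : Finset ℕ) :
    Measurable fun x => psum (A x) (t x) s :=
  Finset.measurable_sum _ fun n _ => Measurable.ite
    ((measurable_pi_apply n).comp hA (measurableSet_singleton true)) (ht n) measurable_const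

theorem meas_T_aux {δ : Nd} (h : ∀ ε ∈ below δ, Measurable fun u : Ω × ℝ => g ε u.1 u.2) (n : ℕ) :
    Measurable fun u : Ω × ℝ => T δ u.1 n u.2 :=
  Measurable.ite (measurable_fst (isKer_ker _ _).1) (meas_liminf (fun _ hP =>
    meas_ev (G := fun ε (u : Ω × ℝ) => g ε u.1) (countable_below δ)
      (fun ε hε => (h ε hε).comp (f := fun u : (Ω × ℝ) × ℝ => (u.1.1, u.2)) (by fun_prop))
      measurable_snd hP) fun d => by have := meas_dat δ; fun_prop) measurable_const

theorem meas_g (δ : Nd) : Measurable fun u : Ω × ℝ => g δ u.1 u.2 := by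
  induction δ using wf_below.induction with
  | _ δ ih =>
    by_cases h : δ = .base
    · simp only [h, g_base]; exact measurable_snd
    · simp only [g_eq h]
      exact Measurable.liminf fun N => meas_psum (by fun_prop) (meas_T_aux ih) _

theorem meas_T (δ : Nd) (n : ℕ) : Measurable fun u : Ω × ℝ => T δ u.1 n u.2 :=
  meas_T_aux (fun ε _ => meas_g ε) n

theorem meas_Box {α : Type} [MeasurableSpace α] {w : α → Ω} (hw : Measurable w) {z : α → ℝ}
    (hz : Measurable z) (β : Bx) : Measurable fun x => z x ∈ Box (g · (w x)) β :=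
  meas_box (G := fun ε x => g ε (w x))
    (fun t _ => (meas_g t.1).comp (f := fun u : α × ℝ => (w u.1, u.2)) (by fun_prop)) hz

theorem meas_F {α : Type} [MeasurableSpace α] {a : Set Nd} (ha : a.Countable) {w : α → Ω}
    (hw : Measurable w) {z : α → ℝ} (hz : Measurable z) (P : α → ℚ → Prop)
    (hP : ∀ d, Measurable fun x => P x d) : Measurable fun x => ∀ᶠ d in F a (w x) (z x), P x d :=
  meas_ev (G := fun ε x => g ε (w x)) ha
    (fun ε _ => (meas_g ε).comp (f := fun u : α × ℝ => (w u.1, u.2)) (by fun_prop)) hz hP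

theorem T_spec (δ : Nd) (ω : Ω) (z : ℝ) :
    (∀ n, Tendsto (fun d : ℚ => T δ ω n d) (F (below δ) ω z) (𝓝 (T δ ω n z))) ∧
    (∃ L : ℕ, ∀ᶠ d : ℚ in F (below δ) ω z, ∃ s : Finset ℕ, s.card ≤ L ∧ ∀ n, T δ ω n d ≠ 0 → n ∈ s) ∧
    ∃ s : Finset ℕ, ∀ n, T δ ω n z ≠ 0 → n ∈ s := by
  by_cases h : ω ∈ ker (below δ) {ω | ∀ z, Good (dat δ ω) (F (below δ) ω z)}
  · have hg := (isKer_ker _ _).2.2 h
    have e : ∀ n (d : ℚ), T δ ω n d = dat δ ω n d := fun n d => by
      simp only [T, Tof, if_pos h]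
      exact tendsto_nhds_unique (((hg d).2.1 n).mono_left (pure_le_fl _ _ d))
        (tendsto_pure_nhds _ _)
    obtain ⟨h1, h2, L, h3⟩ := hg z
    have h4 : ∀ n, Tendsto (dat δ ω n) (F (below δ) ω z) (𝓝 (T δ ω n z)) := fun n => by
      simp only [T, Tof, if_pos h]; exact h2 n
    simp only [e]
    refine ⟨h4, ⟨L, h3⟩, ?_⟩
    have hfin : {n | T δ ω n z ≠ 0}.Finite := by
      by_contra hn
      obtain ⟨t, t1, t2⟩ := Set.Infinite.exists_subset_card_eq hn (L + 1)
      obtain ⟨d, -, ⟨s, s1, s2⟩, h5⟩ := (h1.and_eventually (h3.and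
        ((eventually_all_finset t).2 fun n hn => (h4 n).eventually_ne (t1 hn)))).exists
      have := Finset.card_le_card (fun n hn => s2 n (h5 n hn) : t ⊆ s)
      omega
    exact ⟨hfin.toFinset, fun n hn => hfin.mem_toFinset.2 hn⟩
  · simp only [T, Tof, if_neg h]
    exact ⟨fun _ => tendsto_const_nhds, ⟨0, Eventually.of_forall fun _ => ⟨∅, by simp⟩⟩, ∅, by simp⟩

/-- every countably supported datum occurs at a node with prescribed support -/
theorem exists_node {a : Set Nd} (ha : Cl a) {H : Ω → ℕ → ℚ → ℝ} (hH : Measurable H)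
    (hd : DependsOn H a) : ∃ δ, δ ≠ .base ∧ ∀ᵇ ω, (∀ z, Good (H ω) (F a ω z)) →
      ∀ n z c, Tendsto (H ω n) (F a ω z) (𝓝 c) → T δ ω n z = c := by
  classical
  obtain ⟨c, rfl⟩ := ha.cnt.exists_eq_range ⟨_, ha.base⟩
  let e : (ℕ → ℕ → Bool) → Ω := fun η δ => if h : ∃ k, c k = δ then η h.choose else fun _ => false
  have me : Measurable e := measurable_pi_lambda _ fun δ => by
    by_cases h : ∃ k, c k = δ
    · simp only [e, dif_pos h]; fun_prop
    · simp only [e, dif_neg h]; fun_prop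
  let δ : Nd := .mk c ⟨H ∘ e, hH.comp me⟩
  have e1 : below δ = range c := by
    refine Subset.antisymm (insert_subset ha.base (iUnion_subset fun k => insert_subset
      (mem_range_self k) (ha.sub _ (mem_range_self k)))) ?_
    rintro _ ⟨k, rfl⟩
    exact Or.inr (mem_iUnion.2 ⟨k, Or.inl rfl⟩)
  have e2 : dat δ = H := funext fun ω => hd fun ε hε => by
    have hε : ∃ k, c k = ε := hε
    simp only [e, dif_pos hε, hε.choose_spec]
  refine ⟨δ, nofun, ?_⟩
  filter_upwards [ae_ker ha.cnt (P := fun ω z => Good (H ω) (F (range c) ω z))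
    (meas_good (meas_F ha.cnt measurable_fst measurable_snd) fun n d => by fun_prop)
    fun ω ω' h => by simp only [hd h, dep_F ha.sub h]] with ω h1 h2 n z x hx
  simp only [T, Tof, e1, e2, if_pos (h1 h2)]
  have : (F (range c) ω z).NeBot := frequently_true_iff_neBot _ |>.1 (h2 z).1
  exact hx.liminf_eq

end Pool.Agent.Lib.MP_5ffd28_gt.Cohen
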