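import Pool.Agent.Lib.MP_5ffd28_gt.Cohen.Line

/-! Topologies in the generic extension. -/

namespace Pool.Agent.Lib.MP_5ffd28_gt.Cohen

open Set Filter Topology MeasureTheory Pool.Agent.Shared.Forcing Pool.Agent.Lib.MP_23bd8d_gt

set_option synthInstance.maxSize 4000

variable {U : Ultra BB}

instance (a b c d : HN) : Dec fun U => SubTop (EU U) (cls U a) (cls U b) (cls U c) (cls U d) := by
  unfold SubTop; infer_instance

instance (a b c d e : HN) :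
    Dec fun U => Cts (EU U) (cls U a) (cls U b) (cls U c) (cls U d) (cls U e) := by
  unfold Cts; infer_instance

instance (a b c : HN) : Dec fun U => OpenMap (EU U) (cls U a) (cls U b) (cls U c) := by
  unfold OpenMap; infer_instance

instance (a b c : HN) : Dec fun U => TopAb (EU U) (cls U a) (cls U b) (cls U c) := by
  unfold TopAb; infer_instance

instance (a b c : HN) : Dec fun U => Additive (EU U) (cls U a) (cls U b) (cls U c) := by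
  unfold Additive; infer_instance

instance (a b c d e f : HN) :
    Dec fun U => Free (EU U) (cls U a) (cls U b) (cls U c) (cls U d) (cls U e) (cls U f) := by
  unfold Free; infer_instance

theorem Cts.pt {f X T Y S x y V : MU U} (h : Cts (EU U) f X T Y S) (h1 : Maps (EU U) f x y)
    (h2 : EU U V S) (h3 : EU U y V) :
    ∃ W, EU U W T ∧ EU U x W ∧ ∀ x' y', EU U x' W → Maps (EU U) f x' y' → EU U y' V := by
  obtain ⟨f, rfl⟩ := cls_surj f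
  obtain ⟨V, rfl⟩ := cls_surj V
  obtain ⟨W, hW⟩ := md_sep (fun U x => ∃ y, EU U y (cls U V) ∧ Maps (EU U) (cls U f) x y) U X
  refine ⟨W, h.2 _ W h2 fun z => (hW z).trans ⟨fun h => h.2, fun ⟨y, a, b⟩ =>
    ⟨(h.1.mem b).1, y, a, b⟩⟩, (hW x).2 ⟨(h.1.mem h1).1, y, h3, h1⟩, fun x' y' a b => ?_⟩
  obtain ⟨-, z, c, d⟩ := (hW x').1 a
  exact h.1.uniq d b ▸ c

theorem open_of_nhds {X T V : MU U} (hT : IsTop (EU U) X T)
    (h : ∀ x, EU U x V → ∃ W, EU U W T ∧ EU U x W ∧ Sub (EU U) W V) : EU U V T := by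
  obtain ⟨V, rfl⟩ := cls_surj V
  obtain ⟨S, hS⟩ := md_sep (fun U W => Sub (EU U) W (cls U V)) U T
  refine hT.2.2.2 S _ (fun W hW => ((hS W).1 hW).1) fun z => ⟨fun hz => ?_,
    fun ⟨W, a, b⟩ => ((hS W).1 a).2 z b⟩
  obtain ⟨W, a, b, c⟩ := h z hz
  exact ⟨W, (hS W).2 ⟨a, c⟩, b⟩

theorem cts_of {f X T Y S : MU U} (hT : IsTop (EU U) X T) (hf : IsFn (EU U) f X Y)
    (h : ∀ x y V, Maps (EU U) f x y → EU U V S → EU U y V →
      ∃ W, EU U W T ∧ EU U x W ∧ ∀ x' y', EU U x' W → Maps (EU U) f x' y' → EU U y' V) :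
    Cts (EU U) f X T Y S := by
  refine ⟨hf, fun V W hV hW => open_of_nhds hT fun x hx => ?_⟩
  obtain ⟨y, a, b⟩ := (hW x).1 hx
  obtain ⟨W', c, d, e⟩ := h x y V b hV a
  refine ⟨W', c, d, fun z hz => ?_⟩
  obtain ⟨y', -, h'⟩ := hf.total (hT.1 _ c z hz)
  exact (hW z).2 ⟨y', e z y' hz h', h'⟩

theorem exists_subTop (S : MU U) : ∃ T, SubTop (EU U) (RR U) (LL U) S T := by
  obtain ⟨P, hP⟩ := md_power tame U S
  obtain ⟨S, rfl⟩ := cls_surj S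
  obtain ⟨T, hT⟩ := md_sep (fun U V => ∀ x, EU U x V → ∃ a b, EU U a (RR U) ∧ EU U b (RR U) ∧
    Maps (EU U) (LL U) a x ∧ Maps (EU U) (LL U) x b ∧ ∀ y, EU U y (cls U S) →
      Maps (EU U) (LL U) a y → Maps (EU U) (LL U) y b → EU U y V) U P
  exact ⟨T, fun V => (hT V).trans (and_congr_left' (hP V))⟩

theorem SubTop.use {S T V : MU U} (h : SubTop (EU U) (RR U) (LL U) S T) (hV : EU U V T) {x : MF}
    (hx : EU U (pt U x) V) : ∃ a b : MF, (Ae U fun ω => a.1 ω < x.1 ω ∧ x.1 ω < b.1 ω) ∧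
      ∀ y, EU U y S → Maps (EU U) (LL U) (pt U a) y → Maps (EU U) (LL U) y (pt U b) → EU U y V := by
  obtain ⟨a, b, h1, h2, h3, h4, h5⟩ := ((h V).1 hV).2 _ hx
  obtain ⟨a, rfl⟩ := real_cases h1
  obtain ⟨b, rfl⟩ := real_cases h2
  exact ⟨a, b, (lt_pt.1 h3).and (lt_pt.1 h4), h5⟩

theorem SubTop.iv {S T : MU U} (h : SubTop (EU U) (RR U) (LL U) S T) (a b : MF) :
    ∃ W, EU U W T ∧ ∀ y, EU U y W ↔ EU U y S ∧ Maps (EU U) (LL U) (pt U a) y ∧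
      Maps (EU U) (LL U) y (pt U b) := by
  obtain ⟨W, hW⟩ := md_sep (fun U y => Maps (EU U) (LL U) (pt U a) y ∧
    Maps (EU U) (LL U) y (pt U b)) U S
  exact ⟨W, (h W).2 ⟨fun y hy => ((hW y).1 hy).1, fun x hx => ⟨_, _, pt_mem a, pt_mem b,
    ((hW x).1 hx).2.1, ((hW x).1 hx).2.2, fun y h1 h2 h3 => (hW y).2 ⟨h1, h2, h3⟩⟩⟩, hW⟩

theorem SubTop.isTop {S T : MU U} (h : SubTop (EU U) (RR U) (LL U) S T)
    (hS : Sub (EU U) S (RR U)) : IsTop (EU U) S T := by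
  refine ⟨fun V hV => ((h V).1 hV).1, (h S).2 ⟨fun _ => id, fun x hx => ?_⟩,
    fun V V' Z hV hV' hZ => (h Z).2 ⟨fun z hz => ((h V).1 hV).1 z ((hZ z).1 hz).1, fun x hx => ?_⟩,
    fun K Z hK hZ => (h Z).2 ⟨fun z hz => ?_, fun x hx => ?_⟩⟩
  · obtain ⟨⟨a, h1⟩, b, h2⟩ := isReal_RR.2.2.2.2.1 x (hS x hx)
    exact ⟨a, b, h1.1, h2.1, h1.2, h2.2, fun y h _ _ => h⟩
  · obtain ⟨h1, h2⟩ := (hZ x).1 hx
    obtain ⟨x, rfl⟩ := real_cases (hS x (((h V).1 hV).1 x h1))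
    obtain ⟨a, b, a1, a2⟩ := h.use hV h1
    obtain ⟨c, d, c1, c2⟩ := h.use hV' h2
    refine ⟨_, _, pt_mem ⟨_, a.2.max c.2⟩, pt_mem ⟨_, b.2.min d.2⟩,
      lt_pt.2 ((a1.and c1).mono fun _ h => max_lt h.1.1 h.2.1),
      lt_pt.2 ((a1.and c1).mono fun _ h => lt_min h.1.2 h.2.2), fun y hy h3 h4 => ?_⟩
    obtain ⟨y, rfl⟩ := real_cases (hS y hy)
    rw [lt_pt] at h3 h4
    exact (hZ _).2 ⟨a2 _ hy (lt_pt.2 (h3.mono fun _ h => (max_lt_iff.1 h).1))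
      (lt_pt.2 (h4.mono fun _ h => (lt_min_iff.1 h).1)), c2 _ hy
      (lt_pt.2 (h3.mono fun _ h => (max_lt_iff.1 h).2))
      (lt_pt.2 (h4.mono fun _ h => (lt_min_iff.1 h).2))⟩
  · obtain ⟨V, h1, h2⟩ := (hZ z).1 hz
    exact ((h V).1 (hK V h1)).1 z h2
  · obtain ⟨V, h1, h2⟩ := (hZ x).1 hx
    obtain ⟨a, b, a1, a2, a3, a4, a5⟩ := ((h V).1 (hK V h1)).2 x h2
    exact ⟨a, b, a1, a2, a3, a4, fun y b1 b2 b3 => (hZ y).2 ⟨V, h1, a5 y b1 b2 b3⟩⟩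

/-- the order topology of the line -/
noncomputable def TRn : HN :=
  (exists_witness fun U T => SubTop (EU U) (RR U) (LL U) (RR U) T).choose

noncomputable abbrev TR (U : Ultra BB) : MU U := cls U TRn

theorem subTop_TR : SubTop (EU U) (RR U) (LL U) (RR U) (TR U) :=
  (exists_witness fun U T => SubTop (EU U) (RR U) (LL U) (RR U) T).choose_spec U (exists_subTop _)

theorem cts_real {Φ : Ultra BB → Prop} [Dec Φ] {f X T : HN}
    (H : ∀ U, Φ U → ∀ x (y : MF) (p q : ℚ), Maps (EU U) (cls U f) x (pt U y) →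
      (Ae U fun ω => p < y.1 ω ∧ y.1 ω < q) → ∃ W, EU U W (cls U T) ∧ EU U x W ∧
        ∀ x' (y' : MF), EU U x' W → Maps (EU U) (cls U f) x' (pt U y') →
          Ae U fun ω => p < y'.1 ω ∧ y'.1 ω < q)
    (h : Φ U) (hT : IsTop (EU U) (cls U X) (cls U T)) (hf : IsFn (EU U) (cls U f) (cls U X) (RR U)) :
    Cts (EU U) (cls U f) (cls U X) (cls U T) (RR U) (TR U) := by
  refine cts_of hT hf fun x y V h1 h2 h3 => ?_
  obtain ⟨y, rfl⟩ := real_cases (hf.mem h1).2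
  obtain ⟨a, b, h4, h5⟩ := subTop_TR.use h2 h3
  obtain ⟨x, rfl⟩ := cls_surj x
  obtain ⟨V, rfl⟩ := cls_surj V
  have h6 := And.intro h (And.intro hf (And.intro h1 h5))
  revert h6
  refine wlog_ex (P := fun (u : ℚ × ℚ) ω => (a.1 ω < u.1 ∧ u.2 < b.1 ω) ∧
    u.1 < y.1 ω ∧ y.1 ω < u.2) (fun u => ((a.2.lt measurable_const).and
      (measurable_const.lt b.2)).and ((measurable_const.lt y.2).and (y.2.lt measurable_const))) U
    (h4.mono fun ω h => ?_) ?_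
  · obtain ⟨p, a1, a2⟩ := exists_rat_btwn h.1
    obtain ⟨q, b1, b2⟩ := exists_rat_btwn h.2
    exact ⟨(p, q), ⟨a1, b2⟩, a2, b1⟩
  · rintro U ⟨p, q⟩ h4 ⟨h, hf, h1, h5⟩
    obtain ⟨W, a1, a2, a3⟩ := H U h _ y p q h1 (h4.mono fun _ h => h.2)
    refine ⟨W, a1, a2, fun x' y' b1 b2 => ?_⟩
    obtain ⟨y', rfl⟩ := real_cases (hf.mem b2).2
    have := h4.and (a3 x' y' b1 b2)
    exact h5 _ (pt_mem _) (lt_pt.2 (this.mono fun _ h => h.1.1.1.trans h.2.1))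
      (lt_pt.2 (this.mono fun _ h => h.2.2.trans h.1.1.2))

theorem topAb_of {T : MU U} (hT : IsTop (EU U) (RR U) T)
    (h : ∀ (y z : MF) W, EU U W T → EU U (pt U z) W → ∃ V V', EU U V T ∧ EU U V' T ∧
      EU U (pt U (z.add y)) V ∧ EU U (pt U y) V' ∧ ∀ y' z' : MF, EU U (pt U (z'.add y')) V →
        EU U (pt U y') V' → EU U (pt U z') W) : TopAb (EU U) (RR U) (AA U) T := by
  refine ⟨fun x y hx hy => ?_, fun x y z u v w hx hy hz h1 h2 h3 => ?_, fun x y z hx hy h1 => ?_,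
    ⟨_, pt_mem (cst 0), fun x hx => ?_⟩, hT, fun x y z W hy hz h1 h2 h3 => ?_⟩
  · obtain ⟨x, rfl⟩ := real_cases hx
    obtain ⟨y, rfl⟩ := real_cases hy
    exact ⟨_, pt_mem _, fun _ => op_pt⟩
  · obtain ⟨x, rfl⟩ := real_cases hx
    obtain ⟨y, rfl⟩ := real_cases hy
    obtain ⟨z, rfl⟩ := real_cases hz
    rw [op_pt] at h1 h3
    subst h1 h3
    rw [op_pt.1 h2, op_ae]
    exact Ae.of_all fun _ => add_assoc _ _ _
  · obtain ⟨x, rfl⟩ := real_cases hx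
    obtain ⟨y, rfl⟩ := real_cases hy
    rw [op_pt.1 h1, op_ae]
    exact Ae.of_all fun _ => add_comm _ _
  · obtain ⟨x, rfl⟩ := real_cases hx
    exact ⟨op_ae.2 (Ae.of_all fun _ => (add_zero _).symm), _, pt_mem ⟨_, x.2.neg⟩,
      op_ae.2 (Ae.of_all fun _ => (add_neg_cancel _).symm)⟩
  · obtain ⟨y, rfl⟩ := real_cases hy
    obtain ⟨z, rfl⟩ := real_cases hz
    obtain ⟨V, V', a1, a2, a3, a4, a5⟩ := h y z W h2 h3
    refine ⟨V, V', a1, a2, op_pt.1 h1 ▸ a3, a4, fun x' y' z' b1 b2 b3 b4 => ?_⟩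
    obtain ⟨y', rfl⟩ := real_cases (hT.1 _ a2 _ b2)
    obtain ⟨z', rfl⟩ := real_cases b3
    exact a5 y' z' (op_pt.1 b4 ▸ b1) b2

theorem topAb_TR : TopAb (EU U) (RR U) (AA U) (TR U) := by
  refine topAb_of (subTop_TR.isTop fun _ => id) fun y z W h1 h2 => ?_
  obtain ⟨a, b, h3, h4⟩ := subTop_TR.use h1 h2
  let r : Ω → ℝ := fun ω => min (z.1 ω - a.1 ω) (b.1 ω - z.1 ω) / 2
  have hr : Measurable r := ((z.2.sub a.2).min (b.2.sub z.2)).div_const 2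
  have h5 : Ae U fun ω => 0 < r ω := h3.mono fun ω h =>
    half_pos (lt_min (sub_pos.2 h.1) (sub_pos.2 h.2))
  obtain ⟨V, v1, v2⟩ := (subTop_TR (U := U)).iv ⟨_, (z.add y).2.sub hr⟩ ⟨_, (z.add y).2.add hr⟩
  obtain ⟨V', w1, w2⟩ := (subTop_TR (U := U)).iv ⟨_, y.2.sub hr⟩ ⟨_, y.2.add hr⟩
  refine ⟨V, V', v1, w1, (v2 _).2 ⟨pt_mem _, lt_pt.2 (h5.mono fun _ => sub_lt_self _),
    lt_pt.2 (h5.mono fun _ => lt_add_of_pos_right _)⟩, (w2 _).2 ⟨pt_mem _,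
    lt_pt.2 (h5.mono fun _ => sub_lt_self _), lt_pt.2 (h5.mono fun _ => lt_add_of_pos_right _)⟩,
    fun y' z' a1 a2 => ?_⟩
  simp only [v2, w2, lt_pt] at a1 a2
  have := (a1.2.1.and a1.2.2).and (a2.2.1.and a2.2.2)
  refine h4 _ (pt_mem _) (lt_pt.2 (this.mono fun ω h => ?_)) (lt_pt.2 (this.mono fun ω h => ?_))
  all_goals
    simp only [MF.add, r, Pi.add_apply, Pi.sub_apply] at h
    linarith [h.1.1, h.1.2, h.2.1, h.2.2, min_le_left (z.1 ω - a.1 ω) (b.1 ω - z.1 ω),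
      min_le_right (z.1 ω - a.1 ω) (b.1 ω - z.1 ω)]

/-- the indiscrete group topology on the reals -/
theorem exists_indisc : ∃ T, TopAb (EU U) (RR U) (AA U) T ∧
    ∀ V x y, EU U V T → EU U x V → EU U y (RR U) → EU U y V := by
  obtain ⟨P, hP⟩ := md_power tame U (RR U)
  obtain ⟨T, hT⟩ := md_sep (fun U V => ∀ x y, EU U x V → EU U y (RR U) → EU U y V) U P
  have hR : EU U (RR U) T := (hT _).2 ⟨(hP _).2 fun _ => id, fun _ _ _ => id⟩
  refine ⟨T, topAb_of ⟨fun V hV => (hP V).1 ((hT V).1 hV).1, hR, fun V V' Z h1 h2 h3 => (hT Z).2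
    ⟨(hP Z).2 fun z hz => (hP V).1 ((hT V).1 h1).1 z ((h3 z).1 hz).1, fun x y hx hy => (h3 y).2
      ⟨((hT V).1 h1).2 x y ((h3 x).1 hx).1 hy, ((hT V').1 h2).2 x y ((h3 x).1 hx).2 hy⟩⟩,
    fun K Z h1 h2 => (hT Z).2 ⟨(hP Z).2 fun z hz => ?_, fun x y hx hy => ?_⟩⟩
    fun y z W h1 h2 => ⟨_, _, hR, hR, pt_mem _, pt_mem _, fun _ _ _ _ =>
      ((hT W).1 h1).2 _ _ h2 (pt_mem _)⟩, fun V x y hV => ((hT V).1 hV).2 x y⟩
  · obtain ⟨V, a, b⟩ := (h2 z).1 hz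
    exact (hP V).1 ((hT V).1 (h1 V a)).1 z b
  · obtain ⟨V, a, b⟩ := (h2 x).1 hx
    exact (h2 y).2 ⟨V, a, ((hT V).1 (h1 V a)).2 x y b hy⟩

/-- basic open sets -/
noncomputable def bx (β : Bx) : SN := setHat fun ω z => z ∈ Box (g · ω) β

theorem el_bx {β : Bx} {x : MF} :
    EU U (pt U x) (sm U (bx β)) ↔ Ae U fun ω => x.1 ω ∈ Box (g · ω) β := el_setHat

def IsT (U : Ultra BB) (T : MU U) : Prop :=
  ∀ V, EU U V T ↔ Sub (EU U) V (RR U) ∧ ∀ x, EU U x V →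
    ∃ N, EU U N (sm U (nm bx fun _ => ⊤)) ∧ EU U x N ∧ Sub (EU U) N V

theorem exists_T : ∃ T : HN, ∀ U, IsT U (cls U T) := by
  have : ∀ X, Dec fun U => IsT U (cls U X) := fun X => by unfold IsT; infer_instance
  obtain ⟨T, hT⟩ := exists_witness IsT
  refine ⟨T, fun U => hT U ?_⟩
  obtain ⟨P, hP⟩ := md_power tame U (RR U)
  obtain ⟨T, hT⟩ := md_sep (fun U V => ∀ x, EU U x V →
    ∃ N, EU U N (sm U (nm bx fun _ => ⊤)) ∧ EU U x N ∧ Sub (EU U) N V) U P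
  exact ⟨T, fun V => (hT V).trans (and_congr_left' (hP V))⟩

/-- the generic topology -/
noncomputable def Tn : HN := exists_T.choose

noncomputable abbrev TT (U : Ultra BB) : MU U := cls U Tn

theorem isT : IsT U (TT U) := exists_T.choose_spec U

theorem bx_mem (β : Bx) : EU U (sm U (bx β)) (TT U) :=
  (isT _).2 ⟨setHat_sub _, fun _ hx => ⟨_, mem_nm bx β U.top_mem, hx, fun _ => id⟩⟩

@[elab_as_elim]
theorem wlog_T {Φ : Ultra BB → Prop} (V X : HN) (U : Ultra BB) (h : EU U (cls U V) (TT U))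
    (hx : EU U (cls U X) (cls U V)) [Dec Φ] (H : ∀ U β, EU U (cls U X) (sm U (bx β)) →
      Sub (EU U) (sm U (bx β)) (cls U V) → Φ U) : Φ U := by
  obtain ⟨N, h1, h2⟩ := ((isT _).1 h).2 _ hx
  obtain ⟨N, rfl⟩ := cls_surj N
  revert h2
  refine wlog_nm N _ _ U h1 ?_
  exact fun U β _ e h => H U β (e ▸ h.1) (e ▸ h.2)

theorem isTop_T : IsTop (EU U) (RR U) (TT U) := by
  refine ⟨fun V hV => ((isT V).1 hV).1, (isT _).2 ⟨fun _ => id, fun x hx => ?_⟩,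
    fun V V' Z hV hV' hZ => (isT Z).2 ⟨fun z hz => ((isT V).1 hV).1 z ((hZ z).1 hz).1,
      fun x hx => ?_⟩, fun K Z hK hZ => (isT Z).2 ⟨fun z hz => ?_, fun x hx => ?_⟩⟩
  · obtain ⟨x, rfl⟩ := real_cases hx
    exact ⟨_, mem_nm bx ∅ U.top_mem, el_bx.2 (Ae.of_all fun _ => by simp [Box]), setHat_sub _⟩
  · obtain ⟨h1, h2⟩ := (hZ x).1 hx
    obtain ⟨x, rfl⟩ := cls_surj x
    obtain ⟨V, rfl⟩ := cls_surj V
    obtain ⟨V', rfl⟩ := cls_surj V'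
    obtain ⟨Z, rfl⟩ := cls_surj Z
    clear hx
    have h3 := And.intro hV' (And.intro hZ h2)
    revert h3
    refine wlog_T V x U hV h1 ?_
    rintro U β a1 a2 ⟨hV', hZ, h2⟩
    have h3 := And.intro a1 (And.intro a2 hZ)
    revert h3
    refine wlog_T V' x U hV' h2 ?_
    rintro U β' b1 b2 ⟨a1, a2, hZ⟩
    refine ⟨_, mem_nm bx (β ∪ β') U.top_mem, ?_, fun z hz => ?_⟩
    · obtain ⟨y, e⟩ := real_cases (setHat_sub _ _ a1)
      rw [e, el_bx] at a1 b1 ⊢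
      exact (a1.and b1).mono fun ω h => box_union _ β β' ▸ h
    · obtain ⟨y, rfl⟩ := real_cases (setHat_sub _ _ hz)
      rw [el_bx] at hz
      simp only [box_union] at hz
      exact (hZ _).2 ⟨a2 _ (el_bx.2 (hz.mono fun _ h => h.1)), b2 _ (el_bx.2 (hz.mono fun _ h => h.2))⟩
  · obtain ⟨V, h1, h2⟩ := (hZ z).1 hz
    exact ((isT V).1 (hK V h1)).1 z h2
  · obtain ⟨V, h1, h2⟩ := (hZ x).1 hx
    obtain ⟨N, a1, a2, a3⟩ := ((isT V).1 (hK V h1)).2 x h2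
    exact ⟨N, a1, a2, fun y hy => (hZ y).2 ⟨V, h1, a3 y hy⟩⟩

theorem cts_T {φ : Ω → ℝ → ℝ} (hφ : JM φ) {a : Set Nd} (ha : a.Countable)
    (h : ∀ ω z, Tendsto (φ ω) (nb (g · ω) a z) (𝓝 (φ ω z))) :
    Cts (EU U) (sm U (fnHat φ)) (RR U) (TT U) (RR U) (TR U) := by
  refine cts_real (Φ := fun _ => True) (fun U _ x y p q h1 h2 => ?_) trivial isTop_T (isFn_fnHat hφ)
  obtain ⟨x, rfl⟩ := real_cases ((isFn_fnHat hφ).mem h1).1
  have := countable_over ha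
  choose K k1 k2 k3 using fun β : {β // Over a β} => exists_ker
    (P := fun ω z => z ∈ Box (g · ω) β → p < φ ω z ∧ φ ω z < q)
    ((meas_Box measurable_fst measurable_snd _).imp
      ((measurable_const.lt hφ).and (hφ.lt measurable_const)))
  suffices ∃ W, EU U W (TT U) ∧ EU U (pt U x) W ∧ ∀ x' y', EU U x' W →
      Maps (EU U) (sm U (fnHat φ)) x' y' → Maps (EU U) (LL U) (pt U (cst p)) y' ∧
        Maps (EU U) (LL U) y' (pt U (cst q)) from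
    this.imp fun W h => ⟨h.1, h.2.1, fun x' y' a b =>
      (lt_pt.1 (h.2.2 _ _ a b).1).and (lt_pt.1 (h.2.2 _ _ a b).2)⟩
  refine wlog_ex (P := fun (β : {β // Over a β}) ω => x.1 ω ∈ Box (g · ω) β ∧ K β ω)
    (fun β => (meas_Box measurable_id x.2 _).and (k1 β)) U
    ((h2.and (pt_eq.1 ((maps_fnHat hφ).1 h1))).mono'
      ((eventually_countable_forall.2 k3).mono fun ω h3 h4 => ?_)) ?_
  · obtain ⟨β, b1, b2⟩ := (nb_basis _ _ _).eventually_iff.1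
      (h ω (x.1 ω) (Ioo_mem_nhds (h4.1.1.trans_eq h4.2) (h4.2.symm.trans_lt h4.1.2)))
    exact ⟨⟨β, b1.1⟩, b1.2, h3 _ fun z hz => b2 hz⟩
  · intro U β hβ
    refine ⟨_, bx_mem β, el_bx.2 (hβ.mono fun _ h => h.1), fun x' y' a1 a2 => ?_⟩
    obtain ⟨x', rfl⟩ := real_cases (setHat_sub _ _ a1)
    have := (hβ.and (el_bx.1 a1)).mono fun ω h => k2 β ω h.1.2 _ h.2
    rw [(maps_fnHat hφ).1 a2]
    exact ⟨lt_pt.2 (this.mono fun _ h => h.1), lt_pt.2 (this.mono fun _ h => h.2)⟩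

theorem tychonoff_T : Tychonoff (EU U) (RR U) (TT U) (RR U) (TR U) := by
  refine ⟨fun x y hx hy hne => ?_, fun V x hV hx => ?_⟩
  · obtain ⟨x, rfl⟩ := real_cases hx
    obtain ⟨y, rfl⟩ := real_cases hy
    refine wlog_ex (P := fun (u : ℚ × ℚ) ω => x.1 ω ∈ Box (g · ω) {(Nd.base, u)} ∧
      y.1 ω ∉ Box (g · ω) {(Nd.base, u)}) (fun u => (meas_Box measurable_id x.2 _).and
        (meas_Box measurable_id y.2 _).not) U
      ((Ae.of_not (x.2.eq y.2) (pt_eq.not.1 hne)).mono fun ω h => ?_) ?_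
    · have := abs_pos.2 (sub_ne_zero.2 h)
      obtain ⟨p, a1, a2⟩ := exists_rat_btwn (sub_lt_self (x.1 ω) this)
      obtain ⟨q, b1, b2⟩ := exists_rat_btwn (lt_add_of_pos_right (x.1 ω) this)
      refine ⟨(p, q), by simp [Box, g_base, *], ?_⟩
      simp only [Box, Finset.mem_singleton, forall_eq, g_base, mem_ofPred_eq]
      rcases abs_cases (x.1 ω - y.1 ω) with h | h <;> intro h' <;> linarith [h'.1, h'.2]
    · exact fun U u h => ⟨_, bx_mem _, el_bx.2 (h.mono fun _ h => h.1),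
        fun h' => (h.and (el_bx.1 h')).elim fun _ h => h.1.2 h.2⟩
  · obtain ⟨x, rfl⟩ := cls_surj x
    obtain ⟨V, rfl⟩ := cls_surj V
    refine wlog_T V x U hV hx ?_
    intro U β h1 h2
    obtain ⟨x, e⟩ := real_cases (setHat_sub _ _ h1)
    rw [e] at h1 ⊢
    let φ : Ω → ℝ → ℝ := fun ω z => ∏ t ∈ β, max 0 (min (g t.1 ω z - t.2.1) (t.2.2 - g t.1 ω z))
    have hφ : JM φ := Finset.measurable_prod _ fun t _ => measurable_const.max
      (((meas_g _).sub_const _).min ((meas_g _).const_sub _))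
    have h0 : ∀ ω z, φ ω z ≠ 0 ↔ z ∈ Box (g · ω) β := fun ω z => by
      simp [φ, Box, Finset.prod_ne_zero_iff]
    refine ⟨_, _, pt U (cst 0), cts_T hφ (β.finite_toSet.image (·.1)).countable fun ω z =>
      tendsto_finsetProd _ fun t ht => ?_, fun e => ?_, (maps_fnHat hφ).2 rfl, fun y hy h3 => ?_⟩
    · have := tendsto_nb (G := (g · ω)) (mem_image_of_mem (·.1) (Finset.mem_coe.2 ht)) z
      exact tendsto_const_nhds.max ((this.sub_const _).min (this.const_sub _))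
    · exact ((el_bx.1 h1).and (pt_eq.1 e)).elim fun ω h => (h0 ω _).2 h.1 h.2
    · obtain ⟨y, rfl⟩ := real_cases hy
      exact (maps_fnHat hφ).2 (pt_eq.2 ((Ae.of_not (meas_Box measurable_id y.2 β)
        fun h => h3 (h2 _ (el_bx.2 h))).mono fun ω h => (not_not.1 ((h0 ω _).not.2 h)).symm))

end Pool.Agent.Lib.MP_5ffd28_gt.Cohen
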