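import Pool.Agent.Lib.MP_5ffd28_gt.Cohen.Baire

/-! Measurable uniformization modulo meagre sets. -/

namespace Pool.Agent.Lib.MP_5ffd28_gt.Cohen

open Set Filter Topology MeasureTheory

section polish

variable {Z : Type} [TopologicalSpace Z]

/-- the points near which `C` is not meagre -/
def big (C : Set Z) : Set Z := (⋃₀ {V | IsOpen V ∧ ∀ᵇ x, x ∈ V → x ∉ C})ᶜ

theorem isClosed_big (C : Set Z) : IsClosed (big C) :=
  (isOpen_sUnion fun _ h => h.1).isClosed_compl

theorem big_subset_closure (C : Set Z) : big C ⊆ closure C := fun x hx => by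
  by_contra h
  exact hx ⟨(closure C)ᶜ, ⟨isClosed_closure.isOpen_compl,
    Eventually.of_forall fun y hy hC => hy (subset_closure hC)⟩, h⟩

theorem ae_big [SecondCountableTopology Z] (C : Set Z) : ∀ᵇ x, x ∈ C → x ∈ big C := by
  obtain ⟨T, h1, h2, h3⟩ := TopologicalSpace.isOpen_sUnion_countable
    {V : Set Z | IsOpen V ∧ ∀ᵇ x, x ∈ V → x ∉ C} fun _ h => h.1
  filter_upwards [(eventually_countable_ball h1).2 fun V hV => (h2 hV).2] with x hx hC
  rw [big, ← h3]
  rintro ⟨V, hV, h⟩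
  exact hx V hV h hC

theorem ae_big_iUnion [SecondCountableTopology Z] (C : ℕ → Set Z) :
    ∀ᵇ x, x ∈ big (⋃ k, C k) → ∃ k, x ∈ big (C k) := by
  have hB : BaireMeasurableSet (big (⋃ k, C k) ∩ ⋂ k, (big (C k))ᶜ) :=
    (isClosed_big _).isOpen_compl.baireMeasurableSet.of_compl.inter
      (BaireMeasurableSet.iInter fun k => (isClosed_big _).isOpen_compl.baireMeasurableSet)
  obtain ⟨V, hV, e⟩ := hB.residualEq_isOpen
  rw [eventuallyEq_set] at e
  have h1 : ∀ᵇ x, x ∈ V → x ∉ ⋃ k, C k := by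
    filter_upwards [e, eventually_countable_forall.2 fun k => ae_big (C k)] with x h1 h2 hx hC
    obtain ⟨k, hk⟩ := mem_iUnion.1 hC
    exact mem_iInter.1 (h1.2 hx).2 k (h2 k hk)
  filter_upwards [e] with x hx hb
  by_contra hn
  exact hb ⟨V, ⟨hV, h1⟩, hx.1 ⟨hb, mem_iInter.2 fun k hk => hn ⟨k, hk⟩⟩⟩

theorem unif_polish [PolishSpace Z] [MeasurableSpace Z] [BorelSpace Z] {Y : Type}
    [TopologicalSpace Y] [PolishSpace Y] [MeasurableSpace Y] [BorelSpace Y] [Nonempty Y]
    {A : Set (Z × Y)} (hA : MeasurableSet A) :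
    ∃ x : Z → Y, Measurable x ∧ ∀ᵇ η, ∀ y, (η, y) ∈ A → (η, x η) ∈ A := by
  classical
  have h := hA.analyticSet
  rw [AnalyticSet] at h
  rcases h with rfl | ⟨f, hf, rfl⟩
  · exact ⟨fun _ => Classical.arbitrary Y, measurable_const, Eventually.of_forall fun _ _ h => h.elim⟩
  let C : List ℕ → Set Z := fun l => (fun y => (f y).1) '' {y | PiNat.res y l.length = l}
  have hC : ∀ l, C l = ⋃ k, C (k :: l) := by
    intro l
    simp only [C, ← image_iUnion]
    congr 1
    ext y
    simp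
  let p : Z × List ℕ → ℕ → Prop := fun u k =>
    u.1 ∈ big (C (k :: u.2)) ∨ ¬ ∃ k, u.1 ∈ big (C (k :: u.2))
  have hp : ∀ u, ∃ k, p u k := fun u => by
    by_cases h : ∃ k, u.1 ∈ big (C (k :: u.2))
    · exact h.imp fun k => Or.inl
    · exact ⟨0, Or.inr h⟩
  let _ : MeasurableSpace (List ℕ) := ⊤
  have : MeasurableSingletonClass (List ℕ) := ⟨fun _ => trivial⟩
  have mb : ∀ k, Measurable fun u : Z × List ℕ => u.1 ∈ big (C (k :: u.2)) := fun k =>
    measurable_from_prod_countable_left fun l =>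
      (isClosed_big (C (k :: l))).measurableSet.mem
  have mp : Measurable fun u => Nat.find (hp u) :=
    measurable_find hp fun k => ((mb k).or (Measurable.exists mb).not).setOf
  let s : ℕ → Z → List ℕ := fun n =>
    Nat.rec (fun _ => []) (fun _ r η => Nat.find (hp (η, r η)) :: r η) n
  have ms : ∀ n, Measurable (s n) := by
    intro n
    induction n with
    | zero => exact measurable_const
    | succ n ih =>
      exact (measurable_from_prod_countable_right (f := fun u : ℕ × List ℕ => u.1 :: u.2)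
        fun _ => measurable_from_top).comp ((mp.comp (measurable_id.prodMk ih)).prodMk ih)
  let y : Z → ℕ → ℕ := fun η n => Nat.find (hp (η, s n η))
  have my : Measurable y := measurable_pi_lambda _ fun n => mp.comp (measurable_id.prodMk (ms n))
  have hy : ∀ η n, PiNat.res (y η) n = s n η := by
    intro η n
    induction n with
    | zero => rfl
    | succ n ih => rw [PiNat.res_succ, ih]
  refine ⟨fun η => (f (y η)).2, measurable_snd.comp (hf.measurable.comp my), ?_⟩
  filter_upwards [ae_big (C []), eventually_countable_forall.2 fun l : List ℕ =>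
    ae_big_iUnion fun k => C (k :: l)] with η h1 h2 z ⟨u, hu⟩
  have h3 : ∀ n, η ∈ big (C (s n η)) := by
    intro n
    induction n with
    | zero => exact h1 ⟨u, rfl, by simp [hu]⟩
    | succ n ih =>
      rw [hC] at ih
      exact (Nat.find_spec (hp (η, s n η))).resolve_right (not_not.2 (h2 _ ih))
  have h4 : (f (y η)).1 = η := by
    by_contra hne
    obtain ⟨V, U, hV, hU, a1, a2, hd⟩ := t2_separation hne
    obtain ⟨_, ⟨v, n, rfl⟩, b1, b2⟩ := (PiNat.isTopologicalBasis_cylinders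
      (fun _ : ℕ => ℕ)).exists_subset_of_mem_open (a := y η) a1 (hV.preimage hf.fst)
    obtain ⟨_, c1, w, c2, rfl⟩ := mem_closure_iff.1 (big_subset_closure _ (h3 n)) U hU a2
    refine disjoint_left.1 hd (b2 ?_) c1
    rw [← PiNat.mem_cylinder_iff_eq.1 b1, PiNat.cylinder_eq_res, hy]
    have e : (s n η).length = n := by rw [← hy, PiNat.res_length]
    simpa [e] using c2
  exact ⟨y η, Prod.ext h4 rfl⟩

end polish

variable {Λ : Type}

/-- uniformization over the Cohen space, keeping a countable support -/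
theorem unif {Y : Type} [TopologicalSpace Y] [PolishSpace Y] [MeasurableSpace Y] [BorelSpace Y]
    [Nonempty Y] {a : Set Λ} (ha : a.Countable) {P : Om Λ → Y → Prop}
    (hP : Measurable fun u : Om Λ × Y => P u.1 u.2) (hd : DependsOn P a) :
    ∃ x : Om Λ → Y, Measurable x ∧ DependsOn x a ∧ ∃ R : Set (Om Λ), MeasurableSet R ∧
      DependsOn (· ∈ R) a ∧ R ∈ residual (Om Λ) ∧ ∀ ω ∈ R, ∀ y, P ω y → P ω (x ω) := by
  classical
  have := ha.to_subtype
  have : PolishSpace (a → ℕ → Bool) := {}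
  let π : Om Λ → a → ℕ → Bool := fun ω δ => ω δ
  let e : (a → ℕ → Bool) → Om Λ := fun η δ => if h : δ ∈ a then η ⟨δ, h⟩ else fun _ => false
  have me : Measurable e := measurable_pi_lambda _ fun δ => by
    by_cases h : δ ∈ a
    · simp only [e, dif_pos h]; fun_prop
    · simp only [e, dif_neg h]; fun_prop
  have mπ : Measurable π := by fun_prop
  have dπ : DependsOn π a := fun x y h => funext fun δ => h δ δ.2
  have he : ∀ ω, P (e (π ω)) = P ω := fun ω => hd fun δ h => by simp [e, π, h]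
  obtain ⟨x, hx, h⟩ := unif_polish (A := {u : (a → ℕ → Bool) × Y | P (e u.1) u.2})
    (hP.comp (me.prodMap measurable_id)).setOf
  obtain ⟨R, h1, h2, h3⟩ := mem_residual.1 h
  have ho : IsOpenMap π := isOpenMap_fst.comp
    (Homeomorph.piEquivPiSubtypeProd (· ∈ a) fun _ => ℕ → Bool).isOpenMap
  refine ⟨x ∘ π, hx.comp mπ, fun _ _ h => congrArg x (dπ h), π ⁻¹' R, mπ h2.measurableSet,
    fun _ _ h => congrArg (· ∈ R) (dπ h), tendsto_residual_of_isOpenMap (by fun_prop) ho
      (residual_of_dense_Gδ h2 h3), fun ω hω y hy => ?_⟩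
  rw [← he] at hy ⊢
  exact h1 hω y hy

theorem exists_dep_prod {Y : Type} [MeasurableSpace Y] {P : Om Λ → Y → Prop}
    (hP : Measurable fun u : Om Λ × Y => P u.1 u.2) : ∃ a : Set Λ, a.Countable ∧ DependsOn P a := by
  suffices ∀ A : Set (Om Λ × Y), MeasurableSet A →
      ∃ a : Set Λ, a.Countable ∧ DependsOn (fun ω y => (ω, y) ∈ A) a from this _ hP.setOf
  intro A hA
  rw [← generateFrom_prod] at hA
  induction hA with
  | basic u hu =>
    obtain ⟨s, hs, t, -, rfl⟩ := hu
    obtain ⟨a, ha, h⟩ := exists_dep_set hs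
    exact ⟨a, ha, fun x y hxy => funext fun z => congrArg (· ∧ z ∈ t) (h hxy)⟩
  | empty => exact ⟨∅, countable_empty, fun x y _ => rfl⟩
  | compl t _ ih =>
    obtain ⟨a, ha, h⟩ := ih
    exact ⟨a, ha, fun x y hxy => funext fun z => congrArg Not (congrFun (h hxy) z)⟩
  | iUnion f _ ih =>
    choose a ha h using ih
    refine ⟨⋃ i, a i, countable_iUnion ha, fun x y hxy => funext fun z => ?_⟩
    simp only [mem_iUnion]
    exact congrArg _ (funext fun i => congrFun (h i fun δ hδ => hxy δ (mem_iUnion.2 ⟨i, hδ⟩)) z)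

theorem unif' {Y : Type} [TopologicalSpace Y] [PolishSpace Y] [MeasurableSpace Y] [BorelSpace Y]
    [Nonempty Y] {P : Om Λ → Y → Prop} (hP : Measurable fun u : Om Λ × Y => P u.1 u.2) :
    ∃ x : Om Λ → Y, Measurable x ∧ ∀ᵇ ω, ∀ y, P ω y → P ω (x ω) := by
  obtain ⟨a, ha, hd⟩ := exists_dep_prod hP
  obtain ⟨x, h1, -, R, -, -, h2, h3⟩ := unif ha hP hd
  exact ⟨x, h1, mem_of_superset h2 h3⟩

/-- a measurable kernel of a set `P` supported by `a` -/
def IsKer (a : Set Λ) (P K : Set (Om Λ)) : Prop :=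
  MeasurableSet K ∧ DependsOn (· ∈ K) a ∧ K ⊆ P

open Classical in
/-- the largest measurable part of `P` modulo meagre sets, when it exists -/
noncomputable def ker (a : Set Λ) (P : Set (Om Λ)) : Set (Om Λ) :=
  if h : ∃ K, IsKer a P K ∧ ∀ᵇ ω, ω ∈ P → ω ∈ K then h.choose else ∅

theorem isKer_ker (a : Set Λ) (P : Set (Om Λ)) : IsKer a P (ker a P) := by
  unfold ker
  split_ifs with h
  exacts [h.choose_spec.1, ⟨MeasurableSet.empty, fun _ _ _ => rfl, empty_subset _⟩]

theorem ae_ker {a : Set Λ} (ha : a.Countable) {P : Om Λ → ℝ → Prop}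
    (hP : Measurable fun u : Om Λ × ℝ => P u.1 u.2) (hd : DependsOn P a) :
    ∀ᵇ ω, (∀ z, P ω z) → ω ∈ ker a {ω | ∀ z, P ω z} := by
  obtain ⟨x, h1, h2, R, h3, h4, h5, h6⟩ := unif ha (P := fun ω z => ¬ P ω z) hP.not
    fun _ _ h => funext fun z => congrArg Not (congrFun (hd h) z)
  have h : ∃ K, IsKer a {ω | ∀ z, P ω z} K ∧ ∀ᵇ ω, ω ∈ {ω | ∀ z, P ω z} → ω ∈ K := by
    refine ⟨R ∩ {ω | P ω (x ω)}, ⟨h3.inter (hP.comp (measurable_id.prodMk h1)).setOf,
      fun ω ω' h => ?_, fun ω hω z => ?_⟩, mem_of_superset h5 fun ω hω h => ⟨hω, h _⟩⟩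
    · have e1 := h4 h
      simp only [mem_inter_iff, mem_ofPred_eq] at e1 ⊢
      rw [e1, hd h, h2 h]
    · by_contra hn
      exact h6 ω hω.1 z hn hω.2
  rw [ker, dif_pos h]
  exact h.choose_spec.2

end Pool.Agent.Lib.MP_5ffd28_gt.Cohen
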