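import Pool.Agent.Lib.MP_5ffd28_gt.Cohen.Top

/-! Elements of a free abelian topological group of the extension as names of words. -/

namespace Pool.Agent.Lib.MP_5ffd28_gt.Cohen

open Set Filter Topology MeasureTheory Pool.Agent.Shared.Forcing Pool.Agent.Lib.MP_23bd8d_gt

set_option synthInstance.maxSize 4000

/-- names for the data of a quotient homomorphism -/
structure Nm : Type 2 where
  (S TS G A TG i H B TH j h : HN)

variable (n : Nm) {U : Ultra BB}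

structure Hyp (U : Ultra BB) : Prop where
  sub : Sub (EU U) (cls U n.S) (RR U)
  two : ∃ s t, EU U s (cls U n.S) ∧ EU U t (cls U n.S) ∧ s ≠ t
  top : SubTop (EU U) (RR U) (LL U) (cls U n.S) (cls U n.TS)
  fX : Free (EU U) (RR U) (TT U) (cls U n.G) (cls U n.A) (cls U n.TG) (cls U n.i)
  fS : Free (EU U) (cls U n.S) (cls U n.TS) (cls U n.H) (cls U n.B) (cls U n.TH) (cls U n.j)
  cts : Cts (EU U) (cls U n.h) (cls U n.G) (cls U n.TG) (cls U n.H) (cls U n.TH)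
  add : Additive (EU U) (cls U n.h) (cls U n.A) (cls U n.B)
  surj : ∀ y, EU U y (cls U n.H) → ∃ x, Maps (EU U) (cls U n.h) x y
  op : OpenMap (EU U) (cls U n.h) (cls U n.TG) (cls U n.TH)

instance : Dec (Hyp n) :=
  ⟨bv fun U => Sub (EU U) (cls U n.S) (RR U) ∧
    (∃ s t, EU U s (cls U n.S) ∧ EU U t (cls U n.S) ∧ s ≠ t) ∧
    SubTop (EU U) (RR U) (LL U) (cls U n.S) (cls U n.TS) ∧
    Free (EU U) (RR U) (TT U) (cls U n.G) (cls U n.A) (cls U n.TG) (cls U n.i) ∧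
    Free (EU U) (cls U n.S) (cls U n.TS) (cls U n.H) (cls U n.B) (cls U n.TH) (cls U n.j) ∧
    Cts (EU U) (cls U n.h) (cls U n.G) (cls U n.TG) (cls U n.H) (cls U n.TH) ∧
    Additive (EU U) (cls U n.h) (cls U n.A) (cls U n.B) ∧
    (∀ y, EU U y (cls U n.H) → ∃ x, Maps (EU U) (cls U n.h) x y) ∧
    OpenMap (EU U) (cls U n.h) (cls U n.TG) (cls U n.TH), fun U => by
      rw [bv_mem]
      exact ⟨fun ⟨a, b, c, d, e, f, g, h, i⟩ => ⟨a, b, c, d, e, f, g, h, i⟩,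
        fun ⟨a, b, c, d, e, f, g, h, i⟩ => ⟨a, b, c, d, e, f, g, h, i⟩⟩⟩

/-- `Φ` is a homomorphism extending `φ` -/
def Ex (U : Ultra BB) (φ : Ω → ℝ → ℝ) (Φ : MU U) : Prop :=
  IsFn (EU U) Φ (cls U n.H) (RR U) ∧ Additive (EU U) Φ (cls U n.B) (AA U) ∧
    ∀ s y t, Maps (EU U) (cls U n.j) s y → Maps (EU U) (sm U (fnHat φ)) s t → Maps (EU U) Φ y t

instance (φ : Ω → ℝ → ℝ) (Φ : HN) : Dec fun U => Ex n U φ (cls U Φ) := by
  unfold Ex; infer_instance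

variable {n} {φ : Ω → ℝ → ℝ}

theorem Hyp.exists_res (h : Hyp n U) (hφ : JM φ) : ∃ f, IsFn (EU U) f (cls U n.S) (RR U) ∧
    (∀ x y, Maps (EU U) f x y ↔ EU U x (cls U n.S) ∧ Maps (EU U) (sm U (fnHat φ)) x y) ∧
    ∀ T, TopAb (EU U) (RR U) (AA U) T → Cts (EU U) f (cls U n.S) (cls U n.TS) (RR U) T →
      ∃ Φ, Ex n U φ Φ ∧ Cts (EU U) Φ (cls U n.H) (cls U n.TH) (RR U) T := by
  obtain ⟨f, h1, h2⟩ := md_rel tame (fun U x y => Maps (EU U) (sm U (fnHat φ)) x y) U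
    (cls U n.S) (RR U)
  have h3 : ∀ x y, Maps (EU U) f x y ↔ EU U x (cls U n.S) ∧ Maps (EU U) (sm U (fnHat φ)) x y :=
    fun x y => (h2 x y).trans (and_congr_right' ⟨And.right, fun h => ⟨((isFn_fnHat hφ).mem h).2, h⟩⟩)
  refine ⟨f, ⟨h1, fun x hx => ?_⟩, h3, fun T a b => ?_⟩
  · simpa only [h3, hx, true_and] using (isFn_fnHat hφ).2 x (h.sub x hx)
  · obtain ⟨Φ, a1, a2, a3⟩ := h.fS.2.2.2 _ _ _ f a b
    exact ⟨Φ, ⟨a1.1, a2, fun s y t b1 b2 => a3 s y t b1 ((h3 s t).2 ⟨(h.fS.2.1.1.mem b1).1, b2⟩)⟩, a1⟩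

theorem Hyp.ex_alg (h : Hyp n U) (hφ : JM φ) : ∃ Φ, Ex n U φ Φ := by
  obtain ⟨f, h1, -, h3⟩ := h.exists_res hφ
  obtain ⟨T, t1, t2⟩ := exists_indisc (U := U)
  have hT := h.top.isTop h.sub
  exact (h3 T t1 (cts_of hT h1 fun x y V a b c => ⟨_, hT.2.1, (h1.mem a).1,
    fun x' y' _ d => t2 V y y' b c (h1.mem d).2⟩)).imp fun _ => And.left

theorem ex_cts {Ψ : Ultra BB → Prop} [Dec Ψ] (hφ : JM φ) (H : ∀ U, Ψ U → Hyp n U ∧ ∀ x : MF,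
    EU U (pt U x) (cls U n.S) → Ae U fun ω => ContinuousAt (φ ω) (x.1 ω)) (h : Ψ U) :
    ∃ Φ, Ex n U φ Φ ∧ Cts (EU U) Φ (cls U n.H) (cls U n.TH) (RR U) (TR U) := by
  obtain ⟨f, h1, h2, h3⟩ := (H U h).1.exists_res hφ
  obtain ⟨f, rfl⟩ := cls_surj f
  refine h3 _ topAb_TR (cts_real (Φ := fun U => Ψ U ∧ ∀ x y, Maps (EU U) (cls U f) x y ↔
    EU U x (cls U n.S) ∧ Maps (EU U) (sm U (fnHat φ)) x y) ?_ ⟨h, h2⟩
    ((H U h).1.top.isTop (H U h).1.sub) h1)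
  rintro U ⟨h, h2⟩ x y p q a1 a2
  obtain ⟨a3, a4⟩ := (h2 _ _).1 a1
  obtain ⟨x, rfl⟩ := real_cases ((H U h).1.sub x a3)
  choose K k1 k2 k3 using fun u : ℚ × ℚ => exists_ker
    (P := fun ω z => u.1 < z ∧ z < u.2 → p < φ ω z ∧ φ ω z < q)
    (((measurable_const.lt measurable_snd).and (measurable_snd.lt measurable_const)).imp
      ((measurable_const.lt hφ).and (hφ.lt measurable_const)))
  suffices ∃ W, EU U W (cls U n.TS) ∧ EU U (pt U x) W ∧ ∀ x' y', EU U x' W →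
      Maps (EU U) (sm U (fnHat φ)) x' y' → Maps (EU U) (LL U) (pt U (cst p)) y' ∧
        Maps (EU U) (LL U) y' (pt U (cst q)) from
    this.imp fun W h => ⟨h.1, h.2.1, fun x' y' a b => (lt_pt.1 (h.2.2 _ _ a ((h2 _ _).1 b).2).1).and
      (lt_pt.1 (h.2.2 _ _ a ((h2 _ _).1 b).2).2)⟩
  have a5 := And.intro h a3
  revert a5
  refine wlog_ex (P := fun (u : ℚ × ℚ) ω => (u.1 < x.1 ω ∧ x.1 ω < u.2) ∧ K u ω)
    (fun u => ((measurable_const.lt x.2).and (x.2.lt measurable_const)).and (k1 u)) U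
    (((a2.and (pt_eq.1 ((maps_fnHat hφ).1 a4))).and ((H U h).2 x a3)).mono'
      ((eventually_countable_forall.2 k3).mono fun ω h3 h4 => ?_)) ?_
  · obtain ⟨⟨u, v⟩, b1, b2⟩ := (nhds_basis_Ioo _).eventually_iff.1
      (h4.2 (Ioo_mem_nhds (h4.1.1.1.trans_eq h4.1.2) (h4.1.2.symm.trans_lt h4.1.1.2)))
    obtain ⟨p', c1, c2⟩ := exists_rat_btwn b1.1
    obtain ⟨q', c3, c4⟩ := exists_rat_btwn b1.2
    exact ⟨(p', q'), ⟨c2, c3⟩, h3 _ fun z hz => b2 ⟨c1.trans hz.1, hz.2.trans c4⟩⟩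
  · rintro U u hu ⟨h, a3⟩
    obtain ⟨W, w1, w2⟩ := (H U h).1.top.iv (cst u.1) (cst u.2)
    refine ⟨W, w1, (w2 _).2 ⟨a3, lt_pt.2 (hu.mono fun _ h => h.1.1),
      lt_pt.2 (hu.mono fun _ h => h.1.2)⟩, fun x' y' b1 b2 => ?_⟩
    obtain ⟨c1, c2, c3⟩ := (w2 _).1 b1
    obtain ⟨x', rfl⟩ := real_cases ((H U h).1.sub _ c1)
    have := (hu.and ((lt_pt.1 c2).and (lt_pt.1 c3))).mono fun ω h => k2 u ω h.1.2 _ h.2
    rw [(maps_fnHat hφ).1 b2]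
    exact ⟨lt_pt.2 (this.mono fun _ h => h.1), lt_pt.2 (this.mono fun _ h => h.2)⟩

/-- names of words -/
abbrev WW : Type := {w : Ω → ℝ →₀ ℤ // IsW w}

noncomputable def evw (hφ : JM φ) (w : WW) : MF := ⟨fun ω => ev (φ ω) (w.1 ω), w.2.meas φ hφ⟩

noncomputable def cw (n : Nm) (Z : HN) (w : WW) : BB :=
  ⨅ (φ : {φ // JM φ}) (Φ : HN), bv fun U => Ex n U φ (cls U Φ) →
    Maps (EU U) (cls U Φ) (cls U Z) (pt U (evw φ.2 w))

theorem cw_use {Z : HN} {w : WW} (h : cw n Z w ∈ U) (hφ : JM φ) {Φ : MU U} (h' : Ex n U φ Φ) :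
    Maps (EU U) Φ (cls U Z) (pt U (evw hφ w)) := by
  obtain ⟨Φ, rfl⟩ := cls_surj Φ
  exact bv_mem.1 (mem_of_iInf_mem (mem_of_iInf_mem h ⟨φ, hφ⟩) Φ) h'

theorem cw_intro {Ψ : Ultra BB → Prop} [Dec Ψ] {Z : HN} {w : WW} (H : ∀ U, Ψ U → ∀ φ (hφ : JM φ) Φ,
    Ex n U φ Φ → Maps (EU U) Φ (cls U Z) (pt U (evw hφ w))) (h : Ψ U) : cw n Z w ∈ U :=
  Ultra.mono (bv_mem.2 h) (le_iInf₂ fun φ _ => le_bv fun U hU => H U (bv_mem.1 hU) φ φ.2 _)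

noncomputable def WW.single (x : MF) : WW :=
  ⟨fun ω => Finsupp.single (x.1 ω) 1, fun φ hφ => by simp only [ev_single]; exact (app φ hφ x).2,
    (exists_dep x.2).imp fun _ h => ⟨h.1, fun _ _ e => by simp only [h.2 e]⟩⟩

noncomputable def WW.sub (v w : WW) : WW :=
  ⟨fun ω => v.1 ω - w.1 ω, fun φ hφ => by
    simp only [map_sub]; exact (v.2.meas φ hφ).sub (w.2.meas φ hφ), by
    obtain ⟨a, a1, a2⟩ := v.2.dep
    obtain ⟨b, b1, b2⟩ := w.2.dep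
    exact ⟨a ∪ b, a1.union b1, fun _ _ e => by
      simp only [a2 fun δ h => e δ (Or.inl h), b2 fun δ h => e δ (Or.inr h)]⟩⟩

theorem Hyp.word (h : Hyp n U) {Z : HN} (hZ : EU U (cls U Z) (cls U n.H)) :
    ⨆ w, cw n Z w ∈ U := by
  let Ψ : ∀ U : Ultra BB, MU U → Prop := fun U z => ∀ Z, cls U Z = z → ⨆ w, cw n Z w ∈ U
  have hΨ : ∀ U X, Ψ U (cls U X) ↔ ⨆ w, cw n X w ∈ U := fun U X => ⟨fun h => h X rfl,
    fun h Z e => by
      revert e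
      refine wlog_sup _ U h ?_
      exact fun U w hw e => iSup_mem_of_mem w (cw_intro (Ψ := fun U => cw n X w ∈ U ∧
        cls U Z = cls U X) (fun U h φ hφ Φ hΦ => h.2 ▸ cw_use h.1 hφ hΦ) ⟨hw, e⟩)⟩
  have : ∀ X, Dec fun U => Ψ U (cls U X) := fun X => ⟨_, fun U => hΨ U X⟩
  obtain ⟨K, hK⟩ := md_sep Ψ U (cls U n.H)
  have h1 : ∀ x y, Maps (EU U) (cls U n.j) x y → EU U y K := fun x y a => by
    obtain ⟨x, rfl⟩ := real_cases (h.sub x (h.fS.2.1.1.mem a).1)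
    obtain ⟨y, rfl⟩ := cls_surj y
    exact (hK _).2 ⟨(h.fS.2.1.1.mem a).2, (hΨ _ _).2 (iSup_mem_of_mem (WW.single x) (cw_intro
      (Ψ := fun U => Maps (EU U) (cls U n.j) (pt U x) (cls U y)) (fun U a φ hφ Φ hΦ => hΦ.2.2 _ _ _ a
        ((maps_fnHat hφ).2 (pt_eq.2 (Ae.of_all fun ω => ev_single _ _)))) a))⟩
  refine (hΨ _ _).1 ((hK _).1 (h.fS.2.2.1 K (fun y hy => ((hK y).1 hy).1) ?_
    (fun x y z hx hy hz e => (hK z).2 ⟨hz, ?_⟩) h1 _ hZ)).2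
  · obtain ⟨s, -, hs, -⟩ := h.two
    obtain ⟨y, -, hy⟩ := h.fS.2.1.1.total hs
    exact ⟨y, h1 s y hy⟩
  · obtain ⟨x, rfl⟩ := cls_surj x
    obtain ⟨y, rfl⟩ := cls_surj y
    obtain ⟨z, rfl⟩ := cls_surj z
    have h2 := (hΨ _ _).1 ((hK _).1 hx).2
    have h3 := And.intro ((hΨ _ _).1 ((hK _).1 hy).2) (And.intro hz e)
    rw [hΨ]
    revert h3
    refine wlog_sup _ U h2 ?_
    rintro U v hv ⟨h2, h3⟩
    have h4 := And.intro hv h3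
    revert h4
    refine wlog_sup _ U h2 ?_
    intro U w hw h4
    refine iSup_mem_of_mem (v.sub w) (cw_intro (Ψ := fun U => cw n y w ∈ U ∧ cw n x v ∈ U ∧
      EU U (cls U z) (cls U n.H) ∧ Op (EU U) (cls U n.B) (cls U z) (cls U y) (cls U x)) ?_ ⟨hw, h4⟩)
    rintro U ⟨a1, a2, a3, a4⟩ φ hφ Φ hΦ
    obtain ⟨t, t1, t2⟩ := hΦ.1.total a3
    obtain ⟨t, rfl⟩ := real_cases t1
    have := op_ae.1 (hΦ.2.1 _ _ _ _ _ _ a4 t2 (cw_use a1 hφ hΦ) (cw_use a2 hφ hΦ))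
    rwa [pt_eq.2 (this.mono fun ω h => (show (evw hφ (v.sub w)).1 ω = t.1 ω from
      (map_sub _ _ _).trans (sub_eq_of_eq_add h)))]

theorem exists_word (n : Nm) (Z : HN) : ∃ w, ∀ U, Hyp n U → EU U (cls U Z) (cls U n.H) →
    cw n Z w ∈ U := by
  have : Nonempty WW := ⟨WW.single (cst 0)⟩
  obtain ⟨i, κ, h1, h2⟩ := glue (cw n Z)
  refine ⟨⟨fun ω => (i (κ ω)).1 ω, fun φ hφ => (measurable_from_prod_countable_right
    (f := fun u : ℕ × Ω => ev (φ u.2) ((i u.1).1 u.2)) fun m => (i m).2.meas φ hφ).comp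
      (h1.prodMk measurable_id), ?_⟩, fun U h hZ => ?_⟩
  · choose a a1 a2 using fun m => (i m).2.dep
    obtain ⟨b, b1, b2⟩ := exists_dep (f := fun ω => (κ ω : ℝ)) (measurable_from_nat.comp h1)
    refine ⟨b ∪ ⋃ m, a m, b1.union (countable_iUnion a1), fun ω ω' e => ?_⟩
    simp only [Nat.cast_injective (R := ℝ) (b2 fun δ h => e δ (Or.inl h))]
    exact a2 _ fun δ h => e δ (Or.inr (mem_iUnion.2 ⟨_, h⟩))
  · refine wlog_sup _ U (Ultra.mono (h.word hZ) h2) ?_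
    intro U m hm
    refine cw_intro (Ψ := fun U => cw n Z (i m) ⊓ tv (fun ω => κ ω = m) ∈ U)
      (fun U hm φ hφ Φ hΦ => ?_) hm
    rw [Ultra.inf_mem] at hm
    refine (pt_eq.2 (Ae.mono hm.2 fun ω h => ?_) : pt U (evw hφ (i m)) = _) ▸ cw_use hm.1 hφ hΦ
    simp only [evw, h]

/-- the words of the points -/
def Words (n : Nm) (w : MF → WW) : Prop :=
  ∀ x U, Hyp n U → ∀ φ (hφ : JM φ) Φ y z, Ex n U φ Φ → Maps (EU U) (cls U n.i) (pt U x) y →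
    Maps (EU U) (cls U n.h) y z → Maps (EU U) Φ z (pt U (evw hφ (w x)))

theorem exists_words (n : Nm) : ∃ w, Words n w := by
  choose Z hZ using fun x : MF => exists_witness fun U z => ∃ y,
    Maps (EU U) (cls U n.i) (pt U x) y ∧ Maps (EU U) (cls U n.h) y z
  choose w hw using fun x => exists_word n (Z x)
  refine ⟨w, fun x U h φ hφ Φ y z a b c => ?_⟩
  obtain ⟨y', d, e⟩ := hZ x U ⟨z, y, b, c⟩
  rw [h.cts.1.uniq c (h.fX.2.1.1.uniq d b ▸ e)]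
  exact cw_use (hw x U h (h.cts.1.mem e).2) hφ a

end Pool.Agent.Lib.MP_5ffd28_gt.Cohen
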